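import Pool.Agent.Lib.MP_fe5cb4_co.Sey.St

/-!
Definitions and statements for the four colour theorem: triangulations given by their faces,
minimal counterexamples, consistent sets of ring words, patches, configurations.
-/

set_option autoImplicit false

namespace Pool.Agent.FCT

open Pool.Agent.Lib.MP_fe5cb4_co.Sey

/-- The four colours. -/
abbrev K : Type := ZMod 2 × ZMod 2

/-- The four colour theorem. -/
def Four : Prop := ∀ (V : Type) [Fintype V] (G : SimpleGraph V), Planar G →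
  ∃ c : V → K, ∀ a b, G.Adj a b → c a ≠ c b

/-- A triangulated surface: `F a b c` says that `a b c` is a face, `opp a b c` is the apex of the
other face on the edge `a b`. -/
structure Tri (V : Type) : Type where
  F : V → V → V → Prop
  opp : V → V → V → V
  deg : V → ℕ
  s12 : ∀ {a b c}, F a b c → F b a c
  s23 : ∀ {a b c}, F a b c → F a c b
  ne : ∀ {a b c}, F a b c → a ≠ b
  opp_F : ∀ {a b c}, F a b c → F a b (opp a b c)
  opp_ne : ∀ {a b c}, F a b c → opp a b c ≠ c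
  two : ∀ {a b c d}, F a b c → F a b d → d = c ∨ d = opp a b c

variable {V : Type}

/-- Adjacency. -/
def Tri.Adj (T : Tri V) (a b : V) : Prop := ∃ c, T.F a b c

/-- The neighbours of `a` in the rotation that starts with `b, c`. -/
def Tri.rot (T : Tri V) (a b c : V) : ℕ → V
  | 0 => b
  | 1 => c
  | k + 2 => T.opp a (T.rot a b c (k + 1)) (T.rot a b c k)

/-- A minimal counterexample. -/
structure MC [Fintype V] (T : Tri V) : Prop where
  nonempty : Nonempty V
  flag : ∀ a, ∃ b c, T.F a b c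
  rot_per : ∀ {a b c}, T.F a b c → ∀ k, T.rot a b c (k + T.deg a) = T.rot a b c k
  rot_inj : ∀ {a b c}, T.F a b c → ∀ i < T.deg a, ∀ j < T.deg a,
    T.rot a b c i = T.rot a b c j → i = j
  rot_surj : ∀ {a b c x}, T.F a b c → T.Adj a x → ∃ k < T.deg a, T.rot a b c k = x
  euler : ∑ v, T.deg v < 6 * Fintype.card V
  cocyc : ∀ D : V → V → ZMod 2, (∀ a b, D a b = D b a) →
    (∀ a b c, T.F a b c → D a b + D b c + D c a = 0) →
    ∃ x : V → ZMod 2, ∀ a b, T.Adj a b → D a b = x a + x b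
  sides : ∀ z : V → V → ZMod 2, (∀ a b, z a b = z b a) → (∀ a b, z a b ≠ 0 → T.Adj a b) →
    (∀ a, ∑ b, z a b = 0) → ∃ σ : V → V → V → ZMod 2, ∀ a b c, T.F a b c →
      σ b a c = σ a b c ∧ σ a c b = σ a b c ∧ σ a b c + σ a b (T.opp a b c) = z a b
  min : ∀ X : V → V → Prop, (∀ a b, X a b → T.Adj a b) → (∃ a b, X a b) →
    ∃ c : V → K, (∀ a b, X a b → c a = c b) ∧
      ∀ a b, T.Adj a b → ¬ Relation.EqvGen X a b → c a ≠ c b
  nocol : ¬ ∃ c : V → K, ∀ a b, T.Adj a b → c a ≠ c b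

/-- Birkhoff's theorem on short cycles. -/
structure Birk (T : Tri V) : Prop where
  b3 : ∀ {a b c}, T.Adj a b → T.Adj b c → T.Adj c a → T.F a b c
  b4 : ∀ {a b c d}, T.Adj a b → T.Adj b c → T.Adj c d → T.Adj d a → a ≠ c → b ≠ d →
    T.Adj a c ∨ T.Adj b d
  b5 : ∀ {a b c d e}, T.Adj a b → T.Adj b c → T.Adj c d → T.Adj d e → T.Adj e a →
    a ≠ c → a ≠ d → b ≠ d → b ≠ e → c ≠ e →
    ¬ T.Adj a c → ¬ T.Adj a d → ¬ T.Adj b d → ¬ T.Adj b e → ¬ T.Adj c e →
    ∃ h, T.Adj h a ∧ T.Adj h b ∧ T.Adj h c ∧ T.Adj h d ∧ T.Adj h e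
  deg5 : ∀ a, 5 ≤ T.deg a

/-- `μ` is a non-crossing perfect matching of the positions below `r` with the property `N`. -/
def NC (r : ℕ) (N : ℕ → Prop) (μ : ℕ → ℕ) : Prop :=
  (∀ p < r, N p → μ p < r ∧ N (μ p) ∧ μ p ≠ p ∧ μ (μ p) = p) ∧
    ∀ p < r, ∀ q < r, N p → N q → p < q → q < μ p → p < μ q ∧ μ q < μ p

/-- A consistent set of ring words of length `r` (only the entries below `r` matter). -/
structure Consistent (r : ℕ) (C : Set (ℕ → K)) : Prop where
  sat : ∀ κ ∈ C, ∀ κ', (∀ p < r, κ' p = κ p) → κ' ∈ C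
  ne : ∀ κ ∈ C, ∀ p < r, κ p ≠ 0
  sum : ∀ κ ∈ C, ∑ p ∈ Finset.range r, κ p = 0
  perm : ∀ κ ∈ C, ∀ σ : K ≃+ K, (fun p => σ (κ p)) ∈ C
  kempe : ∀ κ ∈ C, ∀ θ : K, θ ≠ 0 → ∃ μ, NC r (fun p => κ p ≠ θ) μ ∧
    ∀ A : ℕ → Bool, (∀ p < r, κ p ≠ θ → A (μ p) = A p) →
      (fun p => if κ p ≠ θ ∧ A p = true then κ p + θ else κ p) ∈ C

/-- Moves between flags: inside a face, or across an edge of `J`. -/
def Step (T : Tri V) (J : V → V → Prop) (s t : V × V × V) : Prop :=
  t = (s.2.1, s.1, s.2.2) ∨ t = (s.1, s.2.2, s.2.1) ∨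
    (J s.1 s.2.1 ∧ t = (s.1, s.2.1, T.opp s.1 s.2.1 s.2.2))

/-- A set `P` of inner faces and a set `J` of inner edges; the other edges of inner faces are
listed once each along the closed walk `ρ`, with apexes `w`. -/
structure Patch (T : Tri V) (P : V → V → V → Prop) (J : V → V → Prop) (r : ℕ) (ρ w : ℕ → V) :
    Prop where
  p12 : ∀ {a b c}, T.F a b c → P a b c → P b a c
  p23 : ∀ {a b c}, T.F a b c → P a b c → P a c b
  symm : ∀ {a b}, J a b → J b a
  inner : ∀ {a b c}, J a b → T.F a b c → P a b c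
  close : ρ r = ρ 0
  face : ∀ p < r, T.F (ρ p) (ρ (p + 1)) (w p) ∧ P (ρ p) (ρ (p + 1)) (w p) ∧ ¬ J (ρ p) (ρ (p + 1))
  surj : ∀ a b c, T.F a b c → P a b c → ¬ J a b → ∃ p < r, c = w p ∧ s(a, b) = s(ρ p, ρ (p + 1))
  inj : ∀ p < r, ∀ q < r, w p = w q → s(ρ p, ρ (p + 1)) = s(ρ q, ρ (q + 1)) → p = q
  conn : ∀ p < r, Relation.ReflTransGen (Step T J) (ρ 0, ρ 1, w 0) (ρ p, ρ (p + 1), w p)

/-- The ring words of the colourings that are proper off `J`. -/
def Words (T : Tri V) (J : V → V → Prop) (r : ℕ) (ρ : ℕ → V) : Set (ℕ → K) :=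
  {κ | ∃ c : V → K, (∀ a b, T.Adj a b → ¬ J a b → c a ≠ c b) ∧
    ∀ p < r, κ p = c (ρ p) + c (ρ (p + 1))}

/-- A configuration with its free completion: the vertices `0, 1, 2` form the first face, the
vertex `3 + n` is the `opp` of the entry `n` of `ops`; `whl` lists the interior vertices with their
rotations; `ord` is the order in which facts are derived (`2 n` for the entry `n` of `ops`,
`2 n + 1` for the entry `n` of `whl`); `ring` is the ring and `con` the contract. The vertex `0` is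
the centre. -/
structure Cfg : Type where
  ops : List (ℕ × ℕ × ℕ)
  whl : List (ℕ × List ℕ)
  ord : List ℕ
  ring : List ℕ
  con : List (ℕ × ℕ)

/-- The developing map as a list. -/
def dev (T : Tri V) (a : V) : List (ℕ × ℕ × ℕ) → List V → List V
  | [], l => l
  | o :: os, l => dev T a os (l ++ [T.opp (l.getD o.1 a) (l.getD o.2.1 a) (l.getD o.2.2 a)])

/-- The developing map from the flag `a b c`. -/
def devF (T : Tri V) (ops : List (ℕ × ℕ × ℕ)) (a b c : V) (n : ℕ) : V :=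
  (dev T a ops [a, b, c]).getD n a

/-- The configuration appears at the flag `a b c`. -/
def Appears (T : Tri V) (S : Cfg) (a b c : V) : Prop :=
  T.F a b c ∧ ∀ q ∈ S.whl, T.deg (devF T S.ops a b c q.1) = q.2.length

/-- Every wheel is mapped to a full rotation. -/
def LocIso (T : Tri V) (W : List (ℕ × List ℕ)) (φ : ℕ → V) : Prop :=
  ∀ q ∈ W, T.deg (φ q.1) = q.2.length ∧ T.F (φ q.1) (φ (q.2.getD 0 0)) (φ (q.2.getD 1 0)) ∧
    ∀ k < q.2.length,
      φ (q.2.getD k 0) = T.rot (φ q.1) (φ (q.2.getD 0 0)) (φ (q.2.getD 1 0)) k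

/-- A fact `a b c d`: `a b c` is a face and `d` is its `opp`. -/
abbrev Q4 : Type := ℕ × ℕ × ℕ × ℕ

/-- Equality of unordered pairs. -/
def eq2 (a b x y : ℕ) : Bool := (a.beq x && b.beq y) || (a.beq y && b.beq x)

/-- Equality of unordered triples. -/
def eq3 (a b c x y z : ℕ) : Bool :=
  (c.beq z && eq2 a b x y) || (c.beq y && eq2 a b x z) || (c.beq x && eq2 a b y z)

/-- The fact is known. -/
def hasO (L : List Q4) (a b c d : ℕ) : Bool :=
  L.any fun q => eq2 a b q.1 q.2.1 && eq2 c d q.2.2.1 q.2.2.2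

/-- The face is known. -/
def hasF (L : List Q4) (a b c : ℕ) : Bool :=
  eq3 a b c 0 1 2 || L.any fun q => eq2 a b q.1 q.2.1 && (c.beq q.2.2.1 || c.beq q.2.2.2) ||
    eq2 a c q.1 q.2.1 && (b.beq q.2.2.1 || b.beq q.2.2.2) ||
    eq2 b c q.1 q.2.1 && (a.beq q.2.2.1 || a.beq q.2.2.2)

/-- The list continues the rotation about `w`. -/
def chain (L : List Q4) (w : ℕ) : List ℕ → Bool
  | x :: y :: z :: t => hasO L w y x z && chain L w (y :: z :: t)
  | _ => true

/-- The derivation of facts; the last list holds the numbers of the closed wheels. -/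
def derive (S : Cfg) : List ℕ → List Q4 → List ℕ → Bool
  | [], _, D => (List.range S.whl.length).all fun n => D.any fun m => m.beq n
  | s :: t, L, D =>
    bif (s % 2).beq 0 then
      match S.ops[s / 2]? with
      | none => false
      | some o => Nat.blt o.1 (3 + s / 2) && Nat.blt o.2.1 (3 + s / 2) &&
          Nat.blt o.2.2 (3 + s / 2) && hasF L o.1 o.2.1 o.2.2 &&
          derive S t ((o.1, o.2.1, o.2.2, 3 + s / 2) :: L) D
    else
      match S.whl[s / 2]? with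
      | none => false
      | some q => Nat.ble 3 q.2.length && hasF L q.1 (q.2.getD 0 0) (q.2.getD 1 0) &&
          chain L q.1 q.2 &&
          derive S t ((q.1, q.2.getD (q.2.length - 1) 0, q.2.getD (q.2.length - 2) 0, q.2.getD 0 0) ::
            (q.1, q.2.getD 0 0, q.2.getD (q.2.length - 1) 0, q.2.getD 1 0) :: L) (s / 2 :: D)

/-- Interior vertices. -/
def Inn (W : List (ℕ × List ℕ)) (a : ℕ) : Prop := ∃ q ∈ W, q.1 = a

/-- `b` is a neighbour of the interior vertex `a`. -/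
def Nb (W : List (ℕ × List ℕ)) (a b : ℕ) : Prop := ∃ q ∈ W, q.1 = a ∧ b ∈ q.2

/-- `a b c` is a face at the interior vertex `a`, in the order of its rotation. -/
def Fc (W : List (ℕ × List ℕ)) (a b c : ℕ) : Prop :=
  ∃ q ∈ W, q.1 = a ∧ ∃ k < q.2.length, q.2.getD k 0 = b ∧ q.2.getD ((k + 1) % q.2.length) 0 = c

/-- The edge `a b` is in the contract. -/
def Con (X : List (ℕ × ℕ)) (a b : ℕ) : Prop := (a, b) ∈ X ∨ (b, a) ∈ X

/-- The vertex is an end of an edge of the contract. -/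
def End (X : List (ℕ × ℕ)) (a : ℕ) : Prop := ∃ e ∈ X, e.1 = a ∨ e.2 = a

/-- The ring as a closed walk. -/
def rg (R : List ℕ) (p : ℕ) : ℕ := R.getD (p % R.length) 0

/-- The static conditions on a configuration. -/
structure Static (S : Cfg) : Prop where
  nodup : (S.whl.map Prod.fst).Nodup
  nodup' : ∀ q ∈ S.whl, q.2.Nodup
  sym : ∀ a b c, Fc S.whl a b c → (Inn S.whl b → Nb S.whl b a ∧ Nb S.whl b c) ∧
    (Inn S.whl c → Nb S.whl c a ∧ Nb S.whl c b)
  centre : Inn S.whl 0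
  radius : ∀ w, Inn S.whl w → w = 0 ∨ Nb S.whl 0 w ∨ ∃ p, Nb S.whl 0 p ∧ Nb S.whl p w
  arity : ∀ a p q x y, Nb S.whl 0 a → ¬ Inn S.whl a → Nb S.whl p a → Nb S.whl q a →
    Nb S.whl x a → Nb S.whl y a → ¬ [0, p, q, x, y].Nodup
  three : 3 ≤ S.ring.length
  ring_nodup : S.ring.Nodup
  ring_iff : ∀ a, a ∈ S.ring ↔ ¬ Inn S.whl a ∧ ∃ w, Nb S.whl w a
  ring_face : ∀ p < S.ring.length, ∃ w, ∀ w', w' = w ↔
    Fc S.whl w' (rg S.ring p) (rg S.ring (p + 1)) ∨ Fc S.whl w' (rg S.ring (p + 1)) (rg S.ring p)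
  face_ring : ∀ w a b, Fc S.whl w a b → ¬ Inn S.whl a → ¬ Inn S.whl b →
    ∃ p < S.ring.length, s(a, b) = s(rg S.ring p, rg S.ring (p + 1))
  con_ne : S.con ≠ []
  con_le : S.con.length ≤ 4
  con_nb : ∀ e ∈ S.con, Nb S.whl e.1 e.2
  sparse : ∀ a b c, Fc S.whl a b c → ¬ (Con S.con a b ∧ Con S.con a c) ∧
    ¬ (Con S.con a b ∧ Con S.con b c) ∧ ¬ (Con S.con a c ∧ Con S.con b c)
  triad : S.con.length = 4 → ∃ q ∈ S.whl, (∃ x y z, [x, y, z].Nodup ∧
    (∀ u ∈ [x, y, z], u ∈ q.2 ∧ End S.con u)) ∧ (q.2.length = 5 → ∃ u ∈ q.2, ¬ End S.con u)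

/-- The ring word extends to the free completion with the edges of `X` contracted. -/
def Ext (W : List (ℕ × List ℕ)) (R : List ℕ) (X : List (ℕ × ℕ)) (κ : ℕ → K) : Prop :=
  ∃ c : ℕ → K, (∀ a b, Nb W a b → (c a = c b ↔ Con X a b)) ∧
    ∀ p < R.length, κ p = c (rg R p) + c (rg R (p + 1))

/-- Reducibility. -/
def Red (S : Cfg) : Prop := ∀ C, Consistent S.ring.length C →
  (∀ κ ∈ C, ¬ Ext S.whl S.ring [] κ) → ∀ κ ∈ C, ¬ Ext S.whl S.ring S.con κ

/-- The images of interior vertices are different, the image is induced and misses the ring. -/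
def Emb (T : Tri V) (W : List (ℕ × List ℕ)) (φ : ℕ → V) : Prop :=
  (∀ x y, Inn W x → Inn W y → φ x = φ y → x = y) ∧
  (∀ x y, Inn W x → Inn W y → T.Adj (φ x) (φ y) → Nb W x y) ∧
  ∀ w a y, Nb W w a → Inn W y → φ a = φ y → a = y

/-- The configuration does not appear in a minimal counterexample. -/
def Excl (S : Cfg) : Prop := ∀ (V : Type) [Fintype V] (T : Tri V), MC T → Birk T →
  ∀ a b c, ¬ Appears T S a b c

/-- job Dual -/
def StDual : Prop := Four → SeyM 3

/-- job Mc -/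
def StMc : Prop := ¬ Four → ∃ (V : Type) (_ : Fintype V) (T : Tri V), MC T

/-- job Kempe -/
def StKempe : Prop := ∀ (V : Type) [Fintype V] (T : Tri V), MC T →
  ∀ P J r ρ w, Patch T P J r ρ w → Consistent r (Words T J r ρ)

/-- job Birk -/
def StBirk : Prop := ∀ (V : Type) [Fintype V] (T : Tri V), MC T → Birk T

/-- job Dev -/
def StDev : Prop := ∀ (V : Type) [Fintype V] (T : Tri V), MC T → ∀ (S : Cfg) a b c,
  derive S S.ord [] [] = true → Appears T S a b c → LocIso T S.whl (devF T S.ops a b c)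

/-- job Emb -/
def StEmb : Prop := ∀ (V : Type) [Fintype V] (T : Tri V), MC T → Birk T → ∀ (S : Cfg) φ,
  Static S → LocIso T S.whl φ → Emb T S.whl φ

/-- job Loop: the contract creates no loop -/
def StLoop : Prop := ∀ (V : Type) [Fintype V] (T : Tri V), MC T → Birk T → ∀ (S : Cfg) φ,
  Static S → LocIso T S.whl φ → Emb T S.whl φ → ∀ a b, T.Adj a b →
  Relation.EqvGen (fun s t => ∃ e ∈ S.con, s = φ e.1 ∧ t = φ e.2) a b →
  ∃ e ∈ S.con, s(a, b) = s(φ e.1, φ e.2)

/-- job Pat: the image of a configuration is a patch -/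
def StPat : Prop := ∀ (V : Type) [Fintype V] (T : Tri V), MC T → ∀ (S : Cfg) φ,
  Static S → LocIso T S.whl φ → Emb T S.whl φ →
  ∃ P w, Patch T P (fun a b => ∃ x, Inn S.whl x ∧ (a = φ x ∨ b = φ x)) S.ring.length
    (fun p => φ (rg S.ring p)) w

/-- job Exc -/
def StExc : Prop := ∀ S : Cfg, derive S S.ord [] [] = true → Static S → Red S → Excl S

end Pool.Agent.FCT
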