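import Pool.Agent.Lib.MP_fe5cb4_co.FCT.Basic

/-!
A local isomorphism of a configuration of radius two is an embedding.
-/

set_option autoImplicit false

namespace Pool.Agent.FCT

section

variable {V : Type} [Fintype V] {T : Tri V} {S : Cfg} {φ : ℕ → V}

theorem emb_sym (hS : Static S) {a b : ℕ} (h : Nb S.whl a b) (hb : Inn S.whl b) :
    Nb S.whl b a := h.fc.elim fun c k => ((hS.sym a b c k).1 hb).1

theorem emb_l1 (M : MC T) (B : Birk T) (hS : Static S) (L : LocIso T S.whl φ) {w p q : ℕ}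
    (hp : Nb S.whl w p) (hq : Nb S.whl w q) (i : Inn S.whl p) (h : T.Adj (φ p) (φ q)) :
    Nb S.whl p q := by
  rcases L.fc_of M hS.nodup hp hq (B.b3 (L.adj M hp) h (L.adj M hq).symm) with k | k
  · exact ((hS.sym _ _ _ k).1 i).2
  · exact ((hS.sym _ _ _ k).2 i).2

theorem emb_02 (M : MC T) (B : Birk T) (hS : Static S) (L : LocIso T S.whl φ) {p y : ℕ}
    (hp : Nb S.whl 0 p) (hy : Nb S.whl p y) (h : T.Adj (φ 0) (φ y)) : Nb S.whl 0 y :=
  emb_l1 M B hS L (emb_sym hS hp hy.inn) hy hS.centre h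

theorem emb_12 (M : MC T) (B : Birk T) (hS : Static S) (L : LocIso T S.whl φ) {x q y : ℕ}
    (hx : Nb S.whl 0 x) (i : Inn S.whl x) (hq : Nb S.whl 0 q) (hy : Nb S.whl q y)
    (h : T.Adj (φ x) (φ y)) : Nb S.whl x y := by
  by_cases e : φ x = φ q
  · rwa [L.inj M hS.nodup hx hq e]
  by_cases e' : φ 0 = φ y
  · rw [← L.inj M hS.nodup (emb_sym hS hq hy.inn) hy e']
    exact emb_sym hS hx i
  rcases B.b4 (L.adj M hx) h (L.adj M hy).symm (L.adj M hq).symm e' e with k | k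
  · exact emb_l1 M B hS L hx (emb_02 M B hS L hq hy k) i h
  · exact emb_l1 M B hS L (emb_l1 M B hS L hq hx hy.inn k.symm) hy i h

theorem emb_22 (M : MC T) (B : Birk T) (hS : Static S) (L : LocIso T S.whl φ) {p x q y : ℕ}
    (hp : Nb S.whl 0 p) (hx : Nb S.whl p x) (i : Inn S.whl x) (hq : Nb S.whl 0 q)
    (hy : Nb S.whl q y) (j : Inn S.whl y) (h : T.Adj (φ x) (φ y)) : Nb S.whl x y := by
  have ap := L.adj M hp
  have aq := L.adj M hq
  have ax := L.adj M hx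
  have ay := L.adj M hy
  by_cases c1 : T.Adj (φ 0) (φ x)
  · exact emb_12 M B hS L (emb_02 M B hS L hp hx c1) i hq hy h
  by_cases c2 : T.Adj (φ 0) (φ y)
  · exact emb_sym hS (emb_12 M B hS L (emb_02 M B hS L hq hy c2) j hp hx h.symm) i
  by_cases c3 : T.Adj (φ p) (φ y)
  · exact emb_l1 M B hS L hx (emb_12 M B hS L hp hx.inn hq hy c3) i h
  by_cases c4 : T.Adj (φ x) (φ q)
  · exact emb_l1 M B hS L (emb_12 M B hS L hq hy.inn hp hx c4.symm) hy i h
  have n1 : φ 0 ≠ φ x := fun e => c2 (e ▸ h)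
  have n2 : φ 0 ≠ φ y := fun e => c1 (e ▸ h.symm)
  have n3 : φ p ≠ φ y := fun e => c2 (e ▸ ap)
  have n4 : φ p ≠ φ q := fun e => c3 (e ▸ ay)
  have n5 : φ x ≠ φ q := fun e => c1 (e ▸ aq)
  have c5 : ¬ T.Adj (φ p) (φ q) := fun k =>
    (B.b4 ax h ay.symm k.symm n3 n5).elim c3 c4
  obtain ⟨t, t0, tp, tx, ty, tq⟩ := B.b5 ap ax h ay.symm aq.symm n1 n2 n3 n4 n5 c1 c2 c3 c5 c4
  obtain ⟨a, ha, rfl⟩ := L.surj M hS.centre t0.symm
  by_cases ia : Inn S.whl a
  · exact emb_l1 M B hS L (emb_12 M B hS L ha ia hp hx tx) (emb_12 M B hS L ha ia hq hy ty) i h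
  have pa := emb_l1 M B hS L hp ha hx.inn tp.symm
  have qa := emb_l1 M B hS L hq ha hy.inn tq.symm
  refine absurd (List.Nodup.of_map φ ?_) (hS.arity a p q x y ha ia pa qa
    (emb_l1 M B hS L hx pa i tx.symm) (emb_l1 M B hS L hy qa j ty.symm))
  simp [ap.ne, aq.ne, n1, n2, n3, n4, n5.symm, ax.ne, ay.ne, h.ne]

theorem emb_ind (M : MC T) (B : Birk T) (hS : Static S) (L : LocIso T S.whl φ) (x y : ℕ)
    (i : Inn S.whl x) (j : Inn S.whl y) (h : T.Adj (φ x) (φ y)) : Nb S.whl x y := by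
  rcases hS.radius x i with rfl | hx | ⟨p, hp, hx⟩ <;>
    rcases hS.radius y j with rfl | hy | ⟨q, hq, hy⟩
  · exact absurd rfl h.ne
  · exact hy
  · exact emb_02 M B hS L hq hy h
  · exact emb_sym hS hx i
  · exact emb_l1 M B hS L hx hy i h
  · exact emb_12 M B hS L hx i hq hy h
  · exact emb_sym hS (emb_02 M B hS L hp hx h.symm) i
  · exact emb_sym hS (emb_12 M B hS L hy j hp hx h.symm) i
  · exact emb_22 M B hS L hp hx i hq hy j h

end

theorem emb_thm : StEmb := by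
  intro V _ T M B S φ hS L
  have h3 : ∀ w a y, Nb S.whl w a → Inn S.whl y → φ a = φ y → a = y := fun w a y h j e =>
    L.inj M hS.nodup h (emb_ind M B hS L w y h.inn j (e ▸ L.adj M h)) e
  refine ⟨fun x y i j e => ?_, emb_ind M B hS L, h3⟩
  rcases hS.radius x i with rfl | hx | ⟨p, -, hx⟩
  · rcases hS.radius y j with rfl | hy | ⟨q, -, hy⟩
    · rfl
    · exact (h3 _ _ _ hy i e.symm).symm
    · exact (h3 _ _ _ hy i e.symm).symm
  · exact h3 _ _ _ hx j e
  · exact h3 _ _ _ hx j e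

end Pool.Agent.FCT
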