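import Pool.Agent.Lib.MP_fe5cb4_co.FCT.Basic

/-!
The contract of a configuration creates no loop.
-/

set_option autoImplicit false

namespace Pool.Agent.FCT.Lp

open Relation

variable {V : Type} [Fintype V] {T : Tri V} {S : Cfg} {φ : ℕ → V}

/-- images of the edges of the contract -/
def XE (S : Cfg) (φ : ℕ → V) (a b : V) : Prop := ∃ e ∈ S.con, s(a, b) = s(φ e.1, φ e.2)

omit [Fintype V] in
theorem XE.symm {a b : V} (h : XE S φ a b) : XE S φ b a := by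
  obtain ⟨e, he, k⟩ := h
  exact ⟨e, he, Sym2.eq_swap.trans k⟩

theorem XE.adj (M : MC T) (hS : Static S) (L : LocIso T S.whl φ) {a b : V} (h : XE S φ a b) :
    T.Adj a b := by
  obtain ⟨e, he, k⟩ := h
  have := L.adj M (hS.con_nb e he)
  rcases Sym2.eq_iff.1 k with ⟨rfl, rfl⟩ | ⟨rfl, rfl⟩
  · exact this
  · exact this.symm

theorem con_lift (M : MC T) (hS : Static S) (L : LocIso T S.whl φ) (E : Emb T S.whl φ)
    {w p q : ℕ} (hw : Inn S.whl w) (hp : p = w ∨ Nb S.whl w p) (hq : q = w ∨ Nb S.whl w q)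
    (hpq : Inn S.whl p → Nb S.whl p q) (hqp : Inn S.whl q → Nb S.whl q p)
    (h : XE S φ (φ p) (φ q)) : Con S.con p q := by
  obtain ⟨e, he, k⟩ := h
  have nb := hS.con_nb e he
  have key : ∀ p q : ℕ, (p = w ∨ Nb S.whl w p) → (Inn S.whl p → Nb S.whl p q) → φ p = φ e.1 →
      φ q = φ e.2 → (p, q) ∈ S.con := by
    intro p q hp hpq e1 e2
    have h1 : p = e.1 := by
      rcases hp with rfl | hp
      · exact E.1 _ _ hw nb.inn e1
      · exact E.2.2 _ _ _ hp nb.inn e1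
    have h2 : q = e.2 := L.inj M hS.nodup (h1 ▸ hpq (h1 ▸ nb.inn)) nb e2
    rw [h1, h2]
    exact he
  rcases Sym2.eq_iff.1 k with ⟨e1, e2⟩ | ⟨e1, e2⟩
  · exact Or.inl (key p q hp hpq e1 e2)
  · exact Or.inr (key q p hq hqp e2 e1)

theorem face_con (M : MC T) (hS : Static S) (L : LocIso T S.whl φ) (E : Emb T S.whl φ)
    {w u v : ℕ} (f : Fc S.whl w u v) :
    (XE S φ (φ w) (φ u) → Con S.con w u) ∧ (XE S φ (φ w) (φ v) → Con S.con w v) ∧
      (XE S φ (φ u) (φ v) → Con S.con u v) := by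
  have nb := f.nb
  have sy := hS.sym _ _ _ f
  exact ⟨con_lift M hS L E nb.1.inn (Or.inl rfl) (Or.inr nb.1) (fun _ => nb.1) fun h => (sy.1 h).1,
    con_lift M hS L E nb.1.inn (Or.inl rfl) (Or.inr nb.2) (fun _ => nb.2) fun h => (sy.2 h).1,
    con_lift M hS L E nb.1.inn (Or.inr nb.1) (Or.inr nb.2) (fun h => (sy.1 h).2)
      fun h => (sy.2 h).2⟩

theorem sparse_at (M : MC T) (hS : Static S) (L : LocIso T S.whl φ) (E : Emb T S.whl φ)
    {w : ℕ} (hw : Inn S.whl w) {y z : V} (f : T.F (φ w) y z) :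
    ¬ (XE S φ (φ w) y ∧ XE S φ (φ w) z) ∧ ¬ (XE S φ (φ w) y ∧ XE S φ y z) := by
  obtain ⟨u, v, g | g, rfl, rfl⟩ := L.face M hw f
  · obtain ⟨c1, c2, c3⟩ := face_con M hS L E g
    obtain ⟨s1, s2, -⟩ := hS.sparse _ _ _ g
    exact ⟨fun h => s1 ⟨c1 h.1, c2 h.2⟩, fun h => s2 ⟨c1 h.1, c3 h.2⟩⟩
  · obtain ⟨c1, c2, c3⟩ := face_con M hS L E g
    obtain ⟨s1, -, s3⟩ := hS.sparse _ _ _ g
    exact ⟨fun h => s1 ⟨c1 h.2, c2 h.1⟩, fun h => s3 ⟨c2 h.1, c3 h.2.symm⟩⟩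

/-- two consecutive edges of the contract do not lie in a triangle -/
theorem sparse (M : MC T) (B : Birk T) (hS : Static S) (L : LocIso T S.whl φ)
    (E : Emb T S.whl φ) {a b c : V} (h1 : XE S φ a b) (h2 : XE S φ b c) : ¬ T.Adj a c := by
  intro h
  have f : T.F a b c := B.b3 (h1.adj M hS L) (h2.adj M hS L) h.symm
  obtain ⟨e, he, k⟩ := id h1
  have hw := (hS.con_nb e he).inn
  rcases Sym2.eq_iff.1 k with ⟨rfl, -⟩ | ⟨-, rfl⟩
  · exact (sparse_at M hS L E hw f).2 ⟨h1, h2⟩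
  · exact (sparse_at M hS L E hw (T.s12 f)).1 ⟨h1.symm, h2⟩

theorem sparse3 (M : MC T) (B : Birk T) (hS : Static S) (L : LocIso T S.whl φ)
    (E : Emb T S.whl φ) {a b c d : V} (h1 : XE S φ a b) (h2 : XE S φ b c) (h3 : XE S φ c d)
    (n1 : a ≠ c) (n2 : b ≠ d) : ¬ T.Adj a d := fun h =>
  (B.b4 (h1.adj M hS L) (h2.adj M hS L) (h3.adj M hS L) h.symm n1 n2).elim
    (sparse M B hS L E h1 h2) (sparse M B hS L E h2 h3)

/-- the common neighbour of a 5-cycle has no other neighbour -/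
theorem link5 (M : MC T) (B : Birk T) {a b c d e h : V} (h1 : T.Adj a b) (h2 : T.Adj b c)
    (h3 : T.Adj c d) (h4 : T.Adj d e) (h5 : T.Adj e a) (n1 : a ≠ c) (n2 : b ≠ d) (n3 : c ≠ e)
    (n4 : a ≠ d) (ha : T.Adj h a) (hb : T.Adj h b) (hc : T.Adj h c) (hd : T.Adj h d)
    (he : T.Adj h e) : T.deg h = 5 ∧ ∀ x, T.Adj h x → x = a ∨ x = b ∨ x = c ∨ x = d ∨ x = e := by
  have f1 := B.b3 ha h1 hb.symm
  have f2 := B.b3 hb h2 hc.symm
  have f3 := B.b3 hc h3 hd.symm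
  have f4 := B.b3 hd h4 he.symm
  have f5 := B.b3 he h5 ha.symm
  have r2 : T.rot h a b 2 = c := (T.eq_opp (T.s23 f1) f2 n1.symm).symm
  have r3 : T.rot h a b 3 = d := by
    rw [T.rot_two, r2]
    exact (T.eq_opp (T.s23 f2) f3 n2.symm).symm
  have r4 : T.rot h a b 4 = e := by
    rw [T.rot_two, r3, r2]
    exact (T.eq_opp (T.s23 f3) f4 n3.symm).symm
  have r5 : T.rot h a b 5 = T.rot h a b 0 := by
    rw [T.rot_two, r4, r3]
    exact (T.eq_opp (T.s23 f4) f5 n4).symm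
  have hdeg : T.deg h = 5 := by
    have := (M.rot_eq f1).1 r5
    rw [Nat.zero_mod] at this
    have h5 := B.deg5 h
    have := Nat.le_of_dvd (by omega) (Nat.dvd_of_mod_eq_zero this)
    omega
  refine ⟨hdeg, fun x hx => ?_⟩
  obtain ⟨k, hk, rfl⟩ := M.rot_surj f1 hx
  rw [hdeg] at hk
  interval_cases k
  · exact Or.inl rfl
  · exact Or.inr (Or.inl rfl)
  · exact Or.inr (Or.inr (Or.inl r2))
  · exact Or.inr (Or.inr (Or.inr (Or.inl r3)))
  · exact Or.inr (Or.inr (Or.inr (Or.inr r4)))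

theorem five (M : MC T) (B : Birk T) (hS : Static S) (L : LocIso T S.whl φ)
    (E : Emb T S.whl φ) {a b c d e : V} (h1 : XE S φ a b) (h2 : XE S φ b c) (h3 : XE S φ c d)
    (h4 : XE S φ d e) (n1 : a ≠ c) (n2 : a ≠ d) (n3 : b ≠ d) (n4 : b ≠ e) (n5 : c ≠ e)
    (len : S.con.length = 4)
    (all : ∀ u, End S.con u → φ u = a ∨ φ u = b ∨ φ u = c ∨ φ u = d ∨ φ u = e) : ¬ T.Adj a e := by
  intro h5
  have a1 := h1.adj M hS L
  have a2 := h2.adj M hS L
  have a3 := h3.adj M hS L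
  have a4 := h4.adj M hS L
  have m1 := sparse M B hS L E h1 h2
  have m2 := sparse3 M B hS L E h1 h2 h3 n1 n3
  have m3 := sparse M B hS L E h2 h3
  have m4 := sparse3 M B hS L E h2 h3 h4 n3 n5
  have m5 := sparse M B hS L E h3 h4
  obtain ⟨h, ha, hb, hc, hd, he⟩ := B.b5 a1 a2 a3 a4 h5.symm n1 n2 n3 n4 n5 m1 m2 m3 m4 m5
  obtain ⟨hdeg, hnb⟩ := link5 M B a1 a2 a3 a4 h5.symm n1 n3 n5 n2 ha hb hc hd he
  obtain ⟨q, hq, ⟨x, y, z, nd, hxyz⟩, h5'⟩ := hS.triad len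
  let v : Fin 5 → V := ![a, b, c, d, e]
  have ch : ∀ i j, T.Adj (v i) (v j) → j = i + 1 ∨ i = j + 1 := by
    intro i j k
    have k1 := k.ne
    have k2 := k.symm
    fin_cases i <;> fin_cases j <;> simp [v, m1, m2, m3, m4, m5] at k k1 k2 ⊢
  have ex : ∀ t, (t = a ∨ t = b ∨ t = c ∨ t = d ∨ t = e) → ∃ i, t = v i := by
    rintro t (k | k | k | k | k)
    exacts [⟨0, k⟩, ⟨1, k⟩, ⟨2, k⟩, ⟨3, k⟩, ⟨4, k⟩]
  have hv : ∀ i, T.Adj h (v i) := by
    intro i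
    fin_cases i <;> assumption
  have nb : ∀ u ∈ q.2, Nb S.whl q.1 u := fun u hu => ⟨q, hq, rfl, hu⟩
  obtain ⟨hx, ex'⟩ := hxyz x (by simp)
  obtain ⟨hy, ey'⟩ := hxyz y (by simp)
  obtain ⟨hz, ez'⟩ := hxyz z (by simp)
  obtain ⟨i, hi⟩ := ex _ (all x ex')
  obtain ⟨j, hj⟩ := ex _ (all y ey')
  obtain ⟨k, hk⟩ := ex _ (all z ez')
  simp only [List.nodup_cons, List.mem_cons, List.not_mem_nil, or_false, not_or] at nd
  have ne : ∀ s t, s ∈ q.2 → t ∈ q.2 → s ≠ t → φ s ≠ φ t := fun s t hs ht n k =>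
    n (L.inj M hS.nodup (nb s hs) (nb t ht) k)
  have nij : i ≠ j := fun k => ne x y hx hy nd.1.1 (by rw [hi, hj, k])
  have nik : i ≠ k := fun k => ne x z hx hz nd.1.2 (by rw [hi, hk, k])
  have njk : j ≠ k := fun k => ne y z hy hz nd.2.1 (by rw [hj, hk, k])
  have ti : T.Adj (φ q.1) (v i) := hi ▸ L.adj M (nb x hx)
  have tj : T.Adj (φ q.1) (v j) := hj ▸ L.adj M (nb y hy)
  have tk : T.Adj (φ q.1) (v k) := hk ▸ L.adj M (nb z hz)
  have off : ¬ T.Adj h (φ q.1) := by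
    intro k1
    obtain ⟨m, hm⟩ := ex _ (hnb _ k1)
    rw [hm] at ti tj tk
    have : ∀ m i j k : Fin 5, i ≠ j → i ≠ k → j ≠ k → (i = m + 1 ∨ m = i + 1) →
        (j = m + 1 ∨ m = j + 1) → ¬ (k = m + 1 ∨ m = k + 1) := by decide
    exact this m i j k nij nik njk (ch _ _ ti) (ch _ _ tj) (ch _ _ tk)
  by_cases th : φ q.1 = h
  · obtain ⟨u, hu, nu⟩ := h5' (by rw [← (L q hq).1, th, hdeg])
    have key : ∀ t t' : V, XE S φ t t' → T.Adj h t' → φ u ≠ t := by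
      rintro t t' ⟨g, hg, k1⟩ k2 rfl
      have gn := hS.con_nb g hg
      rcases Sym2.eq_iff.1 k1 with ⟨e1, -⟩ | ⟨e1, rfl⟩
      · exact nu ⟨g, hg, Or.inl (E.2.2 _ _ _ (nb u hu) gn.inn e1).symm⟩
      · rw [← th] at k2
        have n1 := E.2.1 _ _ (nb u hu).inn gn.inn k2
        have f : T.F (φ q.1) (φ g.1) (φ u) :=
          B.b3 k2 (e1 ▸ L.adj M gn) (L.adj M (nb u hu)).symm
        have n2 : Nb S.whl g.1 u := (L.fc_of M hS.nodup n1 (nb u hu) f).elim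
          (fun k => ((hS.sym _ _ _ k).1 gn.inn).2) fun k => ((hS.sym _ _ _ k).2 gn.inn).2
        exact nu ⟨g, hg, Or.inr (L.inj M hS.nodup gn n2 e1.symm)⟩
    rcases hnb _ (th ▸ L.adj M (nb u hu)) with k | k | k | k | k
    · exact key _ _ h1 hb k
    · exact key _ _ h2 hc k
    · exact key _ _ h3 hd k
    · exact key _ _ h4 he k
    · exact key _ _ h4.symm hd k
  · have pair : ∀ s t : Fin 5, s ≠ t → T.Adj (φ q.1) (v s) → T.Adj (φ q.1) (v t) → v s ≠ v t →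
        t = s + 1 ∨ s = t + 1 := fun s t _ hs ht n =>
      (B.b4 hs (hv s).symm (hv t) ht.symm th n).elim (fun k => absurd k.symm off) (ch s t)
    have : ∀ i j k : Fin 5, (j = i + 1 ∨ i = j + 1) → (k = i + 1 ∨ i = k + 1) →
        ¬ (k = j + 1 ∨ j = k + 1) := by decide
    exact this i j k (pair _ _ nij ti tj (hi ▸ hj ▸ ne x y hx hy nd.1.1))
      (pair _ _ nik ti tk (hi ▸ hk ▸ ne x z hx hz nd.1.2))
      (pair _ _ njk tj tk (hj ▸ hk ▸ ne y z hy hz nd.2.1))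

end Pool.Agent.FCT.Lp

namespace Pool.Agent.FCT

open Lp

theorem loop_thm : StLoop := by
  intro V _ T M B S φ hS L E a b hab h
  classical
  let G : SimpleGraph V := SimpleGraph.fromRel (XE S φ)
  have gx : ∀ {s t}, G.Adj s t → XE S φ s t := fun k =>
    ((SimpleGraph.fromRel_adj _ _ _).1 k).2.elim id XE.symm
  have re : G.Reachable a b := by
    clear hab
    induction h with
    | rel s t k =>
      obtain ⟨e, he, rfl, rfl⟩ := k
      exact SimpleGraph.Adj.reachable ((SimpleGraph.fromRel_adj _ _ _).2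
        ⟨(L.adj M (hS.con_nb e he)).ne, Or.inl ⟨e, he, rfl⟩⟩)
    | refl => exact .refl _
    | symm _ _ _ ih => exact ih.symm
    | trans _ _ _ _ _ i1 i2 => exact i1.trans i2
  obtain ⟨p, hp⟩ := re.exists_isPath
  have sub : p.edges ⊆ S.con.map fun e => s(φ e.1, φ e.2) := by
    intro e he
    have := p.edges_subset_edgeSet he
    induction e using Sym2.ind with
    | _ s t =>
      obtain ⟨g, hg, k⟩ := gx this
      exact List.mem_map.2 ⟨g, hg, k.symm⟩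
  have sp := hp.isTrail.edges_nodup.subperm sub
  have len := sp.length_le
  rw [List.length_map, SimpleGraph.Walk.length_edges] at len
  have l4 := hS.con_le
  have nd := hp.support_nodup
  rcases p with _ | ⟨h1, _ | ⟨h2, _ | ⟨h3, _ | ⟨h4, _ | ⟨h5, p⟩⟩⟩⟩⟩
  · exact absurd rfl hab.ne
  · exact gx h1
  · exact absurd hab (sparse M B hS L E (gx h1) (gx h2))
  · simp at nd
    exact absurd hab (sparse3 M B hS L E (gx h1) (gx h2) (gx h3) nd.1.2.1 nd.2.1.2)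
  · have l4' : S.con.length = 4 := le_antisymm l4 (by simpa using len)
    have pm := sp.perm_of_length_le (by simp [l4'])
    simp at nd
    refine absurd hab (five M B hS L E (gx h1) (gx h2) (gx h3) (gx h4) nd.1.2.1 nd.1.2.2.1
      nd.2.1.2.1 nd.2.1.2.2 nd.2.2.1.2 l4' ?_)
    rintro u ⟨g, hg, k⟩
    have := pm.symm.subset (List.mem_map.2 ⟨g, hg, rfl⟩)
    simp only [SimpleGraph.Walk.edges_cons, SimpleGraph.Walk.edges_nil, List.mem_cons,
      List.not_mem_nil, or_false, Sym2.eq_iff] at this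
    rcases k with rfl | rfl <;> tauto
  · simp at len
    omega

end Pool.Agent.FCT
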