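import Pool.Agent.Lib.MP_fe5cb4_co.FCT.Var
import Pool.Agent.Lib.MP_fe5cb4_co.FCT.Emb
import Pool.Agent.Lib.MP_fe5cb4_co.FCT.Loop
import Pool.Agent.Lib.MP_fe5cb4_co.FCT.Dis.Defs

/-!
A quiz is a number that codes a developing program with required degrees. A quiz that describes
the interior of a reducible configuration has no solution in a minimal counterexample.
-/

set_option autoImplicit false

namespace Pool.Agent.FCT

open Dis

/-- The number of operations of the quiz. -/
def qlen (q : ℕ) : ℕ := fld q 12 5 0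

/-- The operation number `k` of the quiz. -/
def qop (q k : ℕ) : ℕ × ℕ × ℕ :=
  (fld (fld q 17 19 k) 0 5 0, fld (fld q 17 19 k) 0 5 1, fld (fld q 17 19 k) 0 5 2)

/-- The required degree of the register `i`; `0` means none. -/
def qdeg (q i : ℕ) : ℕ :=
  bif Nat.blt i 3 then fld q 0 4 i else fld (fld q 17 19 (Nat.sub i 3)) 15 4 0

/-- The quiz has no solution in a minimal counterexample. -/
def QEx (q : ℕ) : Prop := ∀ (V : Type) [Fintype V] (T : Tri V), MC T → Birk T → XQ T q

/-- The developing program that starts with the quiz. -/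
def qcfg (q : ℕ) (ext : List (ℕ × ℕ × ℕ)) (whl : List (ℕ × List ℕ)) (ord : List ℕ) : Cfg :=
  ⟨(List.range (qlen q)).map (qop q) ++ ext, whl, ord, [], []⟩

/-- The operations of the quiz read earlier registers, and the quiz fixes the degrees of `whl`. -/
def fitB (q : ℕ) (whl : List (ℕ × List ℕ)) : Bool :=
  (allL (List.range (qlen q)) fun k => Nat.blt (qop q k).1 (Nat.add 3 k) &&
    Nat.blt (qop q k).2.1 (Nat.add 3 k) && Nat.blt (qop q k).2.2 (Nat.add 3 k)) &&
  allL whl fun p => Nat.blt p.1 (Nat.add 3 (qlen q)) && Nat.blt 0 p.2.length &&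
    (qdeg q p.1).beq p.2.length

theorem qex_of_excl {q : ℕ} {ext : List (ℕ × ℕ × ℕ)} {whl : List (ℕ × List ℕ)} {ord : List ℕ}
    (h : fitB q whl = true) (hE : Excl (qcfg q ext whl ord)) : QEx q := by
  intro V _ T M B φ h0 hd0 hop hd1
  simp only [fitB, Bool.and_eq_true, allL_iff, List.mem_range, Nat.blt_eq, Nat.beq_eq,
    Nat.add_eq] at h
  have hdeg : ∀ i < 3 + qlen q, qdeg q i ≠ 0 → T.deg (φ i) = qdeg q i := by
    intro i hi
    rcases Nat.lt_or_ge i 3 with h3 | h3
    · rw [qdeg, Nat.blt_eq.mpr h3, cond_true]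
      exact hd0 i h3
    · obtain ⟨k, rfl⟩ := Nat.exists_eq_add_of_le h3
      have e : Nat.blt (3 + k) 3 = false := by
        rw [← Bool.not_eq_true, Nat.blt_eq]
        omega
      rw [qdeg, e, cond_false, Nat.sub_eq, Nat.add_sub_cancel_left]
      exact hd1 k (by change k < qlen q; omega)
  have key : ∀ i < 3 + qlen q,
      devF T (qcfg q ext whl ord).ops (φ 0) (φ 1) (φ 2) i = φ i := by
    intro i
    induction i using Nat.strong_induction_on with
    | _ i ih =>
      intro hi
      rcases Nat.lt_or_ge i 3 with h3 | h3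
      · obtain rfl | rfl | rfl : i = 0 ∨ i = 1 ∨ i = 2 := by omega
        · exact devF_zero ..
        · exact devF_one ..
        · exact devF_two ..
      · obtain ⟨k, rfl⟩ := Nat.exists_eq_add_of_le h3
        have hk : k < qlen q := by omega
        obtain ⟨⟨h1, h2⟩, h4⟩ := h.1 k hk
        have e : (qcfg q ext whl ord).ops[k]? = some (qop q k) := by
          simp [qcfg, List.getElem?_append_left, hk]
        rw [devF_op T _ _ _ _ k _ e h1 h2 h4, ih _ h1 (by omega), ih _ h2 (by omega),
          ih _ h4 (by omega), hop k hk h1 h2 h4]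
        rfl
  refine hE V T M B (φ 0) (φ 1) (φ 2) ⟨h0, fun p hp => ?_⟩
  obtain ⟨⟨h1, h2⟩, h3⟩ := h.2 p hp
  rw [key _ h1, hdeg _ h1 (by omega), h3]

/-- All tests for one quiz of the configuration `S`. -/
def quizB (S : Cfg) (q : ℕ) (ext : List (ℕ × ℕ × ℕ)) (whl : List (ℕ × List ℕ)) (ord R : List ℕ) :
    Bool :=
  fitB q whl && (derive (qcfg q ext whl ord) ord [] [] && varB S (qcfg q ext whl ord) R)

theorem quiz_ok {S : Cfg} (hS : staticB S = true) (hR : Red S) (q : ℕ) (ext : List (ℕ × ℕ × ℕ))
    (whl : List (ℕ × List ℕ)) (ord R : List ℕ) (h : quizB S q ext whl ord R = true) : QEx q := by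
  rw [quizB, Bool.and_eq_true] at h
  exact qex_of_excl h.1 (excl_var emb_thm loop_thm S (qcfg q ext whl ord) R hS hR h.2)

/-- All quizzes of the list have no solution. -/
def AllQ (l : List ℕ) : Prop := ∀ q ∈ l, QEx q

theorem AllQ.nil : AllQ [] := fun _ h => nomatch h

theorem AllQ.cons {q : ℕ} {l : List ℕ} (h : QEx q) (t : AllQ l) : AllQ (q :: l) :=
  List.forall_mem_cons.2 ⟨h, t⟩

/-- The entries `k, k + 1, …` of the table are the entries of the list. -/
noncomputable def linkB (t : Tr) (l : List ℕ) : ℕ → Bool :=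
  List.rec (motive := fun _ => ℕ → Bool) (fun _ => true)
    (fun x _ ih k => (t.get k).beq x && ih (Nat.succ k)) l

/-- The quizzes `k ≤ j < n` of the table have no solution. -/
def TabQ (t : Tr) (k n : ℕ) : Prop := ∀ j, k ≤ j → j < n → QEx (t.get j)

theorem tabQ_of_link {t : Tr} {l : List ℕ} (h : AllQ l) (k n : ℕ)
    (e : (linkB t l k && Nat.ble n (Nat.add k l.length)) = true) : TabQ t k n := by
  induction l generalizing k with
  | nil =>
    intro j h1 h2
    simp only [Bool.and_eq_true, Nat.ble_eq, Nat.add_eq, List.length_nil] at e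
    omega
  | cons x l ih =>
    intro j h1 h2
    rw [Bool.and_eq_true] at e
    obtain ⟨e1, e2⟩ := e
    change ((t.get k).beq x && linkB t l (k + 1)) = true at e1
    rw [Bool.and_eq_true, Nat.beq_eq] at e1
    rw [Nat.ble_eq, Nat.add_eq, List.length_cons] at e2
    rcases Nat.eq_or_lt_of_le h1 with rfl | h3
    · rw [e1.1]
      exact h x List.mem_cons_self
    · refine ih (fun q hq => h q (List.mem_cons_of_mem _ hq)) (k + 1) ?_ j h3 h2
      rw [Bool.and_eq_true, Nat.ble_eq, Nat.add_eq]
      exact ⟨e1.2, by omega⟩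

theorem TabQ.trans {t : Tr} {k m n : ℕ} (h : TabQ t k m) (h' : TabQ t m n) : TabQ t k n :=
  fun j h1 h2 => (Nat.lt_or_ge j m).elim (h j h1) fun h3 => h' j h3 h2

end Pool.Agent.FCT
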