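import Pool.Agent.Lib.MP_fe5cb4_co.FCT.Defs

/-!
Basic facts on faces, rotations and local isomorphisms.
-/

set_option autoImplicit false

namespace Pool.Agent.FCT

variable {V : Type} {T : Tri V} {a b c d x y : V}

theorem Tri.cyc (h : T.F a b c) : T.F b c a := T.s23 (T.s12 h)

theorem Tri.s13 (h : T.F a b c) : T.F c b a := T.s12 (T.cyc h)

theorem Tri.ne13 (h : T.F a b c) : a ≠ c := T.ne (T.s23 h)

theorem Tri.ne23 (h : T.F a b c) : b ≠ c := T.ne (T.cyc h)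

theorem Tri.adj12 (h : T.F a b c) : T.Adj a b := ⟨c, h⟩

theorem Tri.adj13 (h : T.F a b c) : T.Adj a c := ⟨b, T.s23 h⟩

theorem Tri.adj23 (h : T.F a b c) : T.Adj b c := ⟨a, T.cyc h⟩

theorem Tri.Adj.symm (h : T.Adj a b) : T.Adj b a := h.imp fun _ => T.s12

theorem Tri.Adj.ne (h : T.Adj a b) : a ≠ b := h.elim fun _ => T.ne

theorem Tri.eq_opp (h : T.F a b c) (h' : T.F a b d) (n : d ≠ c) : d = T.opp a b c :=
  (T.two h h').resolve_left n

theorem Tri.opp_comm (h : T.F a b c) : T.opp b a c = T.opp a b c :=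
  T.eq_opp h (T.s12 (T.opp_F (T.s12 h))) (T.opp_ne (T.s12 h))

theorem Tri.opp_opp (h : T.F a b c) : T.opp a b (T.opp a b c) = c :=
  (T.eq_opp (T.opp_F h) h (T.opp_ne h).symm).symm

theorem Tri.rot_two (T : Tri V) (a b c : V) (k : ℕ) :
    T.rot a b c (k + 2) = T.opp a (T.rot a b c (k + 1)) (T.rot a b c k) := rfl

theorem Tri.rot_F (h : T.F a b c) (k : ℕ) : T.F a (T.rot a b c k) (T.rot a b c (k + 1)) := by
  induction k with
  | zero => exact h
  | succ k ih => exact T.opp_F (T.s23 ih)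

theorem Tri.rot_adj (h : T.F a b c) (k : ℕ) : T.Adj a (T.rot a b c k) := T.adj12 (T.rot_F h k)

theorem Tri.rot_back (h : T.F a b c) (k : ℕ) :
    T.opp a (T.rot a b c (k + 1)) (T.rot a b c (k + 2)) = T.rot a b c k :=
  T.opp_opp (T.s23 (T.rot_F h k))

theorem Tri.rot_shift (T : Tri V) (a b c : V) (j k : ℕ) :
    T.rot a (T.rot a b c j) (T.rot a b c (j + 1)) k = T.rot a b c (j + k) := by
  induction k using Nat.twoStepInduction with
  | zero => rfl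
  | one => rfl
  | more k h0 h1 => rw [T.rot_two, h0, h1]; rfl

/-- A sequence that turns about `a` is a rotation. -/
theorem Tri.eq_rot (T : Tri V) (a : V) (f : ℕ → V) (n : ℕ)
    (h : ∀ k, k + 2 < n → f (k + 2) = T.opp a (f (k + 1)) (f k)) (k : ℕ) (hk : k < n) :
    f k = T.rot a (f 0) (f 1) k := by
  induction k using Nat.twoStepInduction with
  | zero => rfl
  | one => rfl
  | more k h0 h1 => rw [T.rot_two, ← h0 (by omega), ← h1 (by omega), h k hk]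

variable [Fintype V]

theorem MC.deg_pos (M : MC T) (a : V) : 0 < T.deg a := by
  obtain ⟨b, c, h⟩ := M.flag a
  obtain ⟨k, hk, -⟩ := M.rot_surj h (T.adj12 h)
  omega

theorem MC.rot_mod (M : MC T) (h : T.F a b c) (k : ℕ) :
    T.rot a b c (k % T.deg a) = T.rot a b c k := by
  conv_rhs => rw [← Nat.mod_add_div k (T.deg a)]
  induction k / T.deg a with
  | zero => rfl
  | succ n ih => rw [Nat.mul_succ, ← Nat.add_assoc, M.rot_per h, ih]

theorem MC.rot_eq (M : MC T) (h : T.F a b c) {i j : ℕ} :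
    T.rot a b c i = T.rot a b c j ↔ i % T.deg a = j % T.deg a :=
  ⟨fun e => M.rot_inj h _ (Nat.mod_lt _ (M.deg_pos a)) _ (Nat.mod_lt _ (M.deg_pos a))
    (by rw [M.rot_mod h, M.rot_mod h, e]), fun e => by rw [← M.rot_mod h, e, M.rot_mod h]⟩

/-- Every face at `a` is a step of the rotation. -/
theorem MC.face_rot (M : MC T) (h : T.F a b c) (h' : T.F a x y) : ∃ k < T.deg a,
    (T.rot a b c k = x ∧ T.rot a b c (k + 1) = y) ∨
      (T.rot a b c k = y ∧ T.rot a b c (k + 1) = x) := by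
  obtain ⟨k, hk, rfl⟩ := M.rot_surj h (T.adj12 h')
  rcases T.two (T.rot_F h k) h' with e | e
  · exact ⟨k, hk, Or.inl ⟨rfl, e.symm⟩⟩
  · have p := M.deg_pos a
    have e1 : T.rot a b c (k + T.deg a - 1 + 1) = T.rot a b c k := by
      rw [Nat.sub_add_cancel (by omega), M.rot_per h]
    have e2 : T.rot a b c (k + T.deg a - 1 + 2) = T.rot a b c (k + 1) := by
      rw [← M.rot_per h (k + 1)]
      congr 1
      omega
    have e3 := T.rot_back h (k + T.deg a - 1)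
    rw [e1, e2, ← e] at e3
    refine ⟨(k + T.deg a - 1) % T.deg a, Nat.mod_lt _ p, Or.inr ⟨?_, ?_⟩⟩
    · rw [M.rot_mod h, e3]
    · rw [← e1, M.rot_eq h, Nat.mod_add_mod]

variable {W : List (ℕ × List ℕ)} {φ : ℕ → V}

theorem getD_mem {l : List ℕ} {k : ℕ} (h : k < l.length) : l.getD k 0 ∈ l := by
  rw [List.getD_eq_getElem _ _ h]
  exact List.getElem_mem h

theorem mem_getD {l : List ℕ} {u : ℕ} (h : u ∈ l) : ∃ k < l.length, l.getD k 0 = u := by
  obtain ⟨k, hk, e⟩ := List.getElem_of_mem h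
  exact ⟨k, hk, by rw [List.getD_eq_getElem _ _ hk, e]⟩

theorem whl_unique (hn : (W.map Prod.fst).Nodup) {q q' : ℕ × List ℕ} (h : q ∈ W) (h' : q' ∈ W)
    (e : q.1 = q'.1) : q = q' := List.inj_on_of_nodup_map hn h h' e

theorem Nb.inn {w u : ℕ} (h : Nb W w u) : Inn W w := h.imp fun _ k => ⟨k.1, k.2.1⟩

theorem Fc.nb {w u v : ℕ} (h : Fc W w u v) : Nb W w u ∧ Nb W w v := by
  obtain ⟨q, hq, e, k, hk, rfl, rfl⟩ := h
  exact ⟨⟨q, hq, e, getD_mem hk⟩, q, hq, e, getD_mem (Nat.mod_lt _ (by omega))⟩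

theorem Nb.fc {w u : ℕ} (h : Nb W w u) : ∃ v, Fc W w u v := by
  obtain ⟨q, hq, e, hu⟩ := h
  obtain ⟨k, hk, rfl⟩ := mem_getD hu
  exact ⟨_, q, hq, e, k, hk, rfl, rfl⟩

theorem LocIso.fc (M : MC T) (L : LocIso T W φ) {w u v : ℕ} (h : Fc W w u v) :
    T.F (φ w) (φ u) (φ v) := by
  obtain ⟨q, hq, rfl, k, hk, rfl, rfl⟩ := h
  obtain ⟨hd, hf, hr⟩ := L q hq
  rw [hr k hk, hr _ (Nat.mod_lt _ (by omega)), ← hd, M.rot_mod hf]
  exact T.rot_F hf k

theorem LocIso.adj (M : MC T) (L : LocIso T W φ) {w u : ℕ} (h : Nb W w u) :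
    T.Adj (φ w) (φ u) := h.fc.elim fun _ k => T.adj12 (L.fc M k)

theorem LocIso.inj (M : MC T) (L : LocIso T W φ) (hn : (W.map Prod.fst).Nodup) {w u v : ℕ}
    (h : Nb W w u) (h' : Nb W w v) (e : φ u = φ v) : u = v := by
  obtain ⟨q, hq, rfl, hu⟩ := h
  obtain ⟨q', hq', e', hv⟩ := h'
  obtain rfl := whl_unique hn hq' hq e'
  obtain ⟨i, hi, rfl⟩ := mem_getD hu
  obtain ⟨j, hj, rfl⟩ := mem_getD hv
  obtain ⟨hd, hf, hr⟩ := L q' hq
  rw [hr i hi, hr j hj] at e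
  rw [M.rot_inj hf i (hd ▸ hi) j (hd ▸ hj) e]

theorem LocIso.surj (M : MC T) (L : LocIso T W φ) {w : ℕ} (h : Inn W w) (ha : T.Adj (φ w) x) :
    ∃ u, Nb W w u ∧ x = φ u := by
  obtain ⟨q, hq, rfl⟩ := h
  obtain ⟨hd, hf, hr⟩ := L q hq
  obtain ⟨k, hk, rfl⟩ := M.rot_surj hf ha
  exact ⟨_, ⟨q, hq, rfl, getD_mem (hd ▸ hk)⟩, (hr k (hd ▸ hk)).symm⟩

theorem LocIso.face (M : MC T) (L : LocIso T W φ) {w : ℕ} (h : Inn W w) (hF : T.F (φ w) x y) :
    ∃ u v, (Fc W w u v ∨ Fc W w v u) ∧ x = φ u ∧ y = φ v := by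
  obtain ⟨q, hq, rfl⟩ := h
  obtain ⟨hd, hf, hr⟩ := L q hq
  obtain ⟨k, hk, e⟩ := M.face_rot hf hF
  have hk' : k < q.2.length := hd ▸ hk
  have e1 := hr k hk'
  have e2 := hr _ (Nat.mod_lt (k + 1) (by omega : q.2.length > 0))
  rw [← hd, M.rot_mod hf, hd] at e2
  have f : Fc W q.1 (q.2.getD k 0) (q.2.getD ((k + 1) % q.2.length) 0) :=
    ⟨q, hq, rfl, k, hk', rfl, rfl⟩
  rcases e with ⟨rfl, rfl⟩ | ⟨rfl, rfl⟩
  · exact ⟨_, _, Or.inl f, e1.symm, e2.symm⟩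
  · exact ⟨_, _, Or.inr f, e2.symm, e1.symm⟩

/-- Neighbours of an interior vertex whose images form a face with it are consecutive. -/
theorem LocIso.fc_of (M : MC T) (L : LocIso T W φ) (hn : (W.map Prod.fst).Nodup) {w u v : ℕ}
    (h : Nb W w u) (h' : Nb W w v) (hF : T.F (φ w) (φ u) (φ v)) : Fc W w u v ∨ Fc W w v u := by
  obtain ⟨u', v', f, e, e'⟩ := L.face M h.inn hF
  have n : Nb W w u' ∧ Nb W w v' := f.elim Fc.nb fun k => k.nb.symm
  rwa [L.inj M hn h n.1 e, L.inj M hn h' n.2 e']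

end Pool.Agent.FCT
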