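import Pool.Agent.Lib.MP_fe5cb4_co.FCT.Basic

/-!
The ring words of the colourings outside a patch form a consistent set.
-/

set_option autoImplicit false

namespace Pool.Agent.FCT

open Relation

/-- Two involutions, the first without fixed points: the fixed points of the second are paired by
the orbits. -/
theorem kem_pair {Ω : Type} [Finite Ω] (α β : Ω → Ω) (hα : ∀ x, α (α x) = x)
    (hβ : ∀ x, β (β x) = x) (hn : ∀ x, α x ≠ x) (x : Ω) (hx : β x = x) :
    ∃ y, y ≠ x ∧ β y = y ∧ ReflTransGen (fun s t => t = α s ∨ t = β s) x y ∧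
      ∀ z, ReflTransGen (fun s t => t = α s ∨ t = β s) x z → β z = z → z = x ∨ z = y := by
  let a : Equiv.Perm Ω := Function.Involutive.toPerm α hα
  let b : Equiv.Perm Ω := Function.Involutive.toPerm β hβ
  let g : Equiv.Perm Ω := a * b
  have hb : ∀ k : ℤ, β ((g ^ k) • x) = (g ^ (-k)) • x := fun k => by
    have e : b * g * b⁻¹ = g⁻¹ := by
      ext z
      change β (α (β (β z))) = β (α z)
      rw [hβ]
    have e2 : b * g ^ k = g ^ (-k) * b := by
      rw [zpow_neg, ← inv_zpow, ← e, conj_zpow, inv_mul_cancel_right]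
    have := congrArg (fun f : Equiv.Perm Ω => f x) e2
    change β ((g ^ k) x) = (g ^ (-k)) (β x) at this
    rwa [hx] at this
  have ha : ∀ k : ℤ, α ((g ^ k) • x) = (g ^ (1 - k)) • x := fun k => by
    rw [sub_eq_add_neg, zpow_add, zpow_one, mul_smul, ← hb]
    change _ = α (β (β _))
    rw [hβ]
  have hq : ∀ k l : ℤ, (g ^ k) • x = (g ^ l) • x ↔ (MulAction.period g x : ℤ) ∣ k - l := fun k l => by
    rw [← MulAction.zpow_smul_eq_iff_period_dvd, sub_eq_neg_add, zpow_add, mul_smul, zpow_neg,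
      inv_smul_eq_iff]
  have hp : 0 < MulAction.period g x := MulAction.period_pos_of_orderOf_pos (orderOf_pos g) x
  obtain ⟨m, hm | hm⟩ := Nat.even_or_odd' (MulAction.period g x)
  · rw [hm] at hq hp
    have h0 : (g ^ (0 : ℤ)) • x = x := by rw [zpow_zero, one_smul]
    refine ⟨(g ^ (m : ℤ)) • x, fun e => ?_, ?_, ?_, fun z hz hz' => ?_⟩
    · have := Int.le_of_dvd (by omega) ((hq m 0).1 (e.trans h0.symm))
      omega
    · rw [hb, hq]
      exact ⟨-1, by push_cast; ring⟩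
    · clear hm hq hp
      induction m with
      | zero => rw [Nat.cast_zero, h0]
      | succ m ih =>
        refine (ih.tail (Or.inr rfl)).tail (Or.inl ?_)
        rw [hb, ha]
        congr 2
        push_cast
        ring
    · have : ∃ k : ℤ, z = (g ^ k) • x := by
        clear hz'
        induction hz with
        | refl => exact ⟨0, h0.symm⟩
        | tail _ h ih =>
          obtain ⟨k, rfl⟩ := ih
          rcases h with rfl | rfl
          exacts [⟨_, ha k⟩, ⟨_, hb k⟩]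
      obtain ⟨k, rfl⟩ := this
      rw [hb, hq] at hz'
      obtain ⟨j, hj⟩ := hz'
      have hk : k = -j * m := by
        push_cast at hj
        linarith
      obtain ⟨i, rfl | rfl⟩ := Int.even_or_odd' j
      · exact Or.inl (((hq k 0).2 ⟨-i, by rw [hk]; push_cast; ring⟩).trans h0)
      · exact Or.inr ((hq k m).2 ⟨-i - 1, by rw [hk]; push_cast; ring⟩)
  · refine absurd ?_ (hn ((g ^ ((m : ℤ) + 1)) • x))
    rw [ha, hq, hm]
    exact ⟨-1, by push_cast; ring⟩

open Classical in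
/-- The indicator of a proposition. -/
noncomputable def io (p : Prop) : ZMod 2 := if p then 1 else 0

theorem io_pos {p : Prop} (h : p) : io p = 1 := if_pos h

theorem io_neg {p : Prop} (h : ¬ p) : io p = 0 := if_neg h

theorem io_congr {p q : Prop} (h : p ↔ q) : io p = io q := by rw [propext h]

theorem io_or {p q : Prop} (h : ¬ (p ∧ q)) : io (p ∨ q) = io p + io q := by
  by_cases hp : p <;> by_cases hq : q <;> simp_all [io]

theorem z2_add_self (a : ZMod 2) : a + a = 0 := by revert a; decide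

variable {V : Type} {T : Tri V}

/-- The indicator of a flag up to the order of the first two vertices. -/
noncomputable def kh (u : V × V × V) (a b c : V) : ZMod 2 := io ((a, b, c) = u) + io ((b, a, c) = u)

/-- The indicator of a face. -/
noncomputable def ki (u : V × V × V) (a b c : V) : ZMod 2 := kh u a b c + kh u b c a + kh u c a b

theorem ki_12 (p q s a b c : V) : ki (q, p, s) a b c = ki (p, q, s) a b c := by
  have e : ∀ a b c : V, io ((a, b, c) = (q, p, s)) = io ((b, a, c) = (p, q, s)) := fun a b c =>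
    io_congr (by simp only [Prod.mk.injEq]; tauto)
  simp only [ki, kh, e]
  ring

theorem ki_23 (p q s a b c : V) : ki (p, s, q) a b c = ki (p, q, s) a b c := by
  have e : ∀ a b c : V, io ((a, b, c) = (p, s, q)) = io ((a, c, b) = (p, q, s)) := fun a b c =>
    io_congr (by simp only [Prod.mk.injEq]; tauto)
  simp only [ki, kh, e]
  ring

theorem kem_edge {p q s a b c : V} (h : T.F p q s) (h' : T.F a b c) :
    io ((a, b) = (p, q)) = io ((a, b, c) = (p, q, s)) + io ((a, b, c) = (p, q, T.opp p q s)) := by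
  rw [← io_or]
  · refine io_congr ⟨fun e => ?_, fun e => ?_⟩
    · obtain ⟨rfl, rfl⟩ := Prod.mk.inj e
      exact (T.two h h').imp (fun e => by rw [e]) fun e => by rw [e]
    · simp only [Prod.mk.injEq] at e ⊢
      tauto
  · rintro ⟨e, e'⟩
    simp only [Prod.mk.injEq] at e e'
    exact T.opp_ne h (e'.2.2.symm.trans e.2.2)

/-- A dual path through inner edges. -/
theorem kem_path {J : V → V → Prop} (hJ : ∀ {a b}, J a b → J b a) {u v : V × V × V}
    (hu : T.F u.1 u.2.1 u.2.2) (h : ReflTransGen (Step T J) u v) : T.F v.1 v.2.1 v.2.2 ∧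
    ∃ Q : V → V → ZMod 2, (∀ a b, Q a b = Q b a) ∧ (∀ a b, ¬ J a b → Q a b = 0) ∧
      ∀ a b c, T.F a b c → Q a b + Q b c + Q c a = ki u a b c + ki v a b c := by
  induction h with
  | refl => exact ⟨hu, fun _ _ => 0, fun _ _ => rfl, fun _ _ _ => rfl, fun a b c _ =>
      (z2_add_self _).symm⟩
  | @tail s t _ h ih =>
    obtain ⟨p, q, s⟩ := s
    obtain ⟨hf, Q, h1, h2, h3⟩ := ih
    rcases h with rfl | rfl | ⟨hj, rfl⟩
    · exact ⟨T.s12 hf, Q, h1, h2, fun a b c k => by rw [h3 a b c k, ← ki_12 p q s]⟩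
    · exact ⟨T.s23 hf, Q, h1, h2, fun a b c k => by rw [h3 a b c k, ← ki_23 p q s]⟩
    · refine ⟨T.opp_F hf, fun a b => Q a b + (io ((a, b) = (p, q)) + io ((b, a) = (p, q))),
        fun a b => by dsimp only; rw [h1 a b, add_comm (io _)], fun a b k => ?_, fun a b c k => ?_⟩
      · dsimp only
        rw [h2 a b k, io_neg, io_neg]
        · rfl
        · rintro ⟨⟩
          exact k (hJ hj)
        · rintro ⟨⟩
          exact k hj
      · have := h3 a b c k
        have z := z2_add_self (ki (p, q, s) a b c)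
        simp only [ki, kh] at this z ⊢
        rw [kem_edge hf k, kem_edge hf (T.s12 k), kem_edge hf (T.cyc k), kem_edge hf (T.s13 k),
          kem_edge hf (T.cyc (T.cyc k)), kem_edge hf (T.s23 k)]
        linear_combination this + z

set_option synthInstance.maxSize 4000 in
theorem kem_six (x y z : Bool) {e1 e2 e3 e4 e5 e6 : Prop}
    (h1 : e1 → x = false ∧ y = true ∧ (z = true → e6) ∧ (z = false → e4))
    (h2 : e2 → y = false ∧ x = true ∧ (z = true → e3) ∧ (z = false → e5))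
    (h3 : e3 → y = false ∧ z = true ∧ (x = true → e2) ∧ (x = false → e6))
    (h4 : e4 → z = false ∧ y = true ∧ (x = true → e5) ∧ (x = false → e1))
    (h5 : e5 → z = false ∧ x = true ∧ (y = true → e4) ∧ (y = false → e2))
    (h6 : e6 → x = false ∧ z = true ∧ (y = true → e1) ∧ (y = false → e3)) :
    io (e1 ∨ e2) + io (e3 ∨ e4) + io (e5 ∨ e6) = 0 := by
  have key : ∀ x y z e1 e2 e3 e4 e5 e6 : Bool,
      (e1 → x = false ∧ y = true ∧ (z = true → e6) ∧ (z = false → e4)) →
      (e2 → y = false ∧ x = true ∧ (z = true → e3) ∧ (z = false → e5)) →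
      (e3 → y = false ∧ z = true ∧ (x = true → e2) ∧ (x = false → e6)) →
      (e4 → z = false ∧ y = true ∧ (x = true → e5) ∧ (x = false → e1)) →
      (e5 → z = false ∧ x = true ∧ (y = true → e4) ∧ (y = false → e2)) →
      (e6 → x = false ∧ z = true ∧ (y = true → e1) ∧ (y = false → e3)) →
      (if e1 ∨ e2 then 1 else 0) + (if e3 ∨ e4 then 1 else 0) + (if e5 ∨ e6 then 1 else 0) =
        (0 : ZMod 2) := by decide +kernel
  classical
  have := key x y z (decide e1) (decide e2) (decide e3) (decide e4) (decide e5) (decide e6)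
  simp only [decide_eq_true_eq] at this
  unfold io
  convert this h1 h2 h3 h4 h5 h6

variable {P : V → V → V → Prop} {J : V → V → Prop} {r : ℕ} {ρ w : ℕ → V}

/-- Edges off `J` whose ends differ, with one of their faces. -/
def Dart (T : Tri V) (J : V → V → Prop) (g : V → Bool) : Type :=
  {u : V × V × V // T.F u.1 u.2.1 u.2.2 ∧ ¬ J u.1 u.2.1 ∧ g u.1 = false ∧ g u.2.1 = true}

variable {g : V → Bool}

/-- The other face. -/
def dA (u : Dart T J g) : Dart T J g :=
  ⟨(u.1.1, u.1.2.1, T.opp u.1.1 u.1.2.1 u.1.2.2), T.opp_F u.2.1, u.2.2⟩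

theorem Patch.p13 (H : Patch T P J r ρ w) {a b c : V} (h : T.F a b c) (k : P a b c) : P c b a :=
  H.p12 (T.cyc h) (H.p23 (T.s12 h) (H.p12 h k))

open Classical in
/-- The other edge of an outer face. -/
noncomputable def dB (H : Patch T P J r ρ w) (u : Dart T J g) : Dart T J g :=
  if h : P u.1.1 u.1.2.1 u.1.2.2 then u
  else if k : g u.1.2.2 = true then ⟨(u.1.1, u.1.2.2, u.1.2.1), T.s23 u.2.1,
    fun j => h (H.p23 (T.s23 u.2.1) (H.inner j (T.s23 u.2.1))), u.2.2.2.1, k⟩
  else ⟨(u.1.2.2, u.1.2.1, u.1.1), T.s13 u.2.1,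
    fun j => h (H.p13 (T.s13 u.2.1) (H.inner j (T.s13 u.2.1))), by simpa using k, u.2.2.2.2⟩

theorem dA_dA (u : Dart T J g) : dA (dA u) = u :=
  Subtype.ext (Prod.ext rfl (Prod.ext rfl (T.opp_opp u.2.1)))

theorem dA_ne (u : Dart T J g) : dA u ≠ u := fun e =>
  T.opp_ne u.2.1 (congrArg (fun v : Dart T J g => v.1.2.2) e)

theorem dB_in (H : Patch T P J r ρ w) {u : Dart T J g} (h : P u.1.1 u.1.2.1 u.1.2.2) :
    dB H u = u := dif_pos h

theorem dB_true (H : Patch T P J r ρ w) {u : Dart T J g} (h : ¬ P u.1.1 u.1.2.1 u.1.2.2)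
    (k : g u.1.2.2 = true) : (dB H u).1 = (u.1.1, u.1.2.2, u.1.2.1) := by
  rw [dB, dif_neg h, dif_pos k]

theorem dB_false (H : Patch T P J r ρ w) {u : Dart T J g} (h : ¬ P u.1.1 u.1.2.1 u.1.2.2)
    (k : g u.1.2.2 = false) : (dB H u).1 = (u.1.2.2, u.1.2.1, u.1.1) := by
  rw [dB, dif_neg h, dif_neg (by simp [k])]

theorem dB_dB (H : Patch T P J r ρ w) (u : Dart T J g) : dB H (dB H u) = u := by
  by_cases h : P u.1.1 u.1.2.1 u.1.2.2
  · rw [dB_in H h, dB_in H h]
  · refine Subtype.ext ?_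
    cases k : g u.1.2.2
    · have e := dB_false H h k
      rw [dB_false H (by rw [e]; exact fun j => h (H.p13 (T.s13 u.2.1) j))
        (by rw [e]; exact u.2.2.2.1), e]
    · have e := dB_true H h k
      rw [dB_true H (by rw [e]; exact fun j => h (H.p23 (T.s23 u.2.1) j))
        (by rw [e]; exact u.2.2.2.2), e]

theorem dB_fix (H : Patch T P J r ρ w) {u : Dart T J g} (e : dB H u = u) :
    P u.1.1 u.1.2.1 u.1.2.2 := by
  by_contra h
  cases k : g u.1.2.2
  · have := dB_false H h k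
    rw [e] at this
    exact T.ne13 u.2.1 (congrArg Prod.fst this)
  · have := dB_true H h k
    rw [e] at this
    exact T.ne23 u.2.1 (congrArg (fun v => v.2.1) this)

/-- The chain of a dart. -/
def Ch (H : Patch T P J r ρ w) (g : V → Bool) : Dart T J g → Dart T J g → Prop :=
  ReflTransGen fun s t => t = dA s ∨ t = dB H s

theorem Ch.symm {H : Patch T P J r ρ w} {u v : Dart T J g} (h : Ch H g u v) : Ch H g v u := by
  induction h with
  | refl => exact ReflTransGen.refl
  | tail _ k ih =>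
    refine ReflTransGen.head ?_ ih
    rcases k with rfl | rfl
    exacts [Or.inl (dA_dA _).symm, Or.inr (dB_dB H _).symm]

/-- The edge lies on the chain. -/
def On (H : Patch T P J r ρ w) (u : Dart T J g) (a b : V) : Prop :=
  ∃ z, Ch H g u z ∧ s(z.1.1, z.1.2.1) = s(a, b)

theorem on_iff (H : Patch T P J r ρ w) (u : Dart T J g) {a b c : V} (h : T.F a b c) :
    On H u a b ↔ (∃ z, Ch H g u z ∧ (a, b, c) = z.1) ∨ ∃ z, Ch H g u z ∧ (b, a, c) = z.1 := by
  have key : ∀ z : Dart T J g, Ch H g u z → T.F z.1.1 z.1.2.1 c →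
      ∃ z', Ch H g u z' ∧ (z.1.1, z.1.2.1, c) = z'.1 := fun z hz k => by
    rcases T.two z.2.1 k with rfl | rfl
    · exact ⟨z, hz, rfl⟩
    · exact ⟨dA z, hz.tail (Or.inl rfl), rfl⟩
  constructor
  · rintro ⟨z, hz, e⟩
    rcases Sym2.eq_iff.1 e with ⟨rfl, rfl⟩ | ⟨rfl, rfl⟩
    exacts [Or.inl (key z hz h), Or.inr (key z hz (T.s12 h))]
  · rintro (⟨z, hz, e⟩ | ⟨z, hz, e⟩)
    · exact ⟨z, hz, by rw [← e]⟩
    · exact ⟨z, hz, by rw [← e]; exact Sym2.eq_swap⟩

theorem kem_sum (H : Patch T P J r ρ w) {u v : Dart T J g} (hu : dB H u = u) (hv : dB H v = v)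
    (huv : Ch H g u v) (hn : v ≠ u) (ho : ∀ z, Ch H g u z → dB H z = z → z = u ∨ z = v)
    {a b c : V} (h : T.F a b c) :
    io (On H u a b) + io (On H u b c) + io (On H u c a) = ki u.1 a b c + ki v.1 a b c := by
  by_cases hP : P a b c
  · have k1 : ∀ a b c, P a b c → io (∃ z, Ch H g u z ∧ (a, b, c) = z.1) =
        io ((a, b, c) = u.1) + io ((a, b, c) = v.1) := fun a b c hP => by
      rw [← io_or fun e => hn (Subtype.ext (e.2.symm.trans e.1))]
      refine io_congr ⟨?_, ?_⟩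
      · rintro ⟨z, hz, e⟩
        exact (ho z hz (dB_in H (by rw [← e]; exact hP))).imp (fun k => by rw [← k, e])
          fun k => by rw [← k, e]
      · rintro (e | e)
        exacts [⟨u, ReflTransGen.refl, e⟩, ⟨v, huv, e⟩]
    have k2 : ∀ a b c, T.F a b c → P a b c →
        io (On H u a b) = kh u.1 a b c + kh v.1 a b c := fun a b c h hP => by
      rw [io_congr (on_iff H u h), io_or, k1 a b c hP, k1 b a c (H.p12 h hP), kh, kh]
      · ring
      · rintro ⟨⟨z, -, e⟩, z', -, e'⟩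
        have h1 := z.2.2.2.1
        have h2 := z'.2.2.2.2
        rw [← e] at h1
        rw [← e'] at h2
        exact Bool.false_ne_true (h1.symm.trans h2)
    have p1 := H.p23 (T.s12 h) (H.p12 h hP)
    rw [k2 a b c h hP, k2 b c a (T.cyc h) p1,
      k2 c a b (T.cyc (T.cyc h)) (H.p12 (T.s23 h) (H.p23 h hP)), ki, ki]
    ring
  · have k1 : ∀ a b c, ¬ P a b c → (∃ z, Ch H g u z ∧ (a, b, c) = z.1) →
        g a = false ∧ g b = true ∧ (g c = true → ∃ z, Ch H g u z ∧ (a, c, b) = z.1) ∧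
          (g c = false → ∃ z, Ch H g u z ∧ (c, b, a) = z.1) := by
      rintro a b c hP ⟨⟨_, hz'⟩, hz, rfl⟩
      exact ⟨hz'.2.2.1, hz'.2.2.2,
        fun k => ⟨_, hz.tail (Or.inr rfl), (dB_true H (u := ⟨_, hz'⟩) hP k).symm⟩,
        fun k => ⟨_, hz.tail (Or.inr rfl), (dB_false H (u := ⟨_, hz'⟩) hP k).symm⟩⟩
    have n2 : ¬ P b a c := fun k => hP (H.p12 (T.s12 h) k)
    have n6 : ¬ P a c b := fun k => hP (H.p23 (T.s23 h) k)
    have n4 : ¬ P c b a := fun k => hP (H.p13 (T.s13 h) k)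
    have n3 : ¬ P b c a := fun k => n4 (H.p12 (T.cyc h) k)
    have n5 : ¬ P c a b := fun k => n6 (H.p12 (T.cyc (T.cyc h)) k)
    have k2 : ∀ z : Dart T J g, dB H z = z → ∀ a b c, ¬ P a b c → io ((a, b, c) = z.1) = 0 :=
      fun z hz a b c n => io_neg fun e => n (by have := dB_fix H hz; rwa [← e] at this)
    rw [io_congr (on_iff H u h), io_congr (on_iff H u (T.cyc h)),
      io_congr (on_iff H u (T.cyc (T.cyc h))),
      kem_six (g a) (g b) (g c) (k1 _ _ _ hP) (k1 _ _ _ n2) (k1 _ _ _ n3) (k1 _ _ _ n4)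
        (k1 _ _ _ n5) (k1 _ _ _ n6)]
    simp only [ki, kh, k2 u hu _ _ _ hP, k2 u hu _ _ _ n2, k2 u hu _ _ _ n3, k2 u hu _ _ _ n4,
      k2 u hu _ _ _ n5, k2 u hu _ _ _ n6, k2 v hv _ _ _ hP, k2 v hv _ _ _ n2, k2 v hv _ _ _ n3,
      k2 v hv _ _ _ n4, k2 v hv _ _ _ n5, k2 v hv _ _ _ n6, add_zero]

/-- The dart sits at the position `p`. -/
def At (ρ w : ℕ → V) (p : ℕ) (u : V × V × V) : Prop :=
  u.2.2 = w p ∧ s(u.1, u.2.1) = s(ρ p, ρ (p + 1))

theorem at_ki {p : ℕ} {u : V × V × V} (h : At ρ w p u) (a b c : V) :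
    ki u a b c = ki (ρ p, ρ (p + 1), w p) a b c := by
  obtain ⟨x, y, z⟩ := u
  obtain ⟨rfl, e⟩ := h
  rcases Sym2.eq_iff.1 e with ⟨rfl, rfl⟩ | ⟨rfl, rfl⟩
  exacts [rfl, ki_12 _ _ _ _ _ _]

theorem at_ex (H : Patch T P J r ρ w) {p : ℕ} (hp : p < r) (hN : g (ρ p) ≠ g (ρ (p + 1))) :
    ∃ u : Dart T J g, dB H u = u ∧ At ρ w p u.1 := by
  obtain ⟨h1, h2, h3⟩ := H.face p hp
  cases k : g (ρ p)
  · exact ⟨⟨(ρ p, ρ (p + 1), w p), h1, h3, k, by simpa [k] using hN⟩, dB_in H h2, rfl, rfl⟩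
  · exact ⟨⟨(ρ (p + 1), ρ p, w p), T.s12 h1, fun j => h3 (H.symm j), by simpa [k] using hN, k⟩,
      dB_in H (H.p12 h1 h2), rfl, Sym2.eq_swap⟩

theorem dart_ne {a b : V} {u : Dart T J g} (e : s(u.1.1, u.1.2.1) = s(a, b)) : g a ≠ g b := by
  have h1 := u.2.2.2.1
  have h2 := u.2.2.2.2
  rcases Sym2.eq_iff.1 e with ⟨rfl, rfl⟩ | ⟨rfl, rfl⟩ <;> simp [h1, h2]

theorem at_eq {p : ℕ} {u v : Dart T J g} (h : At ρ w p u.1) (h' : At ρ w p v.1) : u = v := by
  refine Subtype.ext ?_
  rcases Sym2.eq_iff.1 (h.2.trans h'.2.symm) with ⟨e1, e2⟩ | ⟨e1, -⟩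
  · exact Prod.ext e1 (Prod.ext e2 (h.1.trans h'.1.symm))
  · exact absurd (u.2.2.2.1.symm.trans (e1 ▸ v.2.2.2.2)) Bool.false_ne_true

theorem at_inj (H : Patch T P J r ρ w) {p q : ℕ} (hp : p < r) (hq : q < r) {u : V × V × V}
    (h : At ρ w p u) (h' : At ρ w q u) : p = q :=
  H.inj p hp q hq (h.1.symm.trans h'.1) (h.2.symm.trans h'.2)

theorem on_dart (H : Patch T P J r ρ w) {a b : V} {u z : Dart T J g}
    (h : s(z.1.1, z.1.2.1) = s(a, b)) : On H u a b ↔ Ch H g u z := by
  refine ⟨fun ⟨y, hy, e⟩ => ?_, fun k => ⟨z, k, h⟩⟩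
  have e' : y.1.1 = z.1.1 ∧ y.1.2.1 = z.1.2.1 := by
    rcases Sym2.eq_iff.1 (e.trans h.symm) with k | ⟨e1, -⟩
    · exact k
    · exact absurd (y.2.2.2.1.symm.trans (e1 ▸ z.2.2.2.2)) Bool.false_ne_true
  have f := z.2.1
  rw [← e'.1, ← e'.2] at f
  rcases T.two y.2.1 f with k | k
  · rwa [show z = y from Subtype.ext (Prod.ext e'.1.symm (Prod.ext e'.2.symm k))]
  · rw [show z = dA y from Subtype.ext (Prod.ext e'.1.symm (Prod.ext e'.2.symm k))]
    exact hy.tail (Or.inl rfl)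

theorem on_at (H : Patch T P J r ρ w) {p : ℕ} {u z : Dart T J g} (h : At ρ w p z.1) :
    On H u (ρ p) (ρ (p + 1)) ↔ Ch H g u z := on_dart H h.2

theorem kem_walk {x : ℕ → ZMod 2} {r i j : ℕ} (hij : i ≠ j)
    (h : ∀ q < r, x q + x (q + 1) = io (q = i ∨ q = j)) (q : ℕ) (hq : q ≤ r) :
    x q = x 0 + io (i < q) + io (j < q) := by
  induction q with
  | zero => rw [io_neg (Nat.not_lt_zero _), io_neg (Nat.not_lt_zero _), add_zero, add_zero]
  | succ q ih =>
    have e : ∀ k, io (k < q + 1) = io (k < q) + io (q = k) := fun k => by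
      rw [← io_or (by omega)]
      exact io_congr (by omega)
    have h1 := h q hq
    rw [io_or (by omega)] at h1
    rw [e, e]
    linear_combination h1 + ih (by omega) - z2_add_self (x q)

theorem kem_main [Fintype V] (M : MC T) (H : Patch T P J r ρ w) (g : V → Bool) :
    ∃ μ, NC r (fun p => g (ρ p) ≠ g (ρ (p + 1))) μ ∧
      ∀ A : ℕ → Bool, (∀ p < r, g (ρ p) ≠ g (ρ (p + 1)) → A (μ p) = A p) →
        ∃ x : V → ZMod 2, (∀ a b, T.Adj a b → ¬ J a b → g a = g b → x a = x b) ∧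
          ∀ p < r, g (ρ p) ≠ g (ρ (p + 1)) → x (ρ p) + x (ρ (p + 1)) = io (A p = true) := by
  classical
  have : Finite (Dart T J g) := Subtype.finite
  have s1 : ∀ p, ∃ q, p < r → g (ρ p) ≠ g (ρ (p + 1)) → q < r ∧ g (ρ q) ≠ g (ρ (q + 1)) ∧ q ≠ p ∧
      ∃ u v : Dart T J g, At ρ w p u.1 ∧ At ρ w q v.1 ∧ dB H u = u ∧ dB H v = v ∧ Ch H g u v ∧
        ∀ z, Ch H g u z → dB H z = z → z = u ∨ z = v := fun p => by
    by_cases hp : p < r ∧ g (ρ p) ≠ g (ρ (p + 1))
    · obtain ⟨u, hu, au⟩ := at_ex H hp.1 hp.2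
      obtain ⟨v, n, hv, c, o⟩ := kem_pair dA (dB H) dA_dA (dB_dB H) dA_ne u hu
      obtain ⟨q, hq, av⟩ := H.surj _ _ _ v.2.1 (dB_fix H hv) v.2.2.1
      exact ⟨q, fun _ _ => ⟨hq, dart_ne av.2, fun e => n (at_eq (e ▸ av) au), u, v, au, av, hu, hv,
        c, o⟩⟩
    · exact ⟨0, fun h h' => absurd ⟨h, h'⟩ hp⟩
  choose μ hμ using s1
  have s2 : ∀ p < r, g (ρ p) ≠ g (ρ (p + 1)) → μ (μ p) = p := fun p hp hN => by
    obtain ⟨hq, hN', n, u, v, au, av, hu, -, c, -⟩ := hμ p hp hN
    obtain ⟨hq', -, -, u', v', au', av', -, -, -, o⟩ := hμ _ hq hN'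
    obtain rfl := at_eq av au'
    rcases o u c.symm hu with rfl | rfl
    · exact absurd (at_inj H hq hp av au) n
    · exact at_inj H hq' hp av' au
  have s3 : ∀ p, ∃ x : V → ZMod 2, p < r → g (ρ p) ≠ g (ρ (p + 1)) →
      (∀ a b, T.Adj a b → ¬ J a b → g a = g b → x a = x b) ∧
      (∀ q < r, x (ρ q) + x (ρ (q + 1)) = io (q = p ∨ q = μ p)) ∧
      ∀ q < r, g (ρ q) ≠ g (ρ (q + 1)) → q ≠ p → q ≠ μ p → x (ρ q) = x (ρ (μ q)) := fun p => by
    by_cases hp : p < r ∧ g (ρ p) ≠ g (ρ (p + 1))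
    swap
    · exact ⟨0, fun h h' => absurd ⟨h, h'⟩ hp⟩
    obtain ⟨hq, hN', n, u, v, au, av, hu, hv, c, o⟩ := hμ p hp.1 hp.2
    have f0 := (H.face 0 (by omega)).1
    obtain ⟨-, Q1, a1, b1, c1⟩ := kem_path H.symm f0 (H.conn p hp.1)
    obtain ⟨-, Q2, a2, b2, c2⟩ := kem_path H.symm f0 (H.conn _ hq)
    obtain ⟨x, hx⟩ := M.cocyc (fun a b => io (On H u a b) + Q1 a b + Q2 a b)
      (fun a b => by
        rw [a1 a b, a2 a b]
        congr 2
        exact io_congr (by simp only [On, Sym2.eq_swap (a := a)]))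
      fun a b d h => by
        have k := kem_sum H hu hv c (fun e => n (at_inj H hq hp.1 av (e ▸ au))) o h
        rw [at_ki au, at_ki av] at k
        linear_combination k + c1 a b d h + c2 a b d h + z2_add_self (ki (ρ 0, ρ 1, w 0) a b d) +
          z2_add_self (ki (ρ p, ρ (p + 1), w p) a b d) +
          z2_add_self (ki (ρ (μ p), ρ (μ p + 1), w (μ p)) a b d)
    have hx' : ∀ a b, T.Adj a b → ¬ J a b → x a + x b = io (On H u a b) := fun a b h k => by
      rw [← hx a b h, b1 a b k, b2 a b k, add_zero, add_zero]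
    have hz : ∀ a b, T.Adj a b → ¬ J a b → ¬ On H u a b → x a = x b := fun a b h k l => by
      have := hx' a b h k
      rw [io_neg l] at this
      linear_combination this - z2_add_self (x b)
    have ho : ∀ q < r, On H u (ρ q) (ρ (q + 1)) ↔ q = p ∨ q = μ p := fun q hq' => by
      refine ⟨fun k => ?_, ?_⟩
      · obtain ⟨z, hz, az⟩ := at_ex H hq' (k.elim fun _ e => dart_ne e.2)
        rcases o z ((on_at H az).1 k) hz with rfl | rfl
        exacts [Or.inl (at_inj H hq' hp.1 az au), Or.inr (at_inj H hq' hq az av)]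
      · rintro (rfl | rfl)
        exacts [(on_at H au).2 ReflTransGen.refl, (on_at H av).2 c]
    refine ⟨x, fun _ _ => ⟨fun a b h k e => hz a b h k fun ⟨_, _, l⟩ => dart_ne l e,
      fun q hq' => ?_, fun q hq' hN n1 n2 => ?_⟩⟩
    · rw [hx' _ _ (T.adj12 (H.face q hq').1) (H.face q hq').2.2, io_congr (ho q hq')]
    · obtain ⟨-, -, -, u', v', au', av', -, -, c', -⟩ := hμ q hq' hN
      have nu : ¬ Ch H g u u' := fun k => ((ho q hq').1 ((on_at H au').2 k)).elim n1 n2
      have e1 : ∀ z, Ch H g u' z → x z.1.1 = x z.1.2.1 := fun z k =>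
        hz _ _ (T.adj12 z.2.1) z.2.2.1 fun l => nu (((on_dart H rfl).1 l).trans k.symm)
      have e2 : ∀ z, Ch H g u' z → x z.1.1 = x u'.1.1 := fun z k => by
        induction k with
        | refl => rfl
        | @tail s t k l ih =>
          rcases l with rfl | rfl
          · exact ih
          · by_cases h : P s.1.1 s.1.2.1 s.1.2.2
            · rwa [dB_in H h]
            · cases m : g s.1.2.2
              · rw [e1 _ (k.tail (Or.inr rfl)), dB_false H h m, ← ih]
                exact (e1 s k).symm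
              · rw [dB_true H h m]
                exact ih
      have e3 : ∀ i z, Ch H g u' z → At ρ w i z.1 → x (ρ i) = x u'.1.1 := fun i z k l => by
        rcases Sym2.eq_iff.1 l.2 with ⟨m, -⟩ | ⟨-, m⟩
        · rw [← m, e2 z k]
        · rw [← m, ← e1 z k, e2 z k]
      rw [e3 q u' ReflTransGen.refl au', e3 _ v' c' av']
  choose x hx using s3
  refine ⟨μ, ⟨fun p hp hN => ⟨(hμ p hp hN).1, (hμ p hp hN).2.1, (hμ p hp hN).2.2.1, s2 p hp hN⟩,
    fun p hp q hq hN hN' h1 h2 => ?_⟩, fun A hA => ?_⟩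
  · obtain ⟨-, k1, k2⟩ := hx p hp hN
    have e := k2 q hq hN' (by omega) (by omega)
    have w1 := kem_walk (x := fun i => x p (ρ i)) (by omega : p ≠ μ p) k1
    have hq' := (hμ q hq hN').1
    have n1 : μ q ≠ μ p := fun k => by
      have := s2 q hq hN'
      rw [k, s2 p hp hN] at this
      omega
    have n2 : μ q ≠ p := fun k => by
      have := s2 q hq hN'
      rw [k] at this
      omega
    have w2 := w1 q hq.le
    have w3 := w1 _ hq'.le
    rw [e, w3, io_pos h1, io_neg (by omega : ¬ μ p < q), add_assoc, add_assoc,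
      add_right_inj] at w2
    by_cases l1 : p < μ q <;> by_cases l2 : μ p < μ q
    · rw [io_pos l1, io_pos l2] at w2
      exact absurd w2 (by decide)
    · omega
    · omega
    · rw [io_neg l1, io_neg l2] at w2
      exact absurd w2 (by decide)
  · let I := (Finset.range r).filter fun i => g (ρ i) ≠ g (ρ (i + 1)) ∧ A i = true ∧ i < μ i
    have hI : ∀ i, i ∈ I ↔ i < r ∧ g (ρ i) ≠ g (ρ (i + 1)) ∧ A i = true ∧ i < μ i := fun i => by
      simp only [I, Finset.mem_filter, Finset.mem_range]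
    refine ⟨fun v => ∑ i ∈ I, x i v, fun a b h k e => Finset.sum_congr rfl fun i hi =>
      (hx i ((hI i).1 hi).1 ((hI i).1 hi).2.1).1 a b h k e, fun p hp hN => ?_⟩
    rw [← Finset.sum_add_distrib, Finset.sum_congr rfl fun i hi =>
      (hx i ((hI i).1 hi).1 ((hI i).1 hi).2.1).2.1 p hp]
    obtain ⟨hq, hN', n, -⟩ := hμ p hp hN
    have e2 := s2 p hp hN
    have key : ∀ i ∈ I, p = i ∨ p = μ i → i = min p (μ p) ∧ A p = true := fun i hi k => by
      obtain ⟨h1, h2, h3, h4⟩ := (hI i).1 hi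
      rcases k with rfl | rfl
      · exact ⟨by omega, h3⟩
      · rw [s2 i h1 h2, hA i h1 h2]
        exact ⟨by omega, h3⟩
    by_cases hp' : A p = true
    · rw [io_pos hp', Finset.sum_eq_single_of_mem (min p (μ p)), io_pos]
      · rcases le_total p (μ p) with k | k
        · exact Or.inl (min_eq_left k).symm
        · rw [min_eq_right k, e2]
          exact Or.inr rfl
      · rw [hI]
        rcases le_total p (μ p) with k | k
        · rw [min_eq_left k]
          exact ⟨hp, hN, hp', by omega⟩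
        · rw [min_eq_right k, hA p hp hN, e2]
          exact ⟨hq, hN', hp', by omega⟩
      · exact fun i hi k => io_neg fun l => k (key i hi l).1
    · rw [io_neg hp']
      exact Finset.sum_eq_zero fun i hi => io_neg fun l => hp' (key i hi l).2

theorem kem_pi : ∀ θ : K, θ ≠ 0 → ∃ π : K → Bool, (∀ a, π (a + θ) = π a) ∧
    ∀ a b, a ≠ b → (a + b ≠ θ ↔ π a ≠ π b) := by
  have : ∀ θ : K, θ ≠ 0 → (∀ a, decide (a = 0 ∨ a = θ) = decide (a + θ = 0 ∨ a + θ = θ)) ∧
      ∀ a b, a ≠ b → (a + b ≠ θ ↔ decide (a = 0 ∨ a = θ) ≠ decide (b = 0 ∨ b = θ)) := by decide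
  exact fun θ h => ⟨fun a => decide (a = 0 ∨ a = θ), fun a => ((this θ h).1 a).symm, (this θ h).2⟩

theorem k_add_self : ∀ a : K, a + a = 0 := by decide

theorem k_add_ne : ∀ a b : K, a ≠ b → a + b ≠ 0 := by decide

theorem kempe_thm : StKempe := by
  intro V _ T M P J r ρ w H
  have hne : ∀ c : V → K, (∀ a b, T.Adj a b → ¬ J a b → c a ≠ c b) → ∀ p < r,
      c (ρ p) ≠ c (ρ (p + 1)) := fun c hc p hp =>
    hc _ _ (T.adj12 (H.face p hp).1) (H.face p hp).2.2
  refine ⟨?_, ?_, ?_, ?_, ?_⟩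
  · rintro κ ⟨c, hc, hκ⟩ κ' h
    exact ⟨c, hc, fun p hp => (h p hp).trans (hκ p hp)⟩
  · rintro κ ⟨c, hc, hκ⟩ p hp
    rw [hκ p hp]
    exact k_add_ne _ _ (hne c hc p hp)
  · rintro κ ⟨c, -, hκ⟩
    have : ∀ n, ∑ p ∈ Finset.range n, (c (ρ p) + c (ρ (p + 1))) = c (ρ 0) + c (ρ n) := fun n => by
      induction n with
      | zero => exact (k_add_self _).symm
      | succ n ih => rw [Finset.sum_range_succ, ih, add_assoc, ← add_assoc (c (ρ n)), k_add_self,
          zero_add]
    rw [Finset.sum_congr rfl fun p hp => hκ p (Finset.mem_range.1 hp), this, H.close, k_add_self]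
  · rintro κ ⟨c, hc, hκ⟩ σ
    exact ⟨fun v => σ (c v), fun a b h k e => hc a b h k (σ.injective e),
      fun p hp => by dsimp only; rw [hκ p hp, map_add]⟩
  · rintro κ ⟨c, hc, hκ⟩ θ hθ
    obtain ⟨π, h1, h2⟩ := kem_pi θ hθ
    obtain ⟨μ, hμ, hA⟩ := kem_main M H fun v => π (c v)
    have hN : ∀ p < r, κ p ≠ θ ↔ π (c (ρ p)) ≠ π (c (ρ (p + 1))) := fun p hp => by
      rw [hκ p hp]
      exact h2 _ _ (hne c hc p hp)
    refine ⟨μ, ⟨fun p hp k => ?_, fun p hp q hq k k' => hμ.2 p hp q hq ((hN p hp).1 k)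
      ((hN q hq).1 k')⟩, fun A h => ?_⟩
    · obtain ⟨a1, a2, a3⟩ := hμ.1 p hp ((hN p hp).1 k)
      exact ⟨a1, (hN _ a1).2 a2, a3⟩
    · obtain ⟨x, hx, hx'⟩ := hA A fun p hp k => h p hp ((hN p hp).2 k)
      have e : ∀ v, π (c v + x v • θ) = π (c v) := fun v => by
        have : ∀ t : ZMod 2, t = 0 ∨ t = 1 := by decide
        rcases this (x v) with k | k <;> rw [k]
        · rw [zero_smul, add_zero]
        · rw [one_smul, h1]
      refine ⟨fun v => c v + x v • θ, fun a b l k m => ?_, fun p hp => ?_⟩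
      · have m' := congrArg π m
        rw [e, e] at m'
        dsimp only at m
        rw [hx a b l k m', add_left_inj] at m
        exact hc a b l k m
      · dsimp only
        rw [add_add_add_comm, ← add_smul, ← hκ p hp]
        by_cases k : κ p ≠ θ
        · rw [hx' p hp ((hN p hp).1 k)]
          by_cases l : A p = true
          · rw [if_pos ⟨k, l⟩, io_pos l, one_smul]
          · rw [if_neg fun m => l m.2, io_neg l, zero_smul, add_zero]
        · rw [if_neg fun m => k m.1, hx _ _ (T.adj12 (H.face p hp).1) (H.face p hp).2.2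
            (by_contra fun m => k ((hN p hp).2 m)), z2_add_self, zero_smul, add_zero]

end Pool.Agent.FCT
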