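import Pool.Agent.Lib.MP_fe5cb4_co.FCT.BkSide
import Pool.Agent.Lib.MP_fe5cb4_co.FCT.Kempe

/-!
Birkhoff's theorem: short cycles in a minimal counterexample.
-/

set_option autoImplicit false

namespace Pool.Agent.FCT.Bk

open Relation

variable {V : Type} {T : Tri V}

theorem cyc_of {r : ℕ} (f : ℕ → V) (h3 : 3 ≤ r) (inj : ∀ i < r, ∀ j < r, f i = f j → i = j)
    (adj : ∀ i < r, T.Adj (f i) (f ((i + 1) % r)))
    (chord : ∀ i < r, ∀ j < r, T.Adj (f i) (f j) → j = (i + 1) % r ∨ i = (j + 1) % r)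
    (noface : ∀ i < r, ∀ j < r, ¬ T.F (f i) (f ((i + 1) % r)) (f j)) :
    Cyc T r fun p => f (p % r) := by
  have lt : ∀ p, p % r < r := fun p => Nat.mod_lt p (by omega)
  refine ⟨h3, fun p q => ⟨inj _ (lt p) _ (lt q), fun e => by simp only [e]⟩, fun p => ?_,
    fun p q h => ?_, fun p q => ?_⟩
  · have := adj _ (lt p)
    rwa [Nat.mod_add_mod] at this
  · rcases chord _ (lt p) _ (lt q) h with e | e
    · left; rw [e, Nat.mod_add_mod]
    · right; rw [e, Nat.mod_add_mod]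
  · have := noface _ (lt p) _ (lt q)
    rwa [Nat.mod_add_mod] at this

theorem noface_of {r : ℕ} (f : ℕ → V) (h4 : 4 ≤ r)
    (chord : ∀ i < r, ∀ j < r, T.Adj (f i) (f j) → j = (i + 1) % r ∨ i = (j + 1) % r) :
    ∀ i < r, ∀ j < r, ¬ T.F (f i) (f ((i + 1) % r)) (f j) := by
  intro i hi j hj h
  have h1 := chord i hi j hj (T.adj13 h)
  have h2 := chord _ (Nat.mod_lt (i + 1) (by omega)) j hj (T.adj23 h)
  have n1 : j ≠ i := fun e => T.ne13 h (by rw [e])
  have n2 : j ≠ (i + 1) % r := fun e => T.ne23 h (by rw [e])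
  have m : ∀ k < r, (k + 1) % r = k + 1 ∨ (k + 1 = r ∧ (k + 1) % r = 0) := by
    intro k hk
    rcases Nat.lt_or_ge (k + 1) r with h | h
    · exact Or.inl (Nat.mod_eq_of_lt h)
    · have : k + 1 = r := by omega
      exact Or.inr ⟨this, by rw [this, Nat.mod_self]⟩
  have a1 := m i hi
  have a2 := m j hj
  have a3 := m _ (Nat.mod_lt (i + 1) (by omega : r > 0))
  omega

variable [Fintype V]

theorem two_sides (M : MC T) {r : ℕ} {ρ : ℕ → V} (H : Cyc T r ρ) :
    ∃ C C' : Set (ℕ → K), Consistent r C ∧ Consistent r C' ∧ (∀ i < r, Fan r C i) ∧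
      (∀ i < r, Fan r C' i) ∧ ((¬ ∃ h, ∀ p, T.Adj h (ρ p)) → Hub r C ∧ Hub r C') ∧
      ¬ ∃ κ, κ ∈ C ∧ κ ∈ C' := by
  obtain ⟨σ, S⟩ := H.sides M
  obtain ⟨w, A⟩ := S.ap H 0
  obtain ⟨w', A'⟩ := S.ap H 1
  exact ⟨_, _, kempe_thm V T M _ _ _ _ _ (patch M H S A), kempe_thm V T M _ _ _ _ _ (patch M H S A'),
    fan M H S A, fan M H S A', fun n => ⟨hub M H S A n, hub M H S A' n⟩, glue M H S A A'⟩

theorem b3 (M : MC T) {a b c : V} (h1 : T.Adj a b) (h2 : T.Adj b c) (h3 : T.Adj c a) :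
    T.F a b c := by
  by_contra n
  have n1 := h1.ne
  have n2 := h2.ne
  have n3 := h3.ne
  have H : Cyc T 3 fun p => [a, b, c].getD (p % 3) a := by
    refine cyc_of (fun p => [a, b, c].getD p a) le_rfl (fun i hi j hj => ?_) (fun i hi => ?_)
      (fun i hi j hj h => ?_) fun i hi j hj h => ?_
    · interval_cases i <;> interval_cases j <;> simp [n1, n2, n3, n1.symm, n2.symm, n3.symm]
    · interval_cases i <;> simpa
    · have := h.ne
      interval_cases i <;> interval_cases j <;> simp at this ⊢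
    · have e1 := T.ne13 h
      have e2 := T.ne23 h
      interval_cases i <;> interval_cases j <;> simp at e1 e2 h
      · exact n h
      · exact n (T.cyc (T.cyc h))
      · exact n (T.cyc h)
  obtain ⟨C, C', G, G', f, f', -, k⟩ := two_sides M H
  exact k (meet3 G G' (f 0 (by omega)) (f' 0 (by omega)))

theorem b4 (M : MC T) {a b c d : V} (h1 : T.Adj a b) (h2 : T.Adj b c) (h3 : T.Adj c d)
    (h4 : T.Adj d a) (n5 : a ≠ c) (n6 : b ≠ d) : T.Adj a c ∨ T.Adj b d := by
  by_contra n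
  have n1 := h1.ne
  have n2 := h2.ne
  have n3 := h3.ne
  have n4 := h4.ne
  have ch : ∀ i < 4, ∀ j < 4, T.Adj ([a, b, c, d].getD i a) ([a, b, c, d].getD j a) →
      j = (i + 1) % 4 ∨ i = (j + 1) % 4 := by
    intro i hi j hj h
    have := h.ne
    interval_cases i <;> interval_cases j <;> simp at this h ⊢
    · exact n (Or.inl h)
    · exact n (Or.inr h)
    · exact n (Or.inl h.symm)
    · exact n (Or.inr h.symm)
  have H : Cyc T 4 fun p => [a, b, c, d].getD (p % 4) a := by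
    refine cyc_of (fun p => [a, b, c, d].getD p a) (by omega) (fun i hi j hj => ?_)
      (fun i hi => ?_) ch (noface_of (fun p => [a, b, c, d].getD p a) le_rfl ch)
    · interval_cases i <;> interval_cases j <;>
        simp [n1, n2, n3, n4, n5, n6, n1.symm, n2.symm, n3.symm, n4.symm, n5.symm, n6.symm]
    · interval_cases i <;> simpa
  obtain ⟨C, C', G, G', f, f', -, k⟩ := two_sides M H
  exact k (meet4 G G' f f')

theorem b5 (M : MC T) {a b c d e : V} (h1 : T.Adj a b) (h2 : T.Adj b c) (h3 : T.Adj c d)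
    (h4 : T.Adj d e) (h5 : T.Adj e a) (n6 : a ≠ c) (n7 : a ≠ d) (n8 : b ≠ d) (n9 : b ≠ e)
    (n0 : c ≠ e) (m1 : ¬ T.Adj a c) (m2 : ¬ T.Adj a d) (m3 : ¬ T.Adj b d) (m4 : ¬ T.Adj b e)
    (m5 : ¬ T.Adj c e) : ∃ h, T.Adj h a ∧ T.Adj h b ∧ T.Adj h c ∧ T.Adj h d ∧ T.Adj h e := by
  by_contra n
  have n1 := h1.ne
  have n2 := h2.ne
  have n3 := h3.ne
  have n4 := h4.ne
  have n5 := h5.ne
  have ch : ∀ i < 5, ∀ j < 5, T.Adj ([a, b, c, d, e].getD i a) ([a, b, c, d, e].getD j a) →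
      j = (i + 1) % 5 ∨ i = (j + 1) % 5 := by
    intro i hi j hj h
    have := h.ne
    have h' := h.symm
    interval_cases i <;> interval_cases j <;> simp [m1, m2, m3, m4, m5] at this h h' ⊢
  have H : Cyc T 5 fun p => [a, b, c, d, e].getD (p % 5) a := by
    refine cyc_of (fun p => [a, b, c, d, e].getD p a) (by omega) (fun i hi j hj => ?_)
      (fun i hi => ?_) ch (noface_of (fun p => [a, b, c, d, e].getD p a) (by omega) ch)
    · interval_cases i <;> interval_cases j <;>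
        simp [n1, n2, n3, n4, n5, n6, n7, n8, n9, n0, n1.symm, n2.symm, n3.symm, n4.symm, n5.symm,
          n6.symm, n7.symm, n8.symm, n9.symm, n0.symm]
    · interval_cases i <;> simpa
  obtain ⟨C, C', G, G', f, f', hh, k⟩ := two_sides M H
  obtain ⟨g, g'⟩ := hh fun ⟨h, hp⟩ => n ⟨h, hp 0, hp 1, hp 2, hp 3, hp 4⟩
  exact k (meet5 G G' f g f' g')

theorem deg4 (M : MC T) (a : V) : 4 ≤ T.deg a := by
  classical
  by_contra n
  obtain ⟨b, c, f⟩ := M.flag a
  obtain ⟨k, -, hk⟩ := M.min (fun x y => x = a ∧ y = b)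
    (by rintro x y ⟨rfl, rfl⟩; exact T.adj12 f) ⟨a, b, rfl, rfl⟩
  have cls : ∀ x y, EqvGen (fun x y => x = a ∧ y = b) x y → x = y ∨
      ((x = a ∨ x = b) ∧ (y = a ∨ y = b)) := by
    intro x y h
    induction h with
    | rel x y h => exact Or.inr ⟨Or.inl h.1, Or.inr h.2⟩
    | refl => exact Or.inl rfl
    | symm _ _ _ ih => exact ih.imp Eq.symm And.symm
    | trans _ _ _ _ _ i1 i2 =>
      rcases i1 with rfl | i1
      · exact i2
      · rcases i2 with rfl | i2
        · exact Or.inr i1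
        · exact Or.inr ⟨i1.1, i2.2⟩
  have ex : ∀ x y z : K, ∃ u, u ≠ x ∧ u ≠ y ∧ u ≠ z := by decide +kernel
  obtain ⟨u, u0, u1, u2⟩ := ex (k (T.rot a b c 0)) (k (T.rot a b c 1)) (k (T.rot a b c 2))
  have hu : ∀ x, T.Adj a x → u ≠ k x := by
    intro x hx
    obtain ⟨j, hj, rfl⟩ := M.rot_surj f hx
    have : j < 3 := by omega
    interval_cases j <;> assumption
  refine M.nocol ⟨fun x => if x = a then u else k x, fun x y h => ?_⟩
  by_cases hx : x = a
  · subst hx
    simp only [if_true, if_neg h.ne.symm]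
    exact hu y h
  · by_cases hy : y = a
    · subst hy
      simp only [if_true, if_neg hx]
      exact (hu x h.symm).symm
    · simp only [if_neg hx, if_neg hy]
      refine hk x y h fun e => ?_
      rcases cls x y e with e | ⟨e1, e2⟩
      · exact h.ne e
      · exact h.ne ((e1.resolve_left hx).trans (e2.resolve_left hy).symm)

theorem deg5 (M : MC T) (a : V) : 5 ≤ T.deg a := by
  by_contra n
  have h4 : T.deg a = 4 := le_antisymm (by omega) (deg4 M a)
  obtain ⟨b, c, f⟩ := M.flag a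
  have ne : ∀ i j, i % 4 ≠ j % 4 → T.rot a b c i ≠ T.rot a b c j := fun i j h e =>
    h (h4 ▸ (M.rot_eq f).1 e)
  have e4 : T.rot a b c 4 = T.rot a b c 0 := (M.rot_eq f).2 (by rw [h4])
  have key : ∀ i, ¬ T.Adj (T.rot a b c (i + 1)) (T.rot a b c (i + 3)) := by
    intro i h
    have g := b3 M (T.rot_adj f (i + 1)) h (T.rot_adj f (i + 3)).symm
    rcases T.two (T.rot_F f (i + 1)) g with e | e
    · exact ne _ _ (by omega) e
    · rw [T.rot_back f i] at e
      exact ne _ _ (by omega) e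
  rcases b4 M (T.adj23 (T.rot_F f 1)) (T.adj23 (T.rot_F f 2)) (T.adj23 (T.rot_F f 3))
    (e4 ▸ T.adj23 (T.rot_F f 0)) (ne _ _ (by omega)) (ne _ _ (by omega)) with h | h
  · exact key 0 h
  · exact key 1 h

end Pool.Agent.FCT.Bk

namespace Pool.Agent.FCT

theorem birk_thm : StBirk := fun _ _ _ M =>
  ⟨Bk.b3 M, Bk.b4 M, Bk.b5 M, Bk.deg5 M⟩

end Pool.Agent.FCT
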