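import Pool.Agent.Lib.MP_fe5cb4_co.FCT.Defs

/-!
The finite part of Birkhoff's theorem: two consistent sets of ring words of length at most five
that contain the words of the fans and of the hub have a common word.
-/

set_option autoImplicit false

namespace Pool.Agent.FCT.Bk

/-- add `θ` at all positions whose letter is not `θ` -/
def sw {n : ℕ} (θ : K) (κ : Fin n → K) : Fin n → K := fun p => if κ p = θ then κ p else κ p + θ

/-- add `θ` at the positions `i` and `j` -/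
def fl {n : ℕ} (θ : K) (i j : Fin n) (κ : Fin n → K) : Fin n → K :=
  fun p => if p = i ∨ p = j then κ p + θ else κ p

/-- equal up to a permutation of the letters -/
def eqv {n : ℕ} (κ κ' : Fin n → K) : Prop := ∃ θ η : K, sw η (sw θ κ) = κ'

instance {n : ℕ} (κ κ' : Fin n → K) : Decidable (eqv κ κ') := by unfold eqv; infer_instance

/-- the finite word occurs in `C` -/
def Mem (n : ℕ) (C : Set (ℕ → K)) (κ : Fin n → K) : Prop := ∃ κ' ∈ C, ∀ p : Fin n, κ' p = κ p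

/-- a word of a ring colouring in which only the vertex `i` has its colour -/
def Fan (r : ℕ) (C : Set (ℕ → K)) (i : ℕ) : Prop :=
  ∃ c : ℕ → K, c r = c 0 ∧ (fun p => c p + c (p + 1)) ∈ C ∧ ∀ p < r, p ≠ i → c p ≠ c i

/-- a word of a ring colouring that misses a colour -/
def Hub (r : ℕ) (C : Set (ℕ → K)) : Prop :=
  ∃ (c : ℕ → K) (h : K), c r = c 0 ∧ (fun p => c p + c (p + 1)) ∈ C ∧ ∀ p < r, c p ≠ h

variable {n : ℕ} {C C' : Set (ℕ → K)}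

theorem Mem.meet (G : Consistent n C') {κ : Fin n → K} (h : Mem n C κ) (h' : Mem n C' κ) :
    ∃ κ, κ ∈ C ∧ κ ∈ C' := by
  obtain ⟨a, ha, e⟩ := h
  obtain ⟨b, hb, e'⟩ := h'
  exact ⟨a, ha, G.sat b hb a fun p hp => (e ⟨p, hp⟩).trans (e' ⟨p, hp⟩).symm⟩

theorem Mem.sw (G : Consistent n C) {κ : Fin n → K} (h : Mem n C κ) (θ : K) :
    Mem n C (sw θ κ) := by
  obtain ⟨a, ha, e⟩ := h
  by_cases h0 : θ = 0
  · subst h0
    refine ⟨a, ha, fun p => ?_⟩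
    simp [Bk.sw, e]
  · obtain ⟨μ, -, hA⟩ := G.kempe a ha θ h0
    refine ⟨_, hA (fun _ => true) fun _ _ _ => rfl, fun p => ?_⟩
    by_cases h1 : κ p = θ <;> simp [Bk.sw, e, h1]

theorem Mem.eqv (G : Consistent n C) {κ κ' : Fin n → K} (h : Mem n C κ) (e : eqv κ κ') :
    Mem n C κ' := by
  obtain ⟨θ, η, rfl⟩ := e
  exact (h.sw G θ).sw G η

theorem Mem.tw (G : Consistent n C) {κ : Fin n → K} (h : Mem n C κ) {θ : K} (h0 : θ ≠ 0)
    {a b c d : Fin n} (hab : a < b) (hbc : b < c) (hcd : c < d)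
    (hN : ∀ p, κ p ≠ θ ↔ p = a ∨ p = b ∨ p = c ∨ p = d) :
    Mem n C (fl θ a b κ) ∨ Mem n C (fl θ b c κ) := by
  obtain ⟨k, hk, e⟩ := h
  obtain ⟨μ, ⟨m1, m2⟩, hA⟩ := G.kempe k hk θ h0
  have N : ∀ p < n, k p ≠ θ ↔ p = a.1 ∨ p = b.1 ∨ p = c.1 ∨ p = d.1 := by
    intro p hp
    have := hN ⟨p, hp⟩
    rw [← e] at this
    simpa [Fin.ext_iff] using this
  have ha := a.2
  have hb := b.2
  have hc := c.2
  have hd := d.2
  have hab' : a.1 < b.1 := hab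
  have hbc' : b.1 < c.1 := hbc
  have hcd' : c.1 < d.1 := hcd
  have Na : k a ≠ θ := (N a ha).2 (by simp)
  have Nb : k b ≠ θ := (N b hb).2 (by simp)
  have Nc : k c ≠ θ := (N c hc).2 (by simp)
  have Nd : k d ≠ θ := (N d hd).2 (by simp)
  obtain ⟨a1, a2, a3, a4⟩ := m1 a ha Na
  obtain ⟨b1, b2, b3, b4⟩ := m1 b hb Nb
  obtain ⟨c1, c2, c3, c4⟩ := m1 c hc Nc
  obtain ⟨d1, d2, d3, d4⟩ := m1 d hd Nd
  have a5 := (N _ a1).1 a2
  have b5 := (N _ b1).1 b2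
  have c5 := (N _ c1).1 c2
  have d5 := (N _ d1).1 d2
  have x := m2 a ha b hb Na Nb hab'
  have key : ∀ i j : Fin n, k i ≠ θ → k j ≠ θ →
      (∀ p < n, k p ≠ θ → ((μ p = i.1 ∨ μ p = j.1) ↔ (p = i.1 ∨ p = j.1))) →
      Mem n C (fl θ i j κ) := by
    intro i j hi hj hp
    refine ⟨_, hA (fun p => decide (p = i.1 ∨ p = j.1)) fun p h1 h2 => by
      simp only [decide_eq_decide]; exact hp p h1 h2, fun p => ?_⟩
    by_cases h1 : p = i ∨ p = j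
    · have h2 : k p ≠ θ := by rcases h1 with rfl | rfl <;> assumption
      have h3 : p.1 = i.1 ∨ p.1 = j.1 := h1.imp (congrArg _) (congrArg _)
      rw [e] at h2
      simp [fl, h1, h2, h3, e]
    · have h3 : ¬ (p.1 = i.1 ∨ p.1 = j.1) := fun h => h1 (h.imp Fin.ext Fin.ext)
      simp [fl, h1, h3, e]
  by_cases h1 : μ a = b
  · left
    have h2 : μ b = a := by rw [← h1, a4]
    refine key a b Na Nb fun p hp hq => ?_
    obtain ⟨-, -, -, q4⟩ := m1 p hp hq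
    constructor
    · rintro (h | h)
      · right; rw [← q4, h, h1]
      · left; rw [← q4, h, h2]
    · rintro (rfl | rfl)
      · exact Or.inr h1
      · exact Or.inl h2
  · right
    have h1 : μ b = c := by
      rcases a5 with h | h | h | h
      · exact absurd h a3
      · exact absurd h h1
      · have := x (by omega)
        omega
      · have := x (by omega)
        omega
    have h2 : μ c = b := by rw [← h1, b4]
    refine key b c Nb Nc fun p hp hq => ?_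
    obtain ⟨-, -, -, q4⟩ := m1 p hp hq
    constructor
    · rintro (h | h)
      · right; rw [← q4, h, h1]
      · left; rw [← q4, h, h2]
    · rintro (rfl | rfl)
      · exact Or.inr h1
      · exact Or.inl h2

/-- the side conditions of a clause -/
def ClOk (κ : Fin n → K) (θ : K) (a b c d : Fin n) (κ1 κ2 : Fin n → K) : Prop :=
  θ ≠ 0 ∧ a < b ∧ b < c ∧ c < d ∧ (∀ p, κ p ≠ θ ↔ p = a ∨ p = b ∨ p = c ∨ p = d) ∧
    eqv (fl θ a b κ) κ1 ∧ eqv (fl θ b c κ) κ2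

instance (κ : Fin n → K) (θ : K) (a b c d : Fin n) (κ1 κ2 : Fin n → K) :
    Decidable (ClOk κ θ a b c d κ1 κ2) := by unfold ClOk; infer_instance

theorem cl (G : Consistent n C) (κ : Fin n → K) (θ : K) (a b c d : Fin n) (κ1 κ2 : Fin n → K)
    (h : ClOk κ θ a b c d κ1 κ2) (m : Mem n C κ) : Mem n C κ1 ∨ Mem n C κ2 :=
  (m.tw G h.1 h.2.1 h.2.2.1 h.2.2.2.1 h.2.2.2.2.1).imp (fun k => k.eqv G h.2.2.2.2.2.1)
    fun k => k.eqv G h.2.2.2.2.2.2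

theorem ne_of (G : Consistent n C) {c : ℕ → K} (h : (fun p => c p + c (p + 1)) ∈ C) {p : ℕ}
    (hp : p < n) : c p ≠ c (p + 1) := by
  intro e
  apply G.ne _ h p hp
  have : ∀ x : K, x + x = 0 := by decide
  simp only [e, this]

theorem k3 : ∀ x y z : K, x ≠ y → y ≠ z → z ≠ x →
    eqv ![x + y, y + z, z + x] ![(1, 0), (0, 1), (1, 1)] := by decide +kernel

theorem mem3 (G : Consistent 3 C) (h : Fan 3 C 0) : Mem 3 C ![(1, 0), (0, 1), (1, 1)] := by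
  obtain ⟨c, e, hc, -⟩ := h
  have h0 := ne_of G hc (p := 0) (by omega)
  have h1 := ne_of G hc (p := 1) (by omega)
  have h2 := ne_of G hc (p := 2) (by omega)
  rw [e] at h2
  refine Mem.eqv G ⟨_, hc, fun p => ?_⟩ (k3 _ _ _ h0 h1 h2)
  fin_cases p <;> simp [e]

theorem meet3 (G : Consistent 3 C) (G' : Consistent 3 C') (h : Fan 3 C 0) (h' : Fan 3 C' 0) :
    ∃ κ, κ ∈ C ∧ κ ∈ C' := (mem3 G h).meet G' (mem3 G' h')

/-- the words `abab`, `aabb`, `abba` -/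
def wQ : Fin 4 → K := ![(1, 0), (0, 1), (1, 0), (0, 1)]
def wR : Fin 4 → K := ![(1, 0), (1, 0), (0, 1), (0, 1)]
def wS : Fin 4 → K := ![(1, 0), (0, 1), (0, 1), (1, 0)]

theorem k40 : ∀ x y z u : K, x ≠ y → y ≠ z → z ≠ u → u ≠ x → z ≠ x →
    eqv ![x + y, y + z, z + u, u + x] wQ ∨ eqv ![x + y, y + z, z + u, u + x] wS := by
  decide +kernel

theorem k41 : ∀ x y z u : K, x ≠ y → y ≠ z → z ≠ u → u ≠ x → u ≠ y →
    eqv ![x + y, y + z, z + u, u + x] wQ ∨ eqv ![x + y, y + z, z + u, u + x] wR := by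
  decide +kernel

theorem ring4 (G : Consistent 4 C) {c : ℕ → K} (e : c 4 = c 0)
    (hc : (fun p => c p + c (p + 1)) ∈ C) :
    Mem 4 C ![c 0 + c 1, c 1 + c 2, c 2 + c 3, c 3 + c 0] ∧
      c 0 ≠ c 1 ∧ c 1 ≠ c 2 ∧ c 2 ≠ c 3 ∧ c 3 ≠ c 0 := by
  have h3 := ne_of G hc (p := 3) (by omega)
  rw [e] at h3
  refine ⟨⟨_, hc, fun p => ?_⟩, ne_of G hc (p := 0) (by omega), ne_of G hc (p := 1) (by omega),
    ne_of G hc (p := 2) (by omega), h3⟩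
  fin_cases p <;> simp [e]

theorem mem4 (G : Consistent 4 C) (h0 : Fan 4 C 0) (h1 : Fan 4 C 1) :
    (Mem 4 C wQ ∨ Mem 4 C wS) ∧ (Mem 4 C wQ ∨ Mem 4 C wR) ∧
      (Mem 4 C wQ → Mem 4 C wS ∨ Mem 4 C wR) := by
  refine ⟨?_, ?_, cl G wQ (1, 1) 0 1 2 3 wS wR (by decide +kernel)⟩
  · obtain ⟨c, e, hc, hf⟩ := h0
    obtain ⟨m, a0, a1, a2, a3⟩ := ring4 G e hc
    exact (k40 _ _ _ _ a0 a1 a2 a3 (hf 2 (by omega) (by omega))).imp (m.eqv G) (m.eqv G)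
  · obtain ⟨c, e, hc, hf⟩ := h1
    obtain ⟨m, a0, a1, a2, a3⟩ := ring4 G e hc
    exact (k41 _ _ _ _ a0 a1 a2 a3 (hf 3 (by omega) (by omega))).imp (m.eqv G) (m.eqv G)

theorem meet4 (G : Consistent 4 C) (G' : Consistent 4 C') (h : ∀ i < 4, Fan 4 C i)
    (h' : ∀ i < 4, Fan 4 C' i) : ∃ κ, κ ∈ C ∧ κ ∈ C' := by
  obtain ⟨a1, a2, a3⟩ := mem4 G (h 0 (by omega)) (h 1 (by omega))
  obtain ⟨b1, b2, b3⟩ := mem4 G' (h' 0 (by omega)) (h' 1 (by omega))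
  by_contra hn
  have n : ∀ κ, Mem 4 C κ → ¬ Mem 4 C' κ := fun κ x y => hn (x.meet G' y)
  have nQ := n wQ
  have nR := n wR
  have nS := n wS
  tauto

/-- the word with the single letters at `i` and `j` -/
def rep5 (i j : Fin 5) : Fin 5 → K :=
  fun p => if p = i then (1, 0) else if p = j then (0, 1) else (1, 1)

/-- the word of a colouring of the pentagon -/
def w5 (x y z u v : K) : Fin 5 → K := ![x + y, y + z, z + u, u + v, v + x]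

set_option synthInstance.maxSize 100000 in
theorem hub5 : ∀ x y z u v : K, x ≠ y → y ≠ z → z ≠ u → u ≠ v → v ≠ x → ∀ h : K,
    x ≠ h → y ≠ h → z ≠ h → u ≠ h → v ≠ h →
    eqv (w5 x y z u v) (rep5 0 1) ∨ eqv (w5 x y z u v) (rep5 1 2) ∨
      eqv (w5 x y z u v) (rep5 2 3) ∨ eqv (w5 x y z u v) (rep5 3 4) ∨
      eqv (w5 x y z u v) (rep5 4 0) := by
  decide +kernel

set_option synthInstance.maxSize 1024 in
theorem fan50 : ∀ x y z u v : K, x ≠ y → y ≠ z → z ≠ u → u ≠ v → v ≠ x → z ≠ x → u ≠ x →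
    eqv (w5 x y z u v) (rep5 4 0) ∨ eqv (w5 x y z u v) (rep5 3 0) ∨
      eqv (w5 x y z u v) (rep5 4 1) ∨ eqv (w5 x y z u v) (rep5 1 3) := by decide +kernel

set_option synthInstance.maxSize 1024 in
theorem fan51 : ∀ x y z u v : K, x ≠ y → y ≠ z → z ≠ u → u ≠ v → v ≠ x → u ≠ y → v ≠ y →
    eqv (w5 x y z u v) (rep5 0 1) ∨ eqv (w5 x y z u v) (rep5 4 1) ∨
      eqv (w5 x y z u v) (rep5 0 2) ∨ eqv (w5 x y z u v) (rep5 2 4) := by decide +kernel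

set_option synthInstance.maxSize 1024 in
theorem fan52 : ∀ x y z u v : K, x ≠ y → y ≠ z → z ≠ u → u ≠ v → v ≠ x → v ≠ z → x ≠ z →
    eqv (w5 x y z u v) (rep5 1 2) ∨ eqv (w5 x y z u v) (rep5 0 2) ∨
      eqv (w5 x y z u v) (rep5 1 3) ∨ eqv (w5 x y z u v) (rep5 3 0) := by decide +kernel

set_option synthInstance.maxSize 1024 in
theorem fan53 : ∀ x y z u v : K, x ≠ y → y ≠ z → z ≠ u → u ≠ v → v ≠ x → x ≠ u → y ≠ u →
    eqv (w5 x y z u v) (rep5 2 3) ∨ eqv (w5 x y z u v) (rep5 1 3) ∨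
      eqv (w5 x y z u v) (rep5 2 4) ∨ eqv (w5 x y z u v) (rep5 4 1) := by decide +kernel

set_option synthInstance.maxSize 1024 in
theorem fan54 : ∀ x y z u v : K, x ≠ y → y ≠ z → z ≠ u → u ≠ v → v ≠ x → y ≠ v → z ≠ v →
    eqv (w5 x y z u v) (rep5 3 4) ∨ eqv (w5 x y z u v) (rep5 2 4) ∨
      eqv (w5 x y z u v) (rep5 3 0) ∨ eqv (w5 x y z u v) (rep5 0 2) := by decide +kernel

/-- Boolean form: `a i` is the class with singletons `i, i+1`, `b i` the class `i, i+2`. -/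
def gb (a0 a1 a2 a3 a4 b0 b1 b2 b3 b4 : Bool) : Bool :=
  (!a0 || b0 || a4) && (!a0 || a1 || b4) && (!a1 || a0 || b1) && (!a1 || b0 || a2) &&
  (!a2 || b2 || a1) && (!a2 || a3 || b1) && (!a3 || a2 || b3) && (!a3 || b2 || a4) &&
  (!a4 || b4 || a3) && (!a4 || b3 || a0) && (!b0 || a0 || b3) && (!b0 || a1 || b2) &&
  (!b1 || b4 || a1) && (!b1 || b3 || a2) && (!b2 || a2 || b0) && (!b2 || a3 || b4) &&
  (!b3 || b1 || a3) && (!b3 || a4 || b0) && (!b4 || a4 || b2) && (!b4 || b1 || a0) &&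
  (a0 || a1 || a2 || a3 || a4) && (a4 || b3 || b4 || b1) && (a0 || b4 || b0 || b2) &&
  (a1 || b0 || b1 || b3) && (a2 || b1 || b2 || b4) && (a3 || b2 || b3 || b0)

theorem gb_meet : ∀ a0 a1 a2 a3 a4 b0 b1 b2 b3 b4 : Bool, gb a0 a1 a2 a3 a4 b0 b1 b2 b3 b4 = true →
    ∀ c0 c1 c2 c3 c4 d0 d1 d2 d3 d4 : Bool, gb c0 c1 c2 c3 c4 d0 d1 d2 d3 d4 = true →
    ((a0 && c0) || (a1 && c1) || (a2 && c2) || (a3 && c3) || (a4 && c4) ||
      (b0 && d0) || (b1 && d1) || (b2 && d2) || (b3 && d3) || (b4 && d4)) = true := by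
  decide +kernel

theorem ring5 (G : Consistent 5 C) {c : ℕ → K} (e : c 5 = c 0)
    (hc : (fun p => c p + c (p + 1)) ∈ C) :
    Mem 5 C (w5 (c 0) (c 1) (c 2) (c 3) (c 4)) ∧
      c 0 ≠ c 1 ∧ c 1 ≠ c 2 ∧ c 2 ≠ c 3 ∧ c 3 ≠ c 4 ∧ c 4 ≠ c 0 := by
  have h4 := ne_of G hc (p := 4) (by omega)
  rw [e] at h4
  refine ⟨⟨_, hc, fun p => ?_⟩, ne_of G hc (p := 0) (by omega), ne_of G hc (p := 1) (by omega),
    ne_of G hc (p := 2) (by omega), ne_of G hc (p := 3) (by omega), h4⟩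
  fin_cases p <;> simp [e, w5]

open Classical in
theorem mem5 (G : Consistent 5 C) (hf : ∀ i < 5, Fan 5 C i) (hh : Hub 5 C) :
    gb (decide (Mem 5 C (rep5 0 1))) (decide (Mem 5 C (rep5 1 2))) (decide (Mem 5 C (rep5 2 3)))
      (decide (Mem 5 C (rep5 3 4))) (decide (Mem 5 C (rep5 4 0))) (decide (Mem 5 C (rep5 0 2)))
      (decide (Mem 5 C (rep5 1 3))) (decide (Mem 5 C (rep5 2 4))) (decide (Mem 5 C (rep5 3 0)))
      (decide (Mem 5 C (rep5 4 1))) = true := by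
  have ha01 := cl G (rep5 0 1) (1, 0) 1 2 3 4 (rep5 0 2) (rep5 4 0) (by decide +kernel)
  have ha02 := cl G (rep5 0 1) (0, 1) 0 2 3 4 (rep5 1 2) (rep5 4 1) (by decide +kernel)
  have ha11 := cl G (rep5 1 2) (1, 0) 0 2 3 4 (rep5 0 1) (rep5 1 3) (by decide +kernel)
  have ha12 := cl G (rep5 1 2) (0, 1) 0 1 3 4 (rep5 0 2) (rep5 2 3) (by decide +kernel)
  have ha21 := cl G (rep5 2 3) (1, 0) 0 1 3 4 (rep5 2 4) (rep5 1 2) (by decide +kernel)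
  have ha22 := cl G (rep5 2 3) (0, 1) 0 1 2 4 (rep5 3 4) (rep5 1 3) (by decide +kernel)
  have ha31 := cl G (rep5 3 4) (1, 0) 0 1 2 4 (rep5 2 3) (rep5 3 0) (by decide +kernel)
  have ha32 := cl G (rep5 3 4) (0, 1) 0 1 2 3 (rep5 2 4) (rep5 4 0) (by decide +kernel)
  have ha41 := cl G (rep5 4 0) (1, 0) 0 1 2 3 (rep5 4 1) (rep5 3 4) (by decide +kernel)
  have ha42 := cl G (rep5 4 0) (0, 1) 1 2 3 4 (rep5 3 0) (rep5 0 1) (by decide +kernel)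
  have hb01 := cl G (rep5 0 2) (1, 0) 1 2 3 4 (rep5 0 1) (rep5 3 0) (by decide +kernel)
  have hb02 := cl G (rep5 0 2) (0, 1) 0 1 3 4 (rep5 1 2) (rep5 2 4) (by decide +kernel)
  have hb11 := cl G (rep5 1 3) (1, 0) 0 2 3 4 (rep5 4 1) (rep5 1 2) (by decide +kernel)
  have hb12 := cl G (rep5 1 3) (0, 1) 0 1 2 4 (rep5 3 0) (rep5 2 3) (by decide +kernel)
  have hb21 := cl G (rep5 2 4) (1, 0) 0 1 3 4 (rep5 2 3) (rep5 0 2) (by decide +kernel)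
  have hb22 := cl G (rep5 2 4) (0, 1) 0 1 2 3 (rep5 3 4) (rep5 4 1) (by decide +kernel)
  have hb31 := cl G (rep5 3 0) (1, 0) 0 1 2 4 (rep5 1 3) (rep5 3 4) (by decide +kernel)
  have hb32 := cl G (rep5 3 0) (0, 1) 1 2 3 4 (rep5 4 0) (rep5 0 2) (by decide +kernel)
  have hb41 := cl G (rep5 4 1) (1, 0) 0 1 2 3 (rep5 4 0) (rep5 2 4) (by decide +kernel)
  have hb42 := cl G (rep5 4 1) (0, 1) 0 2 3 4 (rep5 1 3) (rep5 0 1) (by decide +kernel)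
  have h : Mem 5 C (rep5 0 1) ∨ Mem 5 C (rep5 1 2) ∨ Mem 5 C (rep5 2 3) ∨ Mem 5 C (rep5 3 4) ∨
      Mem 5 C (rep5 4 0) := by
    obtain ⟨c, h, e, hc, hn⟩ := hh
    obtain ⟨m, a0, a1, a2, a3, a4⟩ := ring5 G e hc
    exact (hub5 _ _ _ _ _ a0 a1 a2 a3 a4 h (hn 0 (by omega)) (hn 1 (by omega)) (hn 2 (by omega))
      (hn 3 (by omega)) (hn 4 (by omega))).imp (m.eqv G) (Or.imp (m.eqv G) (Or.imp (m.eqv G)
      (Or.imp (m.eqv G) (m.eqv G))))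
  have f0 : Mem 5 C (rep5 4 0) ∨ Mem 5 C (rep5 3 0) ∨ Mem 5 C (rep5 4 1) ∨ Mem 5 C (rep5 1 3) := by
    obtain ⟨c, e, hc, hn⟩ := hf 0 (by omega)
    obtain ⟨m, a0, a1, a2, a3, a4⟩ := ring5 G e hc
    exact (fan50 _ _ _ _ _ a0 a1 a2 a3 a4 (hn 2 (by omega) (by omega))
      (hn 3 (by omega) (by omega))).imp (m.eqv G) (Or.imp (m.eqv G) (Or.imp (m.eqv G) (m.eqv G)))
  have f1 : Mem 5 C (rep5 0 1) ∨ Mem 5 C (rep5 4 1) ∨ Mem 5 C (rep5 0 2) ∨ Mem 5 C (rep5 2 4) := by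
    obtain ⟨c, e, hc, hn⟩ := hf 1 (by omega)
    obtain ⟨m, a0, a1, a2, a3, a4⟩ := ring5 G e hc
    exact (fan51 _ _ _ _ _ a0 a1 a2 a3 a4 (hn 3 (by omega) (by omega))
      (hn 4 (by omega) (by omega))).imp (m.eqv G) (Or.imp (m.eqv G) (Or.imp (m.eqv G) (m.eqv G)))
  have f2 : Mem 5 C (rep5 1 2) ∨ Mem 5 C (rep5 0 2) ∨ Mem 5 C (rep5 1 3) ∨ Mem 5 C (rep5 3 0) := by
    obtain ⟨c, e, hc, hn⟩ := hf 2 (by omega)
    obtain ⟨m, a0, a1, a2, a3, a4⟩ := ring5 G e hc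
    exact (fan52 _ _ _ _ _ a0 a1 a2 a3 a4 (hn 4 (by omega) (by omega))
      (hn 0 (by omega) (by omega))).imp (m.eqv G) (Or.imp (m.eqv G) (Or.imp (m.eqv G) (m.eqv G)))
  have f3 : Mem 5 C (rep5 2 3) ∨ Mem 5 C (rep5 1 3) ∨ Mem 5 C (rep5 2 4) ∨ Mem 5 C (rep5 4 1) := by
    obtain ⟨c, e, hc, hn⟩ := hf 3 (by omega)
    obtain ⟨m, a0, a1, a2, a3, a4⟩ := ring5 G e hc
    exact (fan53 _ _ _ _ _ a0 a1 a2 a3 a4 (hn 0 (by omega) (by omega))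
      (hn 1 (by omega) (by omega))).imp (m.eqv G) (Or.imp (m.eqv G) (Or.imp (m.eqv G) (m.eqv G)))
  have f4 : Mem 5 C (rep5 3 4) ∨ Mem 5 C (rep5 2 4) ∨ Mem 5 C (rep5 3 0) ∨ Mem 5 C (rep5 0 2) := by
    obtain ⟨c, e, hc, hn⟩ := hf 4 (by omega)
    obtain ⟨m, a0, a1, a2, a3, a4⟩ := ring5 G e hc
    exact (fan54 _ _ _ _ _ a0 a1 a2 a3 a4 (hn 1 (by omega) (by omega))
      (hn 2 (by omega) (by omega))).imp (m.eqv G) (Or.imp (m.eqv G) (Or.imp (m.eqv G) (m.eqv G)))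
  simp only [gb, Bool.and_eq_true, Bool.or_eq_true, Bool.not_eq_true', decide_eq_true_eq,
    decide_eq_false_iff_not, or_assoc]
  rw [imp_iff_not_or] at ha01 ha02 ha11 ha12 ha21 ha22 ha31 ha32 ha41 ha42 hb01 hb02 hb11 hb12
  rw [imp_iff_not_or] at hb21 hb22 hb31 hb32 hb41 hb42
  exact ⟨⟨⟨⟨⟨⟨⟨⟨⟨⟨⟨⟨⟨⟨⟨⟨⟨⟨⟨⟨⟨⟨⟨⟨⟨ha01, ha02⟩, ha11⟩, ha12⟩, ha21⟩, ha22⟩, ha31⟩, ha32⟩, ha41⟩, ha42⟩,
    hb01⟩, hb02⟩, hb11⟩, hb12⟩, hb21⟩, hb22⟩, hb31⟩, hb32⟩, hb41⟩, hb42⟩, h⟩, f0⟩, f1⟩, f2⟩, f3⟩, f4⟩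

theorem meet5 (G : Consistent 5 C) (G' : Consistent 5 C') (hf : ∀ i < 5, Fan 5 C i) (hh : Hub 5 C)
    (hf' : ∀ i < 5, Fan 5 C' i) (hh' : Hub 5 C') : ∃ κ, κ ∈ C ∧ κ ∈ C' := by
  have := gb_meet _ _ _ _ _ _ _ _ _ _ (mem5 G hf hh) _ _ _ _ _ _ _ _ _ _ (mem5 G' hf' hh')
  simp only [Bool.and_eq_true, Bool.or_eq_true, decide_eq_true_eq, or_assoc] at this
  rcases this with h | h | h | h | h | h | h | h | h | h <;> exact h.1.meet G' h.2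

end Pool.Agent.FCT.Bk
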