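import Pool.Agent.Lib.MP_fe5cb4_co.FCT.Basic
import Pool.Agent.Lib.MP_fe5cb4_co.FCT.BkFin

/-!
The two sides of a chordless cycle in a minimal counterexample.
-/

set_option autoImplicit false

namespace Pool.Agent.FCT.Bk

open Relation

variable {V : Type} {T : Tri V}

/-- A chordless cycle that bounds no face, as a periodic sequence. -/
structure Cyc (T : Tri V) (r : ℕ) (ρ : ℕ → V) : Prop where
  three : 3 ≤ r
  inj : ∀ p q, ρ p = ρ q ↔ p % r = q % r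
  adj : ∀ p, T.Adj (ρ p) (ρ (p + 1))
  chord : ∀ p q, T.Adj (ρ p) (ρ q) → ρ q = ρ (p + 1) ∨ ρ p = ρ (q + 1)
  noface : ∀ p q, ¬ T.F (ρ p) (ρ (p + 1)) (ρ q)

/-- vertices of the cycle -/
def On (ρ : ℕ → V) (v : V) : Prop := ∃ p, v = ρ p

/-- edges of the cycle -/
def CE (ρ : ℕ → V) (a b : V) : Prop :=
  ∃ p, (a = ρ p ∧ b = ρ (p + 1)) ∨ (b = ρ p ∧ a = ρ (p + 1))

variable {r : ℕ} {ρ : ℕ → V}

theorem CE.symm {a b : V} (h : CE ρ a b) : CE ρ b a := h.imp fun _ => Or.symm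

theorem CE.on {a b : V} (h : CE ρ a b) : On ρ a := by
  obtain ⟨p, ⟨e, -⟩ | ⟨-, e⟩⟩ := h
  · exact ⟨_, e⟩
  · exact ⟨_, e⟩

theorem Cyc.succ (H : Cyc T r ρ) {p q : ℕ} (e : ρ p = ρ q) : ρ (p + 1) = ρ (q + 1) := by
  rw [H.inj] at e ⊢
  exact Nat.ModEq.add_right 1 e

theorem Cyc.pred (H : Cyc T r ρ) {p q : ℕ} (e : ρ (p + 1) = ρ (q + 1)) : ρ p = ρ q := by
  rw [H.inj] at e ⊢
  exact Nat.ModEq.add_right_cancel' 1 e

theorem Cyc.ne2 (H : Cyc T r ρ) (p : ℕ) : ρ p ≠ ρ (p + 2) := by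
  intro e
  rw [H.inj] at e
  have h3 := H.three
  have : r ∣ p + 2 - p := (Nat.modEq_iff_dvd' (by omega)).1 e
  have := Nat.le_of_dvd (by omega) this
  omega

theorem Cyc.mod (H : Cyc T r ρ) (p : ℕ) : ρ (p % r) = ρ p := by
  rw [H.inj, Nat.mod_mod]

theorem Cyc.ce (H : Cyc T r ρ) (p : ℕ) (b : V) :
    CE ρ (ρ (p + 1)) b ↔ b = ρ p ∨ b = ρ (p + 2) := by
  constructor
  · rintro ⟨q, ⟨e1, e2⟩ | ⟨e1, e2⟩⟩
    · right; rw [e2]; exact (H.succ e1).symm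
    · left; rw [e1]; exact (H.pred e2).symm
  · rintro (rfl | rfl)
    · exact ⟨p, Or.inr ⟨rfl, rfl⟩⟩
    · exact ⟨p + 1, Or.inl ⟨rfl, rfl⟩⟩

theorem Cyc.on_succ (H : Cyc T r ρ) {a : V} (h : On ρ a) : ∃ p, a = ρ (p + 1) := by
  obtain ⟨p, rfl⟩ := h
  refine ⟨p + r - 1, ?_⟩
  have h3 := H.three
  rw [H.inj, Nat.sub_add_cancel (by omega), Nat.add_mod_right]

theorem Cyc.ce_of (H : Cyc T r ρ) {a b : V} (ha : On ρ a) (hb : On ρ b) (h : T.Adj a b) :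
    CE ρ a b := by
  obtain ⟨p, rfl⟩ := ha
  obtain ⟨q, rfl⟩ := hb
  rcases H.chord p q h with e | e
  · exact ⟨p, Or.inl ⟨rfl, e⟩⟩
  · exact ⟨q, Or.inr ⟨rfl, e⟩⟩

/-- the side function -/
structure Sd (T : Tri V) (ρ : ℕ → V) (σ : V → V → V → ZMod 2) : Prop where
  s12 : ∀ {a b c}, T.F a b c → σ b a c = σ a b c
  s23 : ∀ {a b c}, T.F a b c → σ a c b = σ a b c
  on : ∀ {a b c}, T.F a b c → CE ρ a b → σ a b (T.opp a b c) ≠ σ a b c
  off : ∀ {a b c}, T.F a b c → ¬ CE ρ a b → σ a b (T.opp a b c) = σ a b c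

theorem Cyc.sides [Fintype V] (M : MC T) (H : Cyc T r ρ) : ∃ σ, Sd T ρ σ := by
  classical
  obtain ⟨σ, h⟩ := M.sides (fun a b => if CE ρ a b then 1 else 0)
    (fun a b => if_congr ⟨CE.symm, CE.symm⟩ rfl rfl)
    (fun a b hab => by
      have : CE ρ a b := by
        by_contra hn
        simp [hn] at hab
      obtain ⟨p, ⟨rfl, rfl⟩ | ⟨rfl, rfl⟩⟩ := this
      · exact H.adj p
      · exact (H.adj p).symm)
    (fun a => by
      by_cases ha : On ρ a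
      · obtain ⟨p, rfl⟩ := H.on_succ ha
        have : ∀ b, (if CE ρ (ρ (p + 1)) b then (1 : ZMod 2) else 0) =
            (if b = ρ p then 1 else 0) + (if b = ρ (p + 2) then 1 else 0) := by
          intro b
          rw [H.ce]
          by_cases h1 : b = ρ p
          · have : b ≠ ρ (p + 2) := h1 ▸ H.ne2 p
            simp [this, ← h1]
          · by_cases h2 : b = ρ (p + 2) <;> simp [h1, h2, (H.ne2 p).symm]
        simp only [this, Finset.sum_add_distrib, Finset.sum_ite_eq', Finset.mem_univ, if_true]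
        decide
      · exact Finset.sum_eq_zero fun b _ => if_neg fun h => ha h.on)
  have k1 : ∀ x y : ZMod 2, x + y = 1 → y ≠ x := by decide
  have k0 : ∀ x y : ZMod 2, x + y = 0 → y = x := by decide
  refine ⟨σ, fun hf => (h _ _ _ hf).1, fun hf => (h _ _ _ hf).2.1, fun hf hc => ?_, fun hf hc => ?_⟩
  · exact k1 _ _ (by rw [(h _ _ _ hf).2.2, if_pos hc])
  · exact k0 _ _ (by rw [(h _ _ _ hf).2.2, if_neg hc])

/-- apexes on the side `s` -/
structure Ap (T : Tri V) (ρ : ℕ → V) (σ : V → V → V → ZMod 2) (s : ZMod 2) (w : ℕ → V) : Prop where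
  face : ∀ p, T.F (ρ p) (ρ (p + 1)) (w p)
  side : ∀ p, σ (ρ p) (ρ (p + 1)) (w p) = s

variable {σ : V → V → V → ZMod 2} {s : ZMod 2} {w : ℕ → V}

theorem Sd.ap (H : Cyc T r ρ) (S : Sd T ρ σ) (s : ZMod 2) : ∃ w, Ap T ρ σ s w := by
  have k : ∀ x y s : ZMod 2, y ≠ x → x ≠ s → y = s := by decide
  have : ∀ p, ∃ c, T.F (ρ p) (ρ (p + 1)) c ∧ σ (ρ p) (ρ (p + 1)) c = s := by
    intro p
    obtain ⟨c, hc⟩ := H.adj p
    by_cases h : σ (ρ p) (ρ (p + 1)) c = s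
    · exact ⟨c, hc, h⟩
    · exact ⟨_, T.opp_F hc, k _ _ _ (S.on hc ⟨p, Or.inl ⟨rfl, rfl⟩⟩) h⟩
  choose w h1 h2 using this
  exact ⟨w, h1, h2⟩

theorem Ap.uniq (S : Sd T ρ σ) (A : Ap T ρ σ s w) {p : ℕ} {x : V}
    (h : T.F (ρ p) (ρ (p + 1)) x) (e : σ (ρ p) (ρ (p + 1)) x = s) : x = w p := by
  rcases T.two (A.face p) h with h1 | h1
  · exact h1
  · exact absurd (by rw [← h1, e, A.side]) (S.on (A.face p) ⟨p, Or.inl ⟨rfl, rfl⟩⟩)

theorem Ap.off (H : Cyc T r ρ) (A : Ap T ρ σ s w) (p : ℕ) : ¬ On ρ (w p) := by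
  rintro ⟨q, e⟩
  exact H.noface p q (e ▸ A.face p)

/-- the faces of the patch -/
def PP (T : Tri V) (ρ w : ℕ → V) (a b c : V) : Prop :=
  ReflTransGen (Step T fun a b => ¬ CE ρ a b) (ρ 0, ρ 1, w 0) (a, b, c)

/-- the inner edges -/
def JJ (T : Tri V) (ρ w : ℕ → V) (a b : V) : Prop := ¬ CE ρ a b ∧ ∃ c, PP T ρ w a b c

/-- the inner vertices -/
def In (T : Tri V) (ρ w : ℕ → V) (v : V) : Prop := ¬ On ρ v ∧ ∃ b c, PP T ρ w v b c

theorem PP.p12 {a b c : V} (h : PP T ρ w a b c) : PP T ρ w b a c := h.tail (Or.inl rfl)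

theorem PP.p23 {a b c : V} (h : PP T ρ w a b c) : PP T ρ w a c b := h.tail (Or.inr (Or.inl rfl))

theorem PP.opp {a b c : V} (h : PP T ρ w a b c) (n : ¬ CE ρ a b) :
    PP T ρ w a b (T.opp a b c) := h.tail (Or.inr (Or.inr ⟨n, rfl⟩))

theorem pp_aux (S : Sd T ρ σ) (A : Ap T ρ σ s w) {t : V × V × V}
    (h : ReflTransGen (Step T fun a b => ¬ CE ρ a b) (ρ 0, ρ 1, w 0) t) :
    (T.F t.1 t.2.1 t.2.2 ∧ σ t.1 t.2.1 t.2.2 = s) ∧
      ReflTransGen (Step T (JJ T ρ w)) (ρ 0, ρ 1, w 0) t := by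
  induction h with
  | refl => exact ⟨⟨A.face 0, A.side 0⟩, .refl⟩
  | tail h1 h2 ih =>
    obtain ⟨⟨f, e⟩, k⟩ := ih
    rcases h2 with rfl | rfl | ⟨n, rfl⟩
    · exact ⟨⟨T.s12 f, (S.s12 f).trans e⟩, k.tail (Or.inl rfl)⟩
    · exact ⟨⟨T.s23 f, (S.s23 f).trans e⟩, k.tail (Or.inr (Or.inl rfl))⟩
    · exact ⟨⟨T.opp_F f, (S.off f n).trans e⟩, k.tail (Or.inr (Or.inr ⟨⟨n, _, h1⟩, rfl⟩))⟩

theorem PP.F (S : Sd T ρ σ) (A : Ap T ρ σ s w) {a b c : V} (h : PP T ρ w a b c) : T.F a b c :=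
  (pp_aux S A h).1.1

theorem PP.side (S : Sd T ρ σ) (A : Ap T ρ σ s w) {a b c : V} (h : PP T ρ w a b c) :
    σ a b c = s := (pp_aux S A h).1.2

theorem JJ.symm {a b : V} (h : JJ T ρ w a b) : JJ T ρ w b a :=
  ⟨fun k => h.1 k.symm, h.2.imp fun _ => PP.p12⟩

theorem JJ.inner (S : Sd T ρ σ) (A : Ap T ρ σ s w) {a b c : V} (h : JJ T ρ w a b)
    (f : T.F a b c) : PP T ρ w a b c := by
  obtain ⟨n, d, hd⟩ := h
  rcases T.two (hd.F S A) f with rfl | rfl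
  · exact hd
  · exact hd.opp n

theorem PP.rot {v b c : V} (h : PP T ρ w v b c) (m : ℕ)
    (n : ∀ j, 1 ≤ j → j ≤ m → ¬ CE ρ v (T.rot v b c j)) (k : ℕ) (hk : k ≤ m) :
    PP T ρ w v (T.rot v b c k) (T.rot v b c (k + 1)) := by
  induction k with
  | zero => exact h
  | succ k ih => exact (ih (by omega)).p23.opp (n _ (by omega) hk)

/-- inner edges between inner vertices -/
def XH (T : Tri V) (ρ w : ℕ → V) (a b : V) : Prop := T.Adj a b ∧ In T ρ w a ∧ In T ρ w b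

variable [Fintype V]

theorem In.all (M : MC T) (S : Sd T ρ σ) (A : Ap T ρ σ s w) {v x y : V} (h : In T ρ w v)
    (f : T.F v x y) : PP T ρ w v x y := by
  obtain ⟨n, b, c, h⟩ := h
  obtain ⟨k, -, e⟩ := M.face_rot (h.F S A) f
  have := h.rot k (fun j _ _ e => n e.on) k le_rfl
  rcases e with ⟨rfl, rfl⟩ | ⟨rfl, rfl⟩
  · exact this
  · exact this.p23

theorem In.jj (M : MC T) (S : Sd T ρ σ) (A : Ap T ρ σ s w) {a b : V} (h : In T ρ w a)
    (f : T.Adj a b) : JJ T ρ w a b :=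
  ⟨fun e => h.1 e.on, f.imp fun _ k => h.all M S A k⟩

omit [Fintype V] in
theorem JJ.inn (H : Cyc T r ρ) (S : Sd T ρ σ) (A : Ap T ρ σ s w) {a b : V} (h : JJ T ρ w a b) :
    In T ρ w a ∨ In T ρ w b := by
  obtain ⟨n, c, hc⟩ := h
  by_cases ha : On ρ a
  · by_cases hb : On ρ b
    · exact absurd (H.ce_of ha hb ⟨c, hc.F S A⟩) n
    · exact Or.inr ⟨hb, _, _, hc.p12⟩
  · exact Or.inl ⟨ha, _, _, hc⟩

theorem arc (M : MC T) (H : Cyc T r ρ) (S : Sd T ρ σ) (A : Ap T ρ σ s w) (p : ℕ)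
    (h : PP T ρ w (ρ p) (ρ (p + 1)) (w p)) :
    PP T ρ w (ρ (p + 1)) (ρ (p + 2)) (w (p + 1)) ∧ EqvGen (XH T ρ w) (w p) (w (p + 1)) := by
  classical
  have f : T.F (ρ (p + 1)) (ρ p) (w p) := T.s12 (A.face p)
  have ex : ∃ m, m < T.deg (ρ (p + 1)) ∧ T.rot (ρ (p + 1)) (ρ p) (w p) m = ρ (p + 2) :=
    M.rot_surj f (H.adj (p + 1))
  obtain ⟨hm, em⟩ := Nat.find_spec ex
  have lt := fun j => @Nat.find_min _ _ ex j
  generalize Nat.find ex = m at hm em lt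
  have m0 : m ≠ 0 := by
    rintro rfl
    exact H.ne2 p em
  obtain ⟨m, rfl⟩ := Nat.exists_eq_succ_of_ne_zero m0
  have nce : ∀ j, 1 ≤ j → j ≤ m → ¬ CE ρ (ρ (p + 1)) (T.rot (ρ (p + 1)) (ρ p) (w p) j) := by
    intro j h1 h2 hc
    rcases (H.ce p _).1 hc with e | e
    · have := M.rot_inj f j (by omega) 0 (by omega) e
      omega
    · exact lt j (by omega) ⟨by omega, e⟩
  have hp := h.p12.rot m nce
  have hin : ∀ j, 1 ≤ j → j ≤ m → In T ρ w (T.rot (ρ (p + 1)) (ρ p) (w p) j) := fun j h1 h2 =>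
    ⟨fun o => nce j h1 h2 (H.ce_of ⟨_, rfl⟩ o (T.rot_adj f j)), _, _, (hp j h2).p12⟩
  have last := (hp m le_rfl).p23
  rw [show T.rot (ρ (p + 1)) (ρ p) (w p) (m + 1) = ρ (p + 2) from em] at last
  have e : T.rot (ρ (p + 1)) (ρ p) (w p) m = w (p + 1) := A.uniq S (last.F S A) (last.side S A)
  refine ⟨e ▸ last, ?_⟩
  have m1 : 1 ≤ m := by
    rcases Nat.eq_zero_or_pos m with rfl | h1
    · exact absurd ⟨_, em⟩ (A.off H p)
    · exact h1
  have : ∀ j, 1 ≤ j → j ≤ m → EqvGen (XH T ρ w) (w p) (T.rot (ρ (p + 1)) (ρ p) (w p) j) := by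
    intro j h1 h2
    induction j, h1 using Nat.le_induction with
    | base => exact .refl _
    | succ j h1 ih =>
      exact .trans _ _ _ (ih (by omega)) (.rel _ _ ⟨T.adj23 (T.rot_F f j), hin j h1 (by omega),
        hin _ (by omega) h2⟩)
  exact e ▸ this m m1 le_rfl

theorem arcs (M : MC T) (H : Cyc T r ρ) (S : Sd T ρ σ) (A : Ap T ρ σ s w) (p : ℕ) :
    PP T ρ w (ρ p) (ρ (p + 1)) (w p) ∧ EqvGen (XH T ρ w) (w 0) (w p) := by
  induction p with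
  | zero => exact ⟨.refl, .refl _⟩
  | succ p ih => exact ⟨(arc M H S A p ih.1).1, .trans _ _ _ ih.2 (arc M H S A p ih.1).2⟩

theorem patch (M : MC T) (H : Cyc T r ρ) (S : Sd T ρ σ) (A : Ap T ρ σ s w) :
    Patch T (PP T ρ w) (JJ T ρ w) r ρ w where
  p12 _ h := h.p12
  p23 _ h := h.p23
  symm := JJ.symm
  inner h f := h.inner S A f
  close := by rw [H.inj]; simp
  face p _ := ⟨A.face p, (arcs M H S A p).1, fun h => h.1 ⟨p, Or.inl ⟨rfl, rfl⟩⟩⟩
  surj a b c f h n := by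
    have hc : CE ρ a b := by
      by_contra hc
      exact n ⟨hc, c, h⟩
    have h3 := H.three
    obtain ⟨p, hp⟩ := hc
    have e1 : ρ p = ρ (p % r) := (H.mod p).symm
    have e2 := H.succ e1
    rw [e1, e2] at hp
    refine ⟨p % r, Nat.mod_lt _ (by omega), ?_⟩
    rcases hp with ⟨rfl, rfl⟩ | ⟨rfl, rfl⟩
    · exact ⟨A.uniq S f (h.side S A), rfl⟩
    · exact ⟨A.uniq S (T.s12 f) (h.p12.side S A), Sym2.eq_swap⟩
  inj p hp q hq _ e := by
    rcases Sym2.eq_iff.1 e with ⟨e1, -⟩ | ⟨e1, e2⟩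
    · rwa [H.inj, Nat.mod_eq_of_lt hp, Nat.mod_eq_of_lt hq] at e1
    · exact absurd (e2.symm.trans (H.succ e1)) (H.ne2 q)
  conn p _ := (pp_aux S A (arcs M H S A p).1).2

theorem Ap.inn (M : MC T) (H : Cyc T r ρ) (S : Sd T ρ σ) (A : Ap T ρ σ s w) (p : ℕ) :
    In T ρ w (w p) := ⟨A.off H p, _, _, (arcs M H S A p).1.p23.p12⟩

/-- contraction of the inner vertices, possibly together with the vertex `u` -/
theorem contract (M : MC T) (H : Cyc T r ρ) (S : Sd T ρ σ) (A : Ap T ρ σ s w) (u : V)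
    (B : V → V → Prop) (hB : ∀ a b, B a b → T.Adj a b ∧ a = u ∧ In T ρ w b)
    (hne : ∃ a b, XH T ρ w a b ∨ B a b) :
    ∃ c : V → K, (fun p => c (ρ p) + c (ρ (p + 1))) ∈ Words T (JJ T ρ w) r ρ ∧
      (∀ a b, B a b → c a = c b) ∧ (∀ p, c (w p) = c (w 0)) ∧
      ∀ p, (ρ p ≠ u ∨ ∀ a b, ¬ B a b) → c (ρ p) ≠ c (w p) := by
  obtain ⟨c, h1, h2⟩ := M.min (fun a b => XH T ρ w a b ∨ B a b)
    (fun a b h => h.elim (fun k => k.1) fun k => (hB a b k).1) hne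
  have cls : ∀ a b, EqvGen (fun a b => XH T ρ w a b ∨ B a b) a b → a = b ∨
      ((In T ρ w a ∨ (a = u ∧ ∃ x y, B x y)) ∧ (In T ρ w b ∨ (b = u ∧ ∃ x y, B x y))) := by
    intro a b h
    induction h with
    | rel a b h =>
      rcases h with h | h
      · exact Or.inr ⟨Or.inl h.2.1, Or.inl h.2.2⟩
      · exact Or.inr ⟨Or.inr ⟨(hB a b h).2.1, a, b, h⟩, Or.inl (hB a b h).2.2⟩
    | refl => exact Or.inl rfl
    | symm a b _ ih => exact ih.imp Eq.symm And.symm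
    | trans a b d _ _ i1 i2 =>
      rcases i1 with rfl | i1
      · exact i2
      · rcases i2 with rfl | i2
        · exact Or.inr i1
        · exact Or.inr ⟨i1.1, i2.2⟩
  refine ⟨c, ⟨c, fun a b hab n => h2 a b hab fun e => ?_, fun _ _ => rfl⟩,
    fun a b h => h1 a b (Or.inr h), fun p => ?_, fun p hp => h2 _ _ (T.adj13 (A.face p)) fun e => ?_⟩
  · rcases cls a b e with e | ⟨ha | ⟨ha, -⟩, hb⟩
    · exact hab.ne e
    · exact n (ha.jj M S A hab)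
    · rcases hb with hb | ⟨hb, -⟩
      · exact n (hb.jj M S A hab.symm).symm
      · exact hab.ne (ha.trans hb.symm)
  · have : ∀ a b, EqvGen (XH T ρ w) a b → c a = c b := by
      intro a b h
      induction h with
      | rel a b h => exact h1 a b (Or.inl h)
      | refl => rfl
      | symm _ _ _ ih => exact ih.symm
      | trans _ _ _ _ _ i1 i2 => exact i1.trans i2
    exact (this _ _ (arcs M H S A p).2).symm
  · rcases cls _ _ e with e | ⟨ha | ⟨ha, x, y, hxy⟩, -⟩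
    · exact T.ne13 (A.face p) e
    · exact ha.1 ⟨p, rfl⟩
    · exact hp.elim (fun k => k ha) fun k => k x y hxy

theorem fan (M : MC T) (H : Cyc T r ρ) (S : Sd T ρ σ) (A : Ap T ρ σ s w) (i : ℕ) (hi : i < r) :
    Fan r (Words T (JJ T ρ w) r ρ) i := by
  obtain ⟨c, h1, h2, h3, h4⟩ := contract M H S A (ρ i) (fun a b => a = ρ i ∧ b = w i)
    (by rintro a b ⟨rfl, rfl⟩; exact ⟨T.adj13 (A.face i), rfl, A.inn M H S i⟩)
    ⟨_, _, Or.inr ⟨rfl, rfl⟩⟩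
  refine ⟨fun p => c (ρ p), congrArg c (patch M H S A).close, h1, fun p hp n => ?_⟩
  have := h4 p (Or.inl fun e => n (by rwa [H.inj, Nat.mod_eq_of_lt hp, Nat.mod_eq_of_lt hi] at e))
  rwa [h3 p, ← h3 i, ← h2 _ _ ⟨rfl, rfl⟩] at this

theorem hub (M : MC T) (H : Cyc T r ρ) (S : Sd T ρ σ) (A : Ap T ρ σ s w)
    (n : ¬ ∃ h, ∀ p, T.Adj h (ρ p)) : Hub r (Words T (JJ T ρ w) r ρ) := by
  have hne : ∃ a b, XH T ρ w a b ∨ False := by
    by_contra hn
    refine n ⟨w 0, fun p => ?_⟩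
    have : ∀ a b, EqvGen (XH T ρ w) a b → a = b := by
      intro a b h
      induction h with
      | rel a b h => exact absurd ⟨a, b, Or.inl h⟩ hn
      | refl => rfl
      | symm _ _ _ ih => exact ih.symm
      | trans _ _ _ _ _ i1 i2 => exact i1.trans i2
    rw [this _ _ (arcs M H S A p).2]
    exact (T.adj13 (A.face p)).symm
  obtain ⟨c, h1, -, h3, h4⟩ := contract M H S A (ρ 0) (fun _ _ => False) (fun _ _ h => h.elim) hne
  exact ⟨fun p => c (ρ p), c (w 0), congrArg c (patch M H S A).close, h1, fun p _ =>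
    h3 p ▸ h4 p (Or.inr fun _ _ h => h)⟩

theorem glue (M : MC T) (H : Cyc T r ρ) (S : Sd T ρ σ) {w' : ℕ → V} (A : Ap T ρ σ 0 w)
    (A' : Ap T ρ σ 1 w') :
    ¬ ∃ κ, κ ∈ Words T (JJ T ρ w) r ρ ∧ κ ∈ Words T (JJ T ρ w') r ρ := by
  classical
  rintro ⟨κ, ⟨c, hc, ec⟩, d, hd, ed⟩
  have k1 : ∀ x y z u t : K, x + y = z + u → z + t = x → u + t = y := by decide +kernel
  have k2 : ∀ x y : K, y + (x + y) = x := by decide +kernel
  have lt : ∀ p ≤ r, d (ρ p) + (c (ρ 0) + d (ρ 0)) = c (ρ p) := by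
    intro p hp
    induction p with
    | zero => exact k2 _ _
    | succ p ih => exact k1 _ _ _ _ _ ((ec p hp).symm.trans (ed p hp)) (ih (by omega))
  have on : ∀ v, On ρ v → d v + (c (ρ 0) + d (ρ 0)) = c v := by
    rintro v ⟨p, rfl⟩
    have h3 := H.three
    rw [← H.mod p]
    exact lt _ (Nat.mod_lt _ (by omega)).le
  refine M.nocol ⟨fun v => if In T ρ w v then d v + (c (ρ 0) + d (ρ 0)) else c v, fun a b hab => ?_⟩
  by_cases hj : JJ T ρ w a b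
  · have e : ∀ a b, JJ T ρ w a b → (if In T ρ w a then d a + (c (ρ 0) + d (ρ 0)) else c a) =
        d a + (c (ρ 0) + d (ρ 0)) := by
      intro a b h
      split_ifs with hi
      · rfl
      · refine (on a ?_).symm
        by_contra ho
        exact hi ⟨ho, b, h.2⟩
    simp only [e a b hj, e b a hj.symm]
    intro h
    refine hd a b hab (fun h' => ?_) (add_right_cancel h)
    obtain ⟨x, hx⟩ := hab
    exact absurd (((hj.inner S A hx).side S A).symm.trans ((h'.inner S A' hx).side S A'))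
      (by decide)
  · have na : ¬ In T ρ w a := fun h => hj (h.jj M S A hab)
    have nb : ¬ In T ρ w b := fun h => hj (h.jj M S A hab.symm).symm
    simp only [if_neg na, if_neg nb]
    exact hc a b hab hj

end Pool.Agent.FCT.Bk
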