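import Pool.Agent.Lib.MP_fe5cb4_co.FCT.Basic

/-!
The developing map of a configuration that appears is a local isomorphism.
-/

set_option autoImplicit false

namespace Pool.Agent.FCT

variable {V : Type} {T : Tri V}

theorem dev_getD_lt (T : Tri V) (a : V) (os : List (ℕ × ℕ × ℕ)) (l : List V) (n : ℕ)
    (h : n < l.length) : (dev T a os l).getD n a = l.getD n a := by
  induction os generalizing l with
  | nil => rfl
  | cons o os ih =>
    rw [dev, ih _ (by rw [List.length_append]; omega), List.getD_append _ _ _ _ h]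

theorem dev_getD_op (T : Tri V) (a : V) (os : List (ℕ × ℕ × ℕ)) (l : List V) (n : ℕ)
    (o : ℕ × ℕ × ℕ) (h : os[n]? = some o) (h1 : o.1 < l.length + n) (h2 : o.2.1 < l.length + n)
    (h3 : o.2.2 < l.length + n) :
    (dev T a os l).getD (l.length + n) a = T.opp ((dev T a os l).getD o.1 a)
      ((dev T a os l).getD o.2.1 a) ((dev T a os l).getD o.2.2 a) := by
  induction os generalizing l n with
  | nil => simp at h
  | cons o' os ih =>
    cases n with
    | zero =>
      obtain rfl : o' = o := by simpa using h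
      rw [dev_getD_lt T a _ l _ h1, dev_getD_lt T a _ l _ h2, dev_getD_lt T a _ l _ h3, dev,
        dev_getD_lt T a _ _ _ (by simp)]
      simp
    | succ n =>
      have e : (l ++ [T.opp (l.getD o'.1 a) (l.getD o'.2.1 a) (l.getD o'.2.2 a)]).length + n =
          l.length + (n + 1) := by
        rw [List.length_append, List.length_singleton]
        omega
      have := ih (l ++ [T.opp (l.getD o'.1 a) (l.getD o'.2.1 a) (l.getD o'.2.2 a)]) n
        (by simpa using h) (e ▸ h1) (e ▸ h2) (e ▸ h3)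
      rw [e] at this
      exact this

theorem devF_zero (T : Tri V) (ops : List (ℕ × ℕ × ℕ)) (a b c : V) : devF T ops a b c 0 = a :=
  dev_getD_lt T a ops [a, b, c] 0 (by simp)

theorem devF_one (T : Tri V) (ops : List (ℕ × ℕ × ℕ)) (a b c : V) : devF T ops a b c 1 = b :=
  dev_getD_lt T a ops [a, b, c] 1 (by simp)

theorem devF_two (T : Tri V) (ops : List (ℕ × ℕ × ℕ)) (a b c : V) : devF T ops a b c 2 = c :=
  dev_getD_lt T a ops [a, b, c] 2 (by simp)

theorem devF_op (T : Tri V) (ops : List (ℕ × ℕ × ℕ)) (a b c : V) (n : ℕ) (o : ℕ × ℕ × ℕ)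
    (h : ops[n]? = some o) (h1 : o.1 < 3 + n) (h2 : o.2.1 < 3 + n) (h3 : o.2.2 < 3 + n) :
    devF T ops a b c (3 + n) =
      T.opp (devF T ops a b c o.1) (devF T ops a b c o.2.1) (devF T ops a b c o.2.2) :=
  dev_getD_op T a ops [a, b, c] n o h h1 h2 h3

/-- The fact `a b c d` holds under `φ`. -/
def Holds (T : Tri V) (φ : ℕ → V) (a b c d : ℕ) : Prop :=
  T.F (φ a) (φ b) (φ c) ∧ φ d = T.opp (φ a) (φ b) (φ c)

variable {φ : ℕ → V}

theorem Holds.swap12 {a b c d : ℕ} (h : Holds T φ a b c d) : Holds T φ b a c d :=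
  ⟨T.s12 h.1, h.2.trans (T.opp_comm h.1).symm⟩

theorem Holds.swap34 {a b c d : ℕ} (h : Holds T φ a b c d) : Holds T φ a b d c := by
  refine ⟨h.2 ▸ T.opp_F h.1, ?_⟩
  rw [h.2, T.opp_opp h.1]

theorem eq2_iff {a b x y : ℕ} : eq2 a b x y = true ↔ (a = x ∧ b = y) ∨ (a = y ∧ b = x) := by
  simp [eq2]

theorem eq3_iff {a b c x y z : ℕ} : eq3 a b c x y z = true ↔
    ((c = z ∧ eq2 a b x y = true) ∨ (c = y ∧ eq2 a b x z = true)) ∨
      (c = x ∧ eq2 a b y z = true) := by
  simp [eq3]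

/-- All facts of the list hold. -/
def AllHold (T : Tri V) (φ : ℕ → V) (L : List Q4) : Prop :=
  ∀ q ∈ L, Holds T φ q.1 q.2.1 q.2.2.1 q.2.2.2

theorem hasO_sound {L : List Q4} (hL : AllHold T φ L) {a b c d : ℕ} (h : hasO L a b c d = true) :
    Holds T φ a b c d := by
  simp only [hasO, List.any_eq_true, Bool.and_eq_true, eq2_iff] at h
  obtain ⟨q, hq, h1, h2⟩ := h
  have f := hL q hq
  rcases h1 with ⟨rfl, rfl⟩ | ⟨rfl, rfl⟩ <;> rcases h2 with ⟨rfl, rfl⟩ | ⟨rfl, rfl⟩
  · exact f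
  · exact f.swap34
  · exact f.swap12
  · exact f.swap12.swap34

theorem Holds.face {p q r s a b c : ℕ} (f : Holds T φ p q r s) (h1 : eq2 a b p q = true)
    (h2 : (c.beq r || c.beq s) = true) : T.F (φ a) (φ b) (φ c) := by
  rw [eq2_iff] at h1
  simp only [Bool.or_eq_true, Nat.beq_eq] at h2
  rcases h1 with ⟨rfl, rfl⟩ | ⟨rfl, rfl⟩ <;> rcases h2 with rfl | rfl
  · exact f.1
  · exact f.swap34.1
  · exact f.swap12.1
  · exact f.swap12.swap34.1

theorem hasF_sound (h0 : T.F (φ 0) (φ 1) (φ 2)) {L : List Q4} (hL : AllHold T φ L) {a b c : ℕ}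
    (h : hasF L a b c = true) : T.F (φ a) (φ b) (φ c) := by
  rw [hasF, Bool.or_eq_true] at h
  rcases h with h | h
  · simp only [eq3_iff, eq2_iff] at h
    rcases h with (⟨rfl, ⟨rfl, rfl⟩ | ⟨rfl, rfl⟩⟩ | ⟨rfl, ⟨rfl, rfl⟩ | ⟨rfl, rfl⟩⟩) |
      ⟨rfl, ⟨rfl, rfl⟩ | ⟨rfl, rfl⟩⟩
    · exact h0
    · exact T.s12 h0
    · exact T.s23 h0
    · exact T.cyc (T.cyc h0)
    · exact T.cyc h0
    · exact T.s13 h0
  · rw [List.any_eq_true] at h
    obtain ⟨q, hq, h⟩ := h
    have f := hL q hq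
    rw [Bool.or_eq_true, Bool.or_eq_true, Bool.and_eq_true, Bool.and_eq_true,
      Bool.and_eq_true] at h
    rcases h with (h | h) | h
    · exact f.face h.1 h.2
    · exact T.s23 (f.face h.1 h.2)
    · exact T.cyc (T.cyc (f.face h.1 h.2))

theorem chain_sound {L : List Q4} (hL : AllHold T φ L) (w : ℕ) (l : List ℕ)
    (h : chain L w l = true) (k : ℕ) (hk : k + 2 < l.length) :
    φ (l.getD (k + 2) 0) = T.opp (φ w) (φ (l.getD (k + 1) 0)) (φ (l.getD k 0)) := by
  induction l generalizing k with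
  | nil => simp at hk
  | cons x l ih =>
    match l, h, hk, ih with
    | [], _, hk, _ => simp at hk
    | [_], _, hk, _ => simp at hk
    | y :: z :: t, h, hk, ih =>
      rw [chain, Bool.and_eq_true] at h
      cases k with
      | zero => exact (hasO_sound hL h.1).2
      | succ k => exact ih h.2 k (by simpa using hk)

/-- The clause of `LocIso` for one wheel. -/
def Whl (T : Tri V) (φ : ℕ → V) (q : ℕ × List ℕ) : Prop :=
  T.deg (φ q.1) = q.2.length ∧ T.F (φ q.1) (φ (q.2.getD 0 0)) (φ (q.2.getD 1 0)) ∧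
    ∀ k < q.2.length,
      φ (q.2.getD k 0) = T.rot (φ q.1) (φ (q.2.getD 0 0)) (φ (q.2.getD 1 0)) k

theorem Whl.close [Fintype V] (M : MC T) {q : ℕ × List ℕ} (h : Whl T φ q)
    (h3 : 3 ≤ q.2.length) :
    Holds T φ q.1 (q.2.getD (q.2.length - 1) 0) (q.2.getD (q.2.length - 2) 0) (q.2.getD 0 0) ∧
      Holds T φ q.1 (q.2.getD 0 0) (q.2.getD (q.2.length - 1) 0) (q.2.getD 1 0) := by
  obtain ⟨hd, hf, hr⟩ := h
  obtain ⟨n, hn⟩ : ∃ n, q.2.length = n + 2 := ⟨q.2.length - 2, by omega⟩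
  have e0 := M.rot_per hf 0
  have e1 := M.rot_per hf 1
  have r1 := hr (n + 1) (by omega)
  have r2 := hr n (by omega)
  rw [hd, hn] at e0 e1
  rw [hn, show n + 2 - 1 = n + 1 from rfl, show n + 2 - 2 = n from rfl]
  rw [Nat.zero_add] at e0
  rw [show 1 + (n + 2) = n + 1 + 2 by omega] at e1
  have f1 := T.rot_F hf n
  have f2 := T.rot_F hf (n + 1)
  have g1 := T.rot_two (φ q.1) (φ (q.2.getD 0 0)) (φ (q.2.getD 1 0)) n
  have g2 := T.rot_two (φ q.1) (φ (q.2.getD 0 0)) (φ (q.2.getD 1 0)) (n + 1)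
  rw [e0] at g1
  rw [e1] at g2
  rw [show n + 1 + 1 = n + 2 from rfl, e0] at f2 g2
  rw [← r1, ← r2] at f1 g1
  rw [← r1] at f2 g2
  exact ⟨⟨T.s23 f1, g1⟩, T.s23 f2, g2⟩

theorem derive_sound [Fintype V] (M : MC T) (S : Cfg) (h0 : T.F (φ 0) (φ 1) (φ 2))
    (hop : ∀ n o, S.ops[n]? = some o → o.1 < 3 + n → o.2.1 < 3 + n → o.2.2 < 3 + n →
      φ (3 + n) = T.opp (φ o.1) (φ o.2.1) (φ o.2.2))
    (hdeg : ∀ q ∈ S.whl, T.deg (φ q.1) = q.2.length) (t : List ℕ) (L : List Q4) (D : List ℕ)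
    (hL : AllHold T φ L) (hD : ∀ m ∈ D, ∀ q, S.whl[m]? = some q → Whl T φ q)
    (h : derive S t L D = true) : LocIso T S.whl φ := by
  induction t generalizing L D with
  | nil =>
    intro q hq
    obtain ⟨n, hn, rfl⟩ := List.getElem_of_mem hq
    simp only [derive, List.all_eq_true, List.mem_range, List.any_eq_true, Nat.beq_eq] at h
    obtain ⟨m, hm, rfl⟩ := h n hn
    exact hD m hm _ (List.getElem?_eq_getElem hn)
  | cons s t ih =>
    rw [derive] at h
    cases hs : (s % 2).beq 0 with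
    | true =>
      rw [hs, cond_true] at h
      cases ho : S.ops[s / 2]? with
      | none => simp [ho] at h
      | some o =>
        simp only [ho, Bool.and_eq_true, Nat.blt_eq] at h
        obtain ⟨⟨⟨⟨h1, h2⟩, h3⟩, h4⟩, h5⟩ := h
        refine ih _ _ ?_ hD h5
        intro q hq
        rcases List.mem_cons.1 hq with rfl | hq
        · exact ⟨hasF_sound h0 hL h4, hop _ o ho h1 h2 h3⟩
        · exact hL q hq
    | false =>
      rw [hs, cond_false] at h
      cases ho : S.whl[s / 2]? with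
      | none => simp [ho] at h
      | some q =>
        simp only [ho, Bool.and_eq_true, Nat.ble_eq] at h
        obtain ⟨⟨⟨h1, h2⟩, h3⟩, h4⟩ := h
        have w : Whl T φ q := ⟨hdeg q (List.mem_of_getElem? ho), hasF_sound h0 hL h2,
          T.eq_rot (φ q.1) (fun k => φ (q.2.getD k 0)) q.2.length (chain_sound hL q.1 q.2 h3)⟩
        have c := w.close M h1
        refine ih _ _ ?_ ?_ h4
        · intro p hp
          rcases List.mem_cons.1 hp with rfl | hp
          · exact c.1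
          rcases List.mem_cons.1 hp with rfl | hp
          · exact c.2
          · exact hL p hp
        · intro m hm p hp
          rcases List.mem_cons.1 hm with rfl | hm
          · rw [ho] at hp
            obtain rfl := Option.some.inj hp
            exact w
          · exact hD m hm p hp

theorem dev_thm : StDev := by
  intro V _ T M S a b c h hA
  refine derive_sound M S ?_ (devF_op T S.ops a b c) hA.2 S.ord [] [] ?_ ?_ h
  · rw [devF_zero, devF_one, devF_two]
    exact hA.1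
  · intro q hq
    simp at hq
  · intro m hm
    simp at hm

theorem locIso_map {W : List (ℕ × List ℕ)} {reg : ℕ → ℕ} (h2 : ∀ q ∈ W, 2 ≤ q.2.length)
    (h : LocIso T (W.map fun q => (reg q.1, q.2.map reg)) φ) : LocIso T W (φ ∘ reg) := by
  intro q hq
  have l := h2 q hq
  have e : ∀ k < q.2.length, (q.2.map reg).getD k 0 = reg (q.2.getD k 0) := by
    intro k hk
    rw [List.getD_eq_getElem _ _ hk, List.getD_eq_getElem _ _ (by simpa using hk),
      List.getElem_map]
  obtain ⟨hd, hf, hr⟩ := h _ (List.mem_map_of_mem hq)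
  simp only [List.length_map] at hd hf hr
  rw [e 0 (by omega), e 1 (by omega)] at hf hr
  refine ⟨hd, hf, fun k hk => ?_⟩
  have := hr k hk
  rw [e k hk] at this
  exact this

theorem dev_reg {S1 : Cfg} {W : List (ℕ × List ℕ)} {reg : ℕ → ℕ}
    (e : S1.whl = W.map fun q => (reg q.1, q.2.map reg)) (h2 : ∀ q ∈ W, 2 ≤ q.2.length)
    (h : LocIso T S1.whl φ) : LocIso T W (φ ∘ reg) :=
  locIso_map h2 (e ▸ h)

end Pool.Agent.FCT
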