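import Pool.Agent.Lib.MP_fe5cb4_co.Sey.Norm
import Pool.Agent.Lib.MP_fe5cb4_co.Sey.Minor
import Pool.Agent.Lib.MP_fe5cb4_co.Sey.Reduce

/-!
The dual graph of a planar structure; four colours on the dual give three perfect matchings.
-/

set_option autoImplicit false

namespace Pool.Agent.Lib.MP_fe5cb4_co.Sey

open Finset Pool.Agent.Lib.MP_fe5cb4_co.Sey.Norm

namespace Du

variable {V : Type} [Fintype V] [DecidableEq V] {G : SimpleGraph V}
  {ι : Type} [Fintype ι] {B : ι → Ch V}

/-- a chain orthogonal to the cycle space has a potential -/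
theorem pot {D : Ch V} (h : ∀ c ∈ Z G, ∑ e, c e * D e = 0) :
    ∃ x : V → ZMod 2, ∀ a b, G.Adj a b → D s(a, b) = x a + x b := by
  have k : ∀ a, Relation.ReflTransGen G.Adj (G.connectedComponentMk a).out a := fun a =>
    (G.reachable_iff_reflTransGen _ _).1 (SimpleGraph.ConnectedComponent.exact (Quot.out_eq _))
  choose c h1 h2 using fun a => walk (fun s t k => k.ne) (k a)
  refine ⟨fun a => ∑ e, c a e * D e, fun a b ab => ?_⟩
  have z : ∀ a e, c a e ≠ 0 → e ∈ G.edgeSet := fun a e t => by
    obtain ⟨s, t, k, rfl⟩ := h1 a e t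
    exact k
  have := h (c a + c b + one a b) ⟨fun e he => by_contra fun n => he (by
    rw [Pi.add_apply, Pi.add_apply, not_not.1 (mt (z a e) n), not_not.1 (mt (z b e) n),
      show one a b e = 0 from by_contra fun t => n (one_ne t ▸ ab), add_zero, add_zero]),
      fun v => by
    rw [bd_add, bd_add, h2, h2, bd_one ab.ne, SimpleGraph.ConnectedComponent.sound ab.reachable]
    generalize (if v = a then 1 else 0 : ZMod 2) = p
    generalize (if v = b then 1 else 0 : ZMod 2) = q
    generalize (if v = (G.connectedComponentMk b).out then 1 else 0 : ZMod 2) = r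
    revert p q r
    decide⟩
  simp only [Pi.add_apply, add_mul, sum_add_distrib, one, Pi.single_apply, ite_mul, one_mul,
    zero_mul, sum_ite_eq', mem_univ, if_true] at this
  exact (CharTwo.add_eq_iff_eq_add.1 ((add_comm _ _).trans this)).trans (zero_add _)

theorem sum_at (g : Ch V) (v : V) : ∑ e, (if v ∈ e then g e else 0) = bd g v := by
  rw [← sum_filter]
  refine (sum_bij (fun w _ => s(v, w)) (by simp) (fun _ _ _ _ => Sym2.congr_right.1)
    (fun e he => ?_) fun _ _ => rfl).symm
  obtain ⟨w, rfl⟩ := Sym2.mem_iff_exists.1 (mem_filter.1 he).2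
  exact ⟨w, mem_univ _, rfl⟩

/-- the incidences of members and edges -/
def inc (B : ι → Ch V) : ι ⊕ Sym2 V → ι ⊕ Sym2 V → ZMod 2
  | .inl i, .inr e => B i e
  | .inr e, .inl i => B i e
  | _, _ => 0

/-- the subdivided dual graph -/
def sub (B : ι → Ch V) : SimpleGraph (ι ⊕ Sym2 V) where
  Adj p q := inc B p q ≠ 0
  symm := ⟨by rintro (_ | _) (_ | _) <;> exact id⟩
  loopless := ⟨by rintro (_ | _) <;> exact fun h => h rfl⟩

/-- the member of the dual at a vertex -/
def star (B : ι → Ch V) (v : V) : Ch (ι ⊕ Sym2 V) :=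
  Sym2.lift ⟨inc fun i e => if v ∈ e then B i e else 0, by rintro (_ | _) (_ | _) <;> rfl⟩

theorem sub_planar (h1 : ∀ i, B i ∈ Z G) (h2 : ∀ e, #{i | B i e ≠ 0} = 0 ∨ #{i | B i e ≠ 0} = 2)
    (h3 : Z G ≤ Submodule.span (ZMod 2) (Set.range B)) : Planar (sub B) := by
  classical
  refine planar_iff.2 ⟨V, inferInstance, star B, fun v => ⟨fun e he => ?_, ?_⟩, fun e => ?_,
    fun c hc => ?_⟩
  · induction e using Sym2.ind with
    | _ p q =>
      rcases p with i | e <;> rcases q with j | f <;>
        first | exact he | exact fun t => he (by simp [star, inc, show B _ _ = 0 from t])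
  · rintro (i | e)
    · simpa [bd, star, inc] using (sum_at (B i) v).trans ((h1 i).2 v)
    · have := sum_eq_card univ fun i => B i e
      by_cases k : v ∈ e
      · rcases h2 e with t | t <;> rw [t] at this <;> simp [bd, star, inc, k, this] <;> rfl
      · simp [bd, star, inc, k]
  · have k : ∀ (i : ι) (e : Sym2 V), #{v | (if v ∈ e then B i e else 0) ≠ 0} ≤ 2 := fun i e => by
      induction e using Sym2.ind with
      | _ a b =>
        refine (card_le_card fun v hv => ?_).trans (card_le_two (a := a) (b := b))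
        exact by_contra fun n => (mem_filter.1 hv).2 (if_neg (by simpa using n))
    induction e using Sym2.ind with
    | _ p q =>
      rcases p with i | e <;> rcases q with j | f <;> first | exact k _ _ | simp [star, inc]
  · have z : ∀ p q, inc B p q = 0 → c s(p, q) = 0 := fun p q t => by_contra fun n => hc.1 _ n t
    have k : ∀ e, ∃ d, ∀ i, c s(.inr e, .inl i) = B i e * d := fun e => by
      rcases h2 e with t | t
      · refine ⟨0, fun i => (z _ _ ?_).trans (mul_zero _).symm⟩
        exact not_not.1 (filter_eq_empty_iff.1 (card_eq_zero.1 t) (mem_univ i))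
      obtain ⟨i, j, ij, t⟩ := card_eq_two.1 t
      have u : ∀ l, B l e ≠ 0 ↔ l = i ∨ l = j := fun l => by simpa using Finset.ext_iff.1 t l
      have w := hc.2 (.inr e)
      rw [bd, Fintype.sum_sum_type, sum_eq_zero fun f _ => z (.inr e) (.inr f) rfl, add_zero,
        Fintype.sum_eq_add i j ij fun l hl =>
          z (.inr e) (.inl l) (not_not.1 ((u l).not.2 (not_or.2 hl)))] at w
      refine ⟨c s(.inr e, .inl i), fun l => ?_⟩
      by_cases n : B l e = 0
      · rw [z (.inr e) (.inl l) n, n, zero_mul]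
      rw [ne_zero_iff.1 n, one_mul]
      rcases (u l).1 n with rfl | rfl
      exacts [rfl, (CharTwo.add_eq_zero.1 w).symm]
    choose D hD using k
    obtain ⟨x, hx⟩ := pot (G := G) (D := D) fun c' h => by
      replace h := h3 h
      induction h using Submodule.span_induction with
      | mem _ k =>
        obtain ⟨i, rfl⟩ := k
        have w := hc.2 (.inl i)
        rw [bd, Fintype.sum_sum_type, sum_eq_zero fun f _ => z (.inl i) (.inl f) rfl, zero_add] at w
        simpa only [← hD, Sym2.eq_swap] using w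
      | zero => simp
      | add _ _ _ _ a b => simp only [Pi.add_apply, add_mul, sum_add_distrib, a, b, add_zero]
      | smul r _ _ a => simp only [Pi.smul_apply, smul_eq_mul, mul_assoc, ← mul_sum, a, mul_zero]
    refine (Submodule.mem_span_range_iff_exists_fun _).2 ⟨x, funext fun e => ?_⟩
    have k : ∀ i e, ∑ v, x v * (if v ∈ e then B i e else 0) = c s(.inr e, .inl i) := fun i e => by
      rw [hD]
      by_cases n : B i e = 0
      · simp [n]
      induction e using Sym2.ind with
      | _ a b =>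
        have ab : G.Adj a b := (h1 i).1 _ n
        rw [hx a b ab, Fintype.sum_eq_add a b ab.ne fun l hl => by simp [hl.1, hl.2]]
        simp [add_mul, mul_comm]
    induction e using Sym2.ind with
    | _ p q =>
      rw [Finset.sum_apply]
      rcases p with i | e <;> rcases q with j | f
      · simp [star, inc, z]
      · exact (k _ _).trans (by rw [Sym2.eq_swap])
      · exact k _ _
      · simp [star, inc, z]

/-- the dual graph -/
def dual (B : ι → Ch V) : SimpleGraph ι := SimpleGraph.fromRel fun i j => ∃ e, B i e ≠ 0 ∧ B j e ≠ 0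

theorem dual_planar (h1 : ∀ i, B i ∈ Z G) (h2 : ∀ e, #{i | B i e ≠ 0} = 0 ∨ #{i | B i e ≠ 0} = 2)
    (h3 : Z G ≤ Submodule.span (ZMod 2) (Set.range B)) : Planar (dual B) := by
  classical
  let π : ι ⊕ Sym2 V → Option ι := Sum.elim some fun e =>
    if h : ∃ i, B i e ≠ 0 then some h.choose else none
  have k : ∀ e w, π (.inr e) = some w → B w e ≠ 0 := fun e w t => by
    simp only [π, Sum.elim_inr] at t
    split_ifs at t with h
    exact Option.some.inj t ▸ h.choose_spec
  have r : ∀ w a, π a = some w → Relation.ReflTransGen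
      (fun s t => (sub B).Adj s t ∧ π s = some w ∧ π t = some w) a (.inl w) ∧ Relation.ReflTransGen
      (fun s t => (sub B).Adj s t ∧ π s = some w ∧ π t = some w) (.inl w) a := by
    rintro w (i | e) t
    · obtain rfl := Option.some.inj t
      exact ⟨.refl, .refl⟩
    · exact ⟨.single ⟨k e w t, t, rfl⟩, .single ⟨k e w t, rfl, t⟩⟩
  refine minor_thm _ _ (sub B) _ π (fun w a b p q => (r w a p).1.trans (r w b q).2) ?_
    (sub_planar h1 h2 h3)
  have s : ∀ i j e, i ≠ j → B i e ≠ 0 → B j e ≠ 0 →
      ∃ a b, π a = some i ∧ π b = some j ∧ (sub B).Adj a b := fun i j e ij p q => by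
    obtain ⟨l, hl⟩ : ∃ l, π (.inr e) = some l := ⟨_, dif_pos ⟨i, p⟩⟩
    by_cases t : l = i
    · exact ⟨.inr e, .inl j, t ▸ hl, rfl, q⟩
    by_cases t' : l = j
    · exact ⟨.inl i, .inr e, rfl, t' ▸ hl, p⟩
    have : 2 < #{i | B i e ≠ 0} := two_lt_card_iff.2 ⟨l, i, j, by simp [k e l hl, *]⟩
    have := h2 e
    omega
  rintro i j ⟨ij, ⟨e, p, q⟩ | ⟨e, p, q⟩⟩
  exacts [s i j e ij p q, s i j e ij q p]

end Du

open Du in
theorem sey3 (h : ∀ (V : Type) [Fintype V] (G : SimpleGraph V), Planar G → G.Colorable 4) :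
    SeyM 3 := by
  intro V _ _ m T hp
  classical
  obtain ⟨ι, _, B, h1, -, h2, h3⟩ := normal hp
  obtain ⟨c⟩ := h ι _ (dual_planar h1 h2 h3)
  let f : Fin 3 → Fin 4 → ZMod 2 := fun θ p => if p = 0 ∨ p = θ.succ then 0 else 1
  let z : Fin 3 → Ch V := fun θ => ∑ i, f θ (c i) • B i
  have hz : ∀ θ, z θ ∈ Z (supp m) := fun θ =>
    Submodule.sum_mem _ fun i _ => Submodule.smul_mem _ _ (h1 i)
  have ad := supp_adj T.symm T.diag
  have k1 : ∀ a b, #{θ | (m a b : ZMod 2) + z θ s(a, b) ≠ 0} = m a b := fun a b => by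
    by_cases t : m a b = 0
    · have : ∀ θ, z θ s(a, b) = 0 := fun θ => by_contra fun n => (ad a b).1 ((hz θ).1 _ n) t
      simp [t, this]
    have e := T.deg a
    rw [← add_sum_erase _ _ (mem_univ b)] at e
    by_cases t3 : m a b = 3
    · have : ∀ θ, z θ s(a, b) = 0 := fun θ => by_contra fun n => by
        obtain ⟨w, w1, -, w2⟩ := second (hz θ) n
        have := single_le_sum (f := m a) (fun _ _ => Nat.zero_le _)
          (mem_erase.2 ⟨w1, mem_univ w⟩)
        have := (ad a w).1 w2
        omega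
      simp only [t3, this]
      decide
    obtain ⟨w, w1, w2⟩ := exists_ne_zero_of_sum_ne_zero
      (show ∑ x ∈ univ.erase b, m a x ≠ 0 by omega)
    obtain ⟨l, hl⟩ := ex_mem (local_thm 3 V m T).1 h3 ((ad a b).2 t) ((ad a w).2 w2)
      (ne_of_mem_erase w1).symm
    have := card_pos.2 ⟨l, (mem_filter.2 ⟨mem_univ l, hl⟩ : l ∈ univ.filter (B · s(a, b) ≠ 0))⟩
    obtain ⟨i, j, ij, u⟩ := card_eq_two.1 ((h2 s(a, b)).resolve_left this.ne')
    have u : ∀ l, B l s(a, b) ≠ 0 ↔ l = i ∨ l = j := fun l => by simpa using Finset.ext_iff.1 u l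
    have p := (u i).2 (Or.inl rfl)
    have q := (u j).2 (Or.inr rfl)
    have : ∀ θ, z θ s(a, b) = f θ (c i) + f θ (c j) := fun θ => by
      simp only [z, Finset.sum_apply, Pi.smul_apply, smul_eq_mul]
      rw [Fintype.sum_eq_add i j ij fun l hl => by
        rw [not_not.1 ((u l).not.2 (not_or.2 hl)), mul_zero], ne_zero_iff.1 p, ne_zero_iff.1 q,
        mul_one, mul_one]
    have n : c i ≠ c j := c.valid ⟨ij, Or.inl ⟨_, p, q⟩⟩
    simp only [this]
    revert n
    generalize c i = p, c j = q
    obtain t | t : m a b = 1 ∨ m a b = 2 := by omega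
    all_goals
      rw [t]
      revert p q
      decide
  have k2 : ∀ θ a, #{b | (m a b : ZMod 2) + z θ s(a, b) ≠ 0} = 1 := fun θ a => by
    have o : ∀ θ, 1 ≤ #{b | (m a b : ZMod 2) + z θ s(a, b) ≠ 0} := fun θ => by
      have := sum_eq_card univ fun b => (m a b : ZMod 2) + z θ s(a, b)
      rw [sum_add_distrib, ← Nat.cast_sum, T.deg, show ∑ b, z θ s(a, b) = 0 from (hz θ).2 a] at this
      exact Nat.pos_of_ne_zero fun t => by rw [t] at this; revert this; decide
    have e := T.deg a
    rw [← sum_congr rfl fun b _ => k1 a b] at e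
    simp only [card_filter] at e o ⊢
    rw [sum_comm, Fin.sum_univ_three] at e
    have o0 := o 0
    have o1 := o 1
    have o2 := o 2
    fin_cases θ <;> simp only [Fin.zero_eta, Fin.mk_one, Fin.reduceFinMk] <;> omega
  choose M hM using fun θ a => card_eq_one.1 (k2 θ a)
  have k3 : ∀ θ a b, M θ a = b ↔ (m a b : ZMod 2) + z θ s(a, b) ≠ 0 := fun θ a b => by
    simpa [eq_comm] using (Finset.ext_iff.1 (hM θ a) b).symm
  refine ⟨M, fun θ => ⟨fun a => (k3 θ _ _).2 ?_, fun a t => (k3 θ a a).1 t ?_⟩, fun a b => ?_⟩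
  · rw [T.symm, Sym2.eq_swap]
    exact (k3 θ _ _).1 rfl
  · rw [T.diag, show z θ s(a, a) = 0 from by_contra fun n =>
      (supp m).irrefl ((hz θ).1 s(a, a) n)]
    simp
  · simp only [k3, k1]

end Pool.Agent.Lib.MP_fe5cb4_co.Sey
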