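import Pool.Agent.Lib.MP_fe5cb4_co.FCT.Basic

/-!
A reducible configuration does not appear in a minimal counterexample.
-/

set_option autoImplicit false

namespace Pool.Agent.FCT

namespace ExcAux

theorem two (x : K) : x + x = 0 := by
  revert x
  decide

variable {V : Type} [Fintype V] {T : Tri V} {S : Cfg} {φ : ℕ → V}

theorem not_ext (M : MC T) (hS : Static S) (L : LocIso T S.whl φ) (E : Emb T S.whl φ) :
    ∀ κ ∈ Words T (fun a b => ∃ x, Inn S.whl x ∧ (a = φ x ∨ b = φ x)) S.ring.length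
      (fun p => φ (rg S.ring p)), ¬ Ext S.whl S.ring [] κ := by
  classical
  rintro κ ⟨c0, h0, k0⟩ ⟨c1, h1, k1⟩
  set g := c1 (rg S.ring 0) + c0 (φ (rg S.ring 0)) with hg
  have hr : ∀ p ≤ S.ring.length, c1 (rg S.ring p) = c0 (φ (rg S.ring p)) + g := by
    intro p
    induction p with
    | zero => intro _; linear_combination -hg - two (c0 (φ (rg S.ring 0)))
    | succ p ih =>
      intro hp
      linear_combination k0 p hp - k1 p hp - ih (by omega) - two g
  let c : V → K := fun v => if h : ∃ x, Inn S.whl x ∧ v = φ x then c1 h.choose else c0 v + g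
  have A : ∀ x, Inn S.whl x → c (φ x) = c1 x := fun x hx => by
    have h : ∃ y, Inn S.whl y ∧ φ x = φ y := ⟨x, hx, rfl⟩
    simp only [c, dif_pos h]
    rw [← E.1 x _ hx h.choose_spec.1 h.choose_spec.2]
  have Bn : ∀ w a, Nb S.whl w a → c (φ a) = c1 a := fun w a ha => by
    by_cases hi : Inn S.whl a
    · exact A a hi
    · have h : ¬ ∃ y, Inn S.whl y ∧ φ a = φ y := fun ⟨y, hy, e⟩ => hi (E.2.2 w a y ha hy e ▸ hy)
      simp only [c, dif_neg h]
      obtain ⟨k, hk, rfl⟩ := mem_getD ((hS.ring_iff a).2 ⟨hi, w, ha⟩)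
      have := hr k hk.le
      rw [rg, Nat.mod_eq_of_lt hk] at this
      exact this.symm
  have D : ∀ u v, T.Adj u v → (∃ x, Inn S.whl x ∧ u = φ x) → c u ≠ c v := by
    rintro _ v h ⟨x, hx, rfl⟩
    obtain ⟨a, ha, rfl⟩ := L.surj M hx h
    rw [A x hx, Bn x a ha, Ne, h1 x a ha]
    simp [Con]
  refine M.nocol ⟨c, fun u v h => ?_⟩
  by_cases hu : ∃ x, Inn S.whl x ∧ u = φ x
  · exact D u v h hu
  by_cases hv : ∃ x, Inn S.whl x ∧ v = φ x
  · exact (D v u h.symm hv).symm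
  simp only [c, dif_neg hu, dif_neg hv, Ne, add_left_inj]
  exact h0 u v h fun ⟨x, hx, e⟩ => e.elim (fun e => hu ⟨x, hx, e⟩) fun e => hv ⟨x, hx, e⟩

theorem ext_con (M : MC T) (hS : Static S) (L : LocIso T S.whl φ) (E : Emb T S.whl φ)
    (hl : ∀ a b, T.Adj a b →
      Relation.EqvGen (fun s t => ∃ e ∈ S.con, s = φ e.1 ∧ t = φ e.2) a b →
      ∃ e ∈ S.con, s(a, b) = s(φ e.1, φ e.2)) :
    ∃ κ ∈ Words T (fun a b => ∃ x, Inn S.whl x ∧ (a = φ x ∨ b = φ x)) S.ring.length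
      (fun p => φ (rg S.ring p)), Ext S.whl S.ring S.con κ := by
  obtain ⟨c, h1, h2⟩ := M.min (fun s t => ∃ e ∈ S.con, s = φ e.1 ∧ t = φ e.2)
    (by rintro _ _ ⟨e, he, rfl, rfl⟩; exact L.adj M (hS.con_nb e he))
    (by
      obtain ⟨e, he⟩ := List.exists_mem_of_ne_nil _ hS.con_ne
      exact ⟨_, _, e, he, rfl, rfl⟩)
  refine ⟨fun p => c (φ (rg S.ring p)) + c (φ (rg S.ring (p + 1))),
    ⟨c, fun a b h hJ => h2 a b h fun hq => ?_, fun _ _ => rfl⟩,
    fun n => c (φ n), fun a b h => ⟨fun e => ?_, ?_⟩, fun _ _ => rfl⟩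
  · obtain ⟨e, he, q⟩ := hl a b h hq
    refine hJ ⟨e.1, (hS.con_nb e he).inn, ?_⟩
    rcases Sym2.eq_iff.1 q with q | q
    · exact Or.inl q.1
    · exact Or.inr q.2
  · obtain ⟨f, hf, q⟩ := hl _ _ (L.adj M h) (by_contra fun n => h2 _ _ (L.adj M h) n e)
    have n := hS.con_nb f hf
    rcases Sym2.eq_iff.1 q with q | q
    · obtain rfl := E.1 _ _ h.inn n.inn q.1
      obtain rfl := L.inj M hS.nodup h n q.2
      exact Or.inl hf
    · obtain rfl := E.2.2 _ _ _ n h.inn q.1.symm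
      obtain rfl := E.2.2 _ _ _ h n.inn q.2
      exact Or.inr hf
  · rintro (q | q)
    · exact h1 _ _ ⟨_, q, rfl, rfl⟩
    · exact (h1 _ _ ⟨_, q, rfl, rfl⟩).symm

theorem getD_map (reg : ℕ → ℕ) {l : List ℕ} {k : ℕ} (h : k < l.length) :
    (l.map reg).getD k 0 = reg (l.getD k 0) := by
  rw [List.getD_eq_getElem _ _ h, List.getD_eq_getElem _ _ (by simpa using h), List.getElem_map]

end ExcAux

open ExcAux

theorem no_iso (hK : StKempe) (hE : StEmb) (hL : StLoop) (hP : StPat) (S : Cfg) (hS : Static S)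
    (hR : Red S) (V : Type) [Fintype V] (T : Tri V) (M : MC T) (B : Birk T) (φ : ℕ → V) :
    ¬ LocIso T S.whl φ := fun L => by
  have E := hE V T M B S φ hS L
  obtain ⟨P, w, hp⟩ := hP V T M S φ hS L E
  obtain ⟨κ, hκ, he⟩ := ext_con M hS L E (hL V T M B S φ hS L E)
  exact hR _ (hK V T M _ _ _ _ _ hp) (not_ext M hS L E) κ hκ he

theorem exc_thm (hK : StKempe) (hE : StEmb) (hL : StLoop) (hP : StPat) (hD : StDev) : StExc :=
  fun S hd hS hR V _ T M B a b c h =>
    no_iso hK hE hL hP S hS hR V T M B _ (hD V T M S a b c hd h)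

theorem excl_of_reg (hK : StKempe) (hE : StEmb) (hL : StLoop) (hP : StPat) (hD : StDev)
    (S Q : Cfg) (reg : ℕ → ℕ) (hS : Static S) (hR : Red S) (hd : derive Q Q.ord [] [] = true)
    (hw : Q.whl = S.whl.map fun q => (reg q.1, q.2.map reg)) : Excl Q := by
  intro V _ T M B a b c h
  have L := hD V T M Q a b c hd h
  refine no_iso hK hE hL hP S hS hR V T M B (fun n => devF T Q.ops a b c (reg n)) fun q hq => ?_
  obtain ⟨h1, h2, h3⟩ := L (reg q.1, q.2.map reg) (hw ▸ List.mem_map_of_mem hq)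
  simp only [List.length_map] at h1 h2 h3
  have := B.deg5 (devF T Q.ops a b c (reg q.1))
  rw [getD_map reg (by omega), getD_map reg (by omega)] at h2 h3
  exact ⟨h1, h2, fun k hk => by rw [← h3 k hk, getD_map reg hk]⟩

end Pool.Agent.FCT
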