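import Pool.Agent.Lib.MP_fe5cb4_co.FCT.Mc1
import Pool.Agent.Lib.MP_fe5cb4_co.FCT.Dual

/-!
Existence of a minimal counterexample in the form of a triangulation.
-/

set_option autoImplicit false

namespace Pool.Agent.FCT

open Finset Relation Pool.Agent.Lib.MP_fe5cb4_co.Sey Pool.Agent.Lib.MP_fe5cb4_co.Sey.Norm

section Rot

variable {V : Type} {T : Tri V} {a b c : V}

theorem Tri.rot_next (h : T.F a b c) : ∀ g i, T.rot a b c i = T.rot a b c (i + g + 1) →
    T.rot a b c (i + 1) ≠ T.rot a b c (i + g)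
  | 0, i => fun _ => (T.ne23 (T.rot_F h i)).symm
  | 1, i => fun e => absurd e.symm (T.opp_ne (T.s23 (T.rot_F h i)))
  | g + 2, i => fun e e' => Tri.rot_next h g (i + 1) (by rw [e']; congr 1; omega) (by
      rw [show i + 1 + 1 = i + 2 from rfl, T.rot_two, e, e', show i + 1 + g = i + g + 1 by omega]
      exact T.rot_back h (i + g + 1))

theorem Tri.rot_succ (h : T.F a b c) {g i : ℕ} (e : T.rot a b c i = T.rot a b c (i + g + 1)) :
    T.rot a b c (i + 1) = T.rot a b c (i + g + 2) := by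
  have h1 := T.rot_F h i
  rw [e] at h1
  exact (T.two (T.s23 (T.rot_F h (i + g))) h1).resolve_left (T.rot_next h g i e)

theorem Tri.rot_all (h : T.F a b c) {g i : ℕ} (e : T.rot a b c i = T.rot a b c (i + g + 1))
    (k : ℕ) : T.rot a b c k = T.rot a b c (k + g + 1) := by
  have up : ∀ i, T.rot a b c i = T.rot a b c (i + g + 1) →
      T.rot a b c (i + 1) = T.rot a b c (i + 1 + g + 1) := fun i e => by
    rw [T.rot_succ h e]
    congr 1
    omega
  have z : T.rot a b c 0 = T.rot a b c (0 + g + 1) := by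
    induction i with
    | zero => exact e
    | succ i ih =>
      refine ih ?_
      rw [← T.rot_back h i, ← T.rot_back h (i + g + 1), up _ e, e]
      congr 2 <;> omega
  induction k with
  | zero => exact z
  | succ k ih => exact up k ih

theorem Tri.ex_per [Finite V] (h : T.F a b c)
    (hl : ∀ x, T.Adj a x → ReflTransGen (T.F a) b x) : ∃ n, (∀ k, T.rot a b c (k + n) =
    T.rot a b c k) ∧ (∀ i < n, ∀ j < n, T.rot a b c i = T.rot a b c j → i = j) ∧
    ∀ x, T.Adj a x → ∃ k < n, T.rot a b c k = x := by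
  classical
  have gap : ∀ i j, i < j → T.rot a b c i = T.rot a b c j →
      ∀ k, T.rot a b c k = T.rot a b c (k + (j - i - 1) + 1) := fun i j ij e =>
    T.rot_all h (i := i) (by rw [e]; congr 1; omega)
  have ex : ∃ g, ∀ k, T.rot a b c k = T.rot a b c (k + g + 1) := by
    obtain ⟨i, j, n, e⟩ := Finite.exists_ne_map_eq_of_infinite (T.rot a b c)
    rcases lt_or_gt_of_ne n with t | t
    exacts [⟨_, gap i j t e⟩, ⟨_, gap j i t e.symm⟩]
  have per := Nat.find_spec ex
  refine ⟨Nat.find ex + 1, fun k => (per k).symm, fun i hi j hj e => by_contra fun n => ?_,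
    fun x hx => ?_⟩
  · rcases lt_or_gt_of_ne n with t | t
    exacts [Nat.find_min ex (by omega) (gap i j t e), Nat.find_min ex (by omega) (gap j i t e.symm)]
  have red : ∀ k, ∃ j < Nat.find ex + 1, T.rot a b c j = T.rot a b c k := fun k => by
    induction k using Nat.strong_induction_on with
    | _ k ih =>
      by_cases t : k < Nat.find ex + 1
      · exact ⟨k, t, rfl⟩
      · obtain ⟨j, h1, h2⟩ := ih (k - (Nat.find ex + 1)) (by omega)
        exact ⟨j, h1, by rw [h2, per]; congr 1; omega⟩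
  obtain ⟨k, rfl⟩ : ∃ k, T.rot a b c k = x := by
    have p := hl x hx
    clear hx
    induction p with
    | refl => exact ⟨0, rfl⟩
    | tail _ f ih =>
      obtain ⟨k, rfl⟩ := ih
      rw [per k] at f
      rcases T.two (T.s23 (T.rot_F h (k + Nat.find ex))) f with e | e
      exacts [⟨_, e.symm⟩, ⟨k + Nat.find ex + 2, e.symm⟩]
  exact red k

end Rot

namespace Mc

variable {V : Type} [Fintype V] [DecidableEq V] {G : SimpleGraph V} {ι : Type} [Fintype ι]
  {B : ι → Ch V}

open Classical in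
/-- the triangulation whose faces are the triangles of the graph -/
noncomputable def tr (h : Cx G) (hE : Low.Emb G B) : Tri V where
  F a b c := G.Adj a b ∧ G.Adj a c ∧ G.Adj b c
  opp a b c := if k : ∃ d, d ≠ c ∧ G.Adj a d ∧ G.Adj b d then k.choose else c
  deg a := G.degree a
  s12 k := ⟨k.1.symm, k.2.2, k.2.1⟩
  s23 k := ⟨k.2.1, k.1, k.2.2.symm⟩
  ne k := k.1.ne
  opp_F {a b c} k := by
    split_ifs with t
    exacts [⟨k.1, t.choose_spec.2⟩, k]
  opp_ne {a b c} k := by
    obtain ⟨_, _, p, q, n, -, -, -, -, e⟩ := h.two hE k.1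
    have t : ∃ d, d ≠ c ∧ G.Adj a d ∧ G.Adj b d := by
      rcases (e c).1 k.2 with u | u
      exacts [⟨q, u ▸ n.symm, (e q).2 (Or.inr rfl)⟩, ⟨p, u ▸ n, (e p).2 (Or.inl rfl)⟩]
    rw [dif_pos t]
    exact t.choose_spec.1
  two {a b c d} k k' := by
    obtain ⟨_, _, p, q, n, -, -, -, -, e⟩ := h.two hE k.1
    refine or_iff_not_imp_left.2 fun m => ?_
    have t : ∃ d, d ≠ c ∧ G.Adj a d ∧ G.Adj b d := ⟨d, m, k'.2⟩
    rw [dif_pos t]
    have := t.choose_spec.1
    rcases (e c).1 k.2 with u | u <;> rcases (e d).1 k'.2 with v | v <;>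
      rcases (e _).1 t.choose_spec.2 with w | w <;> simp_all

theorem tr_adj (h : Cx G) (hE : Low.Emb G B) {a b : V} : (tr h hE).Adj a b ↔ G.Adj a b :=
  ⟨fun ⟨_, k⟩ => k.1, fun k => by
    obtain ⟨_, _, p, q, -, -, -, -, -, e⟩ := h.two hE k
    exact ⟨p, k, (e p).2 (Or.inl rfl)⟩⟩

theorem link (h : Cx G) (hE : Low.Emb G B) {a b x : V} (hb : G.Adj a b) (hx : G.Adj a x) :
    ReflTransGen ((tr h hE).F a) b x := by
  classical
  have e := lc0 hE a (fun u => if ReflTransGen ((tr h hE).F a) b u then 1 else 0)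
    (fun k p q u v => ?_) hb hx
  · rw [if_pos .refl] at e
    exact by_contra fun t => one_ne_zero (e.trans (if_neg t))
  by_cases n : p = q
  · rw [n]
  have f : (tr h hE).F a p q :=
    ⟨Low.adj (hE.mem k) u, Low.adj (hE.mem k) v, (h.all_tri hE u v n).1⟩
  exact if_congr ⟨fun t => t.tail f, fun t => t.tail ((tr h hE).s23 f)⟩ rfl rfl

theorem per (h : Cx G) (hE : Low.Emb G B) {a b c : V} (f : (tr h hE).F a b c) :
    (∀ k, (tr h hE).rot a b c (k + (tr h hE).deg a) = (tr h hE).rot a b c k) ∧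
    (∀ i < (tr h hE).deg a, ∀ j < (tr h hE).deg a,
      (tr h hE).rot a b c i = (tr h hE).rot a b c j → i = j) ∧
    ∀ x, (tr h hE).Adj a x → ∃ k < (tr h hE).deg a, (tr h hE).rot a b c k = x := by
  classical
  obtain ⟨n, h1, h2, h3⟩ := (tr h hE).ex_per f fun x hx => link h hE f.1 ((tr_adj h hE).1 hx)
  have e : (tr h hE).deg a = n := by
    rw [← card_range n]
    refine (card_bij (fun k _ => (tr h hE).rot a b c k) (fun k _ => ?_)
      (fun i hi j hj => h2 i (mem_range.1 hi) j (mem_range.1 hj)) fun x hx => ?_).symm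
    · exact (G.mem_neighborFinset _ _).2 ((tr_adj h hE).1 (Tri.rot_adj f k))
    · obtain ⟨k, k1, k2⟩ := h3 x ((tr_adj h hE).2 ((G.mem_neighborFinset _ _).1 hx))
      exact ⟨k, mem_range.2 k1, k2⟩
  rw [e]
  exact ⟨h1, h2, h3⟩

theorem euler [Nonempty V] (h : Cx G) (hE : Low.Emb G B) :
    ∑ v, (tr h hE).deg v < 6 * Fintype.card V := by
  classical
  have e1 := hE.euler
  have e2 := G.sum_degrees_eq_twice_card_edges
  have e3 : Fintype.card ι * 3 ≤ #G.edgeFinset * 2 :=
    card_mul_le_card_mul (s := univ) (fun i e => B i e ≠ 0) (fun i _ => by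
      obtain ⟨_, _, _, _, p⟩ := hE.edge i
      refine (p.three (hE.mem i)).trans (card_le_card fun e he => ?_)
      have := Low.mem_es.1 he
      exact (mem_bipartiteAbove _).2 ⟨SimpleGraph.mem_edgeFinset.2 ((hE.mem i).1 e this), this⟩)
      fun e _ => hE.le e
  have e4 : ∑ v, (tr h hE).deg v = ∑ v, G.degree v := sum_congr rfl fun v _ => by
    simp only [tr]
  have e5 : ∀ i j : Fintype G.edgeSet, #(@SimpleGraph.edgeFinset V G i) =
      #(@SimpleGraph.edgeFinset V G j) := fun i j => by rw [Subsingleton.elim i j]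
  rw [e5 _ _] at e1
  omega

theorem cocyc (h : Cx G) (hE : Low.Emb G B) (D : V → V → ZMod 2) (hs : ∀ a b, D a b = D b a)
    (hD : ∀ a b c, (tr h hE).F a b c → D a b + D b c + D c a = 0) :
    ∃ x : V → ZMod 2, ∀ a b, (tr h hE).Adj a b → D a b = x a + x b := by
  have o : ∀ a b, ∑ e, one a b e * Sym2.lift ⟨D, hs⟩ e = D a b := fun a b => by
    rw [sum_eq_single s(a, b) (fun e _ n => by
      rw [by_contra fun t => n (one_ne t), zero_mul]) (by simp), one_self, one_mul, Sym2.lift_mk]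
  obtain ⟨x, hx⟩ := Du.pot (G := G) (D := Sym2.lift ⟨D, hs⟩) fun c hc => by
    have k := hE.gen hc
    clear hc
    induction k using Submodule.span_induction with
    | mem _ k =>
      obtain ⟨k, rfl⟩ := k
      obtain ⟨x, u, v, y, p⟩ := hE.edge k
      obtain ⟨t1, t2⟩ := h.all_tri hE p.uv p.ux p.xv.symm
      simp only [t2, tri, Pi.add_apply, add_mul, sum_add_distrib, o]
      exact hD _ _ _ ⟨Low.adj (hE.mem k) p.uv, Low.adj (hE.mem k) p.ux, t1⟩
    | zero => simp
    | add _ _ _ _ p q => simp only [Pi.add_apply, add_mul, sum_add_distrib, p, q, add_zero]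
    | smul r _ _ p => simp only [Pi.smul_apply, smul_eq_mul, mul_assoc, ← mul_sum, p, mul_zero]
  exact ⟨x, fun a b k => hx a b ((tr_adj h hE).1 k)⟩

theorem sides (h : Cx G) (hE : Low.Emb G B) (z : V → V → ZMod 2) (hs : ∀ a b, z a b = z b a)
    (h1 : ∀ a b, z a b ≠ 0 → (tr h hE).Adj a b) (h2 : ∀ a, ∑ b, z a b = 0) :
    ∃ σ : V → V → V → ZMod 2, ∀ a b c, (tr h hE).F a b c →
      σ b a c = σ a b c ∧ σ a c b = σ a b c ∧ σ a b c + σ a b ((tr h hE).opp a b c) = z a b := by
  classical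
  have m : Sym2.lift ⟨z, hs⟩ ∈ Z G := ⟨fun e he => by
    induction e using Sym2.ind with
    | _ a b => exact (tr_adj h hE).1 (h1 a b he), h2⟩
  obtain ⟨r, hr⟩ := (Submodule.mem_span_range_iff_exists_fun _).1 (hE.gen m)
  refine ⟨fun a b c => ∑ k, if B k = tri a b c then r k else 0, fun a b c f =>
    ⟨by simp only [tri12], by simp only [tri23], ?_⟩⟩
  obtain ⟨i, j, p, q, n, e1, e2, e3, e4, e5⟩ := h.two hE f.1
  have fp := (e5 p).2 (Or.inl rfl)
  have fq := (e5 q).2 (Or.inr rfl)
  have ne : tri a b p ≠ tri a b q := fun e => by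
    have t : tri a b p s(a, p) ≠ 0 := by
      rw [← tri23, tri_self f.1.ne fp.2.ne']
      exact one_ne_zero
    rw [e] at t
    rcases tri_ne t with e | e | e <;> rcases Sym2.eq_iff.1 e with e | e
    exacts [fp.2.ne' e.2, f.1.ne e.1, f.1.ne e.1, fq.1.ne e.1, fq.1.ne e.1, n e.2]
  have s : ∀ (i j : ι) (p q : V), G.Adj a p ∧ G.Adj b p → B i = tri a b p → B j = tri a b q →
      tri a b p ≠ tri a b q → (∀ k, B k s(a, b) ≠ 0 → k = i ∨ k = j) →
      (∑ k, if B k = tri a b p then r k else 0) = r i := fun i j p q fp e1 e2 ne e3 => by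
    rw [sum_eq_single i (fun k _ t => if_neg fun u => ?_) (by simp), if_pos e1]
    rcases e3 k (by rw [u, tri_self fp.1.ne fp.2.ne]; exact one_ne_zero) with w | w
    exacts [t w, ne (u.symm.trans (w ▸ e2))]
  have sp := s i j p q fp e1 e2 ne fun k t => (e3 k).1 t
  have sq := s j i q p fq e2 e1 ne.symm fun k t => ((e3 k).1 t).symm
  have e6 : z a b = r i + r j := (congrFun hr s(a, b)).symm.trans (e4 r)
  have n' := (tr h hE).opp_ne f
  rcases (e5 _).1 f.2 with u | u <;> rcases (e5 _).1 ((tr h hE).opp_F f).2 with v | v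
  · exact absurd (v.trans u.symm) n'
  · simp only [v]
    rw [u, sp, sq, e6]
  · simp only [v]
    rw [u, sp, sq, e6, add_comm]
  · exact absurd (v.trans u.symm) n'

omit [DecidableEq V] in
theorem contr (h : Cx G) (X : V → V → Prop) (hX : ∀ a b, X a b → G.Adj a b) (ne : ∃ a b, X a b) :
    ∃ c : V → K, (∀ a b, X a b → c a = c b) ∧
      ∀ a b, G.Adj a b → ¬ EqvGen X a b → c a ≠ c b := by
  classical
  let π : V → Quot X := Quot.mk X
  have : Fintype (Quot X) := Fintype.ofFinite _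
  obtain ⟨c, hc⟩ := h.sm (Quot X) (SimpleGraph.fromRel fun p q => ∃ a b, π a = p ∧ π b = q ∧
    G.Adj a b) (Fintype.card_lt_of_surjective_not_injective π Quot.mk_surjective fun t => by
      obtain ⟨a, b, k⟩ := ne
      exact (hX a b k).ne (t (Quot.sound k))) (minor_thm V (Quot X) G _ (fun a => some (π a))
      (fun w a b ha hb => by
        have k := Quot.eqvGen_exact (Option.some.inj (ha.trans hb.symm))
        induction k with
        | rel a b k => exact .single ⟨hX a b k, ha, hb⟩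
        | refl => exact .refl
        | symm a b _ ih =>
          refine ReflTransGen.mono (fun _ _ t => ?_) _ _ (ih hb ha).swap
          exact ⟨t.1.symm, t.2.2, t.2.1⟩
        | trans a b c k _ i1 i2 =>
          have : some (π b) = some w := (congrArg some (Quot.eqvGen_sound k)).symm.trans ha
          exact (i1 ha this).trans (i2 this hb))
      (by
        rintro w w' ⟨-, ⟨a, b, rfl, rfl, k⟩ | ⟨a, b, rfl, rfl, k⟩⟩
        exacts [⟨a, b, rfl, rfl, k⟩, ⟨b, a, rfl, rfl, k.symm⟩]) h.pl)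
  exact ⟨fun a => c (π a), fun a b k => congrArg c (Quot.sound k), fun a b k n =>
    hc _ _ ⟨fun e => n (Quot.eqvGen_exact e), Or.inl ⟨a, b, rfl, rfl, k⟩⟩⟩

end Mc

open Mc in
theorem mc_thm : StMc := by
  classical
  intro h
  obtain ⟨V, _, G, h⟩ := exists_cx h
  obtain ⟨ι, _, B, hE⟩ := h.emb
  have ne : Nonempty V := by_contra fun t => h.nc ⟨0, fun a => absurd ⟨a⟩ t⟩
  refine ⟨V, _, tr h hE, ne, fun a => ?_, fun f => (per h hE f).1, fun f => (per h hE f).2.1,
    fun f => (per h hE f).2.2 _, euler h hE, cocyc h hE, sides h hE, fun X hX n => ?_,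
    fun ⟨c, hc⟩ => h.nc ⟨c, fun a b k => hc a b ((tr_adj h hE).2 k)⟩⟩
  · obtain ⟨b, hb, -⟩ := h.fourth a a a a
    exact ⟨b, (tr_adj h hE).2 hb⟩
  · obtain ⟨c, h1, h2⟩ := contr h X (fun a b k => (tr_adj h hE).1 (hX a b k)) n
    exact ⟨c, h1, fun a b k => h2 a b ((tr_adj h hE).1 k)⟩

end Pool.Agent.FCT
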