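import Pool.Agent.Lib.MP_fe5cb4_co.FCT.GAll
import Pool.Agent.Lib.MP_fe5cb4_co.FCT.D.All
import Pool.Agent.Lib.MP_fe5cb4_co.FCT.Mc
import Pool.Agent.Lib.MP_fe5cb4_co.FCT.Birk

/-!
The four colour theorem.
-/

set_option autoImplicit false

namespace Pool.Agent.FCT

theorem four_thm : Four := by
  by_contra h
  obtain ⟨V, _, T, M⟩ := mc_thm h
  have B := birk_thm V T M
  exact D.dis_thm V T M B fun j hj => tab_all j (Nat.zero_le j) hj V T M B

end Pool.Agent.FCT
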