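import Pool.Agent.Lib.MP_fe5cb4_co.FC.R.G0
import Pool.Agent.Lib.MP_fe5cb4_co.FC.R.G1
import Pool.Agent.Lib.MP_fe5cb4_co.FC.R.G2
import Pool.Agent.Lib.MP_fe5cb4_co.FC.R.G3
import Pool.Agent.Lib.MP_fe5cb4_co.FC.R.G4
import Pool.Agent.Lib.MP_fe5cb4_co.FC.R.G5
import Pool.Agent.Lib.MP_fe5cb4_co.FC.R.G6
import Pool.Agent.Lib.MP_fe5cb4_co.FC.R.G7
import Pool.Agent.Lib.MP_fe5cb4_co.FC.R.G8
import Pool.Agent.Lib.MP_fe5cb4_co.FC.R.G9
import Pool.Agent.Lib.MP_fe5cb4_co.FC.R.G10
import Pool.Agent.Lib.MP_fe5cb4_co.FC.R.G11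
import Pool.Agent.Lib.MP_fe5cb4_co.FC.R.G12
import Pool.Agent.Lib.MP_fe5cb4_co.FC.R.G13
import Pool.Agent.Lib.MP_fe5cb4_co.FC.R.G14
import Pool.Agent.Lib.MP_fe5cb4_co.FC.R.G15
import Pool.Agent.Lib.MP_fe5cb4_co.FCT.D.Qz

/-!
All quizzes of the table have no solution in a minimal counterexample.
-/

set_option autoImplicit false

namespace Pool.Agent.FCT

theorem tab0 : TabQ D.qz 0 80 := tabQ_of_link R.all0 0 80 (by decide +kernel)

theorem tab1 : TabQ D.qz 80 160 := tabQ_of_link R.all1 80 160 (by decide +kernel)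

theorem tab2 : TabQ D.qz 160 240 := tabQ_of_link R.all2 160 240 (by decide +kernel)

theorem tab3 : TabQ D.qz 240 320 := tabQ_of_link R.all3 240 320 (by decide +kernel)

theorem tab4 : TabQ D.qz 320 400 := tabQ_of_link R.all4 320 400 (by decide +kernel)

theorem tab5 : TabQ D.qz 400 480 := tabQ_of_link R.all5 400 480 (by decide +kernel)

theorem tab6 : TabQ D.qz 480 560 := tabQ_of_link R.all6 480 560 (by decide +kernel)

theorem tab7 : TabQ D.qz 560 640 := tabQ_of_link R.all7 560 640 (by decide +kernel)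

theorem tab8 : TabQ D.qz 640 720 := tabQ_of_link R.all8 640 720 (by decide +kernel)

theorem tab9 : TabQ D.qz 720 800 := tabQ_of_link R.all9 720 800 (by decide +kernel)

theorem tab10 : TabQ D.qz 800 880 := tabQ_of_link R.all10 800 880 (by decide +kernel)

theorem tab11 : TabQ D.qz 880 960 := tabQ_of_link R.all11 880 960 (by decide +kernel)

theorem tab12 : TabQ D.qz 960 1040 := tabQ_of_link R.all12 960 1040 (by decide +kernel)

theorem tab13 : TabQ D.qz 1040 1120 := tabQ_of_link R.all13 1040 1120 (by decide +kernel)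

theorem tab14 : TabQ D.qz 1120 1200 := tabQ_of_link R.all14 1120 1200 (by decide +kernel)

theorem tab15 : TabQ D.qz 1200 1246 := tabQ_of_link R.all15 1200 1246 (by decide +kernel)

theorem tab_all : TabQ D.qz 0 1246 :=
  tab0.trans <|
  tab1.trans <|
  tab2.trans <|
  tab3.trans <|
  tab4.trans <|
  tab5.trans <|
  tab6.trans <|
  tab7.trans <|
  tab8.trans <|
  tab9.trans <|
  tab10.trans <|
  tab11.trans <|
  tab12.trans <|
  tab13.trans <|
  tab14.trans <|
  tab15

end Pool.Agent.FCT
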