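import Pool.Agent.Lib.MP_fe5cb4_co.FCT.Basic
import Pool.Agent.Lib.MP_fe5cb4_co.Sey.Low1
import Pool.Agent.Lib.MP_fe5cb4_co.Sey.Minor

/-!
An edge-maximal minimal counterexample: no clique separates, and all members are triangles.
-/

set_option autoImplicit false

namespace Pool.Agent.FCT

open Finset Relation Pool.Agent.Lib.MP_fe5cb4_co.Sey Pool.Agent.Lib.MP_fe5cb4_co.Sey.Norm

namespace Mc

/-- a counterexample with the least number of vertices and a maximal set of edges -/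
structure Cx {V : Type} [Fintype V] (G : SimpleGraph V) : Prop where
  pl : Planar G
  nc : ¬ ∃ c : V → K, ∀ a b, G.Adj a b → c a ≠ c b
  sm : ∀ (W : Type) [Fintype W] (H : SimpleGraph W), Fintype.card W < Fintype.card V →
    Planar H → ∃ c : W → K, ∀ a b, H.Adj a b → c a ≠ c b
  mx : ∀ x y, x ≠ y → Planar (G ⊔ SimpleGraph.edge x y) → G.Adj x y

theorem exists_cx (h : ¬ Four) : ∃ (V : Type) (_ : Fintype V) (G : SimpleGraph V), Cx G := by
  classical
  have ex : ∃ n, ∃ (V : Type) (_ : Fintype V) (G : SimpleGraph V), Fintype.card V = n ∧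
      Planar G ∧ ¬ ∃ c : V → K, ∀ a b, G.Adj a b → c a ≠ c b := by
    by_contra k
    exact h fun V i G hG => by_contra fun t => k ⟨_, V, i, G, rfl, hG, t⟩
  obtain ⟨V, _, G, e, h1, h2⟩ := Nat.find_spec ex
  obtain ⟨H, hH⟩ := (Set.toFinite {H : SimpleGraph V | Planar H ∧
    ¬ ∃ c : V → K, ∀ a b, H.Adj a b → c a ≠ c b}).exists_maximal ⟨G, h1, h2⟩
  refine ⟨V, _, H, hH.1.1, hH.1.2, fun W _ H' hW hp => by_contra fun t =>
    Nat.find_min ex (e ▸ hW) ⟨W, _, H', rfl, hp, t⟩, fun x y xy hp => ?_⟩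
  exact hH.2 ⟨hp, fun ⟨c, hc⟩ => hH.1.2 ⟨c, fun a b k => hc a b (Or.inl k)⟩⟩ le_sup_left
    (Or.inr ((SimpleGraph.edge_adj ..).2 ⟨Or.inl ⟨rfl, rfl⟩, xy⟩))

variable {V : Type} [Fintype V] [DecidableEq V] {G : SimpleGraph V}

theorem Cx.del (h : Cx G) (v : V) :
    ∃ c : V → K, ∀ a b, a ≠ v → b ≠ v → G.Adj a b → c a ≠ c b := by
  obtain ⟨c, hc⟩ := h.sm {x // x ≠ v} (G.comap Subtype.val)
    (Fintype.card_subtype_lt (x := v) (by simp)) (h.pl.comap _ Subtype.val_injective)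
  refine ⟨fun a => if k : a ≠ v then c ⟨a, k⟩ else 0, fun a b ha hb k => ?_⟩
  simp only [dif_pos ha, dif_pos hb]
  exact hc _ _ k

theorem Cx.nocut (h : Cx G) (Q : Set V) (hQ : ∀ a ∈ Q, ∀ b ∈ Q, a ≠ b → G.Adj a b) {a b : V}
    (ha : a ∉ Q) (hb : b ∉ Q) : ReflTransGen (fun s t => G.Adj s t ∧ s ∉ Q ∧ t ∉ Q) a b := by
  classical
  by_contra k
  obtain ⟨c1, h1⟩ := h.del b
  obtain ⟨c2, h2⟩ := h.del a
  have n : ∀ {z : V}, z ∉ Q → ∀ q : Q, q.1 ≠ z := fun hz q e => hz (e ▸ q.2)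
  obtain ⟨σ, hσ⟩ := Equiv.Perm.exists_extending_pair (fun q : Q => c1 q) (fun q : Q => c2 q)
    (fun p q e => by_contra fun t =>
      h1 _ _ (n hb p) (n hb q) (hQ _ p.2 _ q.2 fun u => t (Subtype.ext u)) e)
    (fun p q e => by_contra fun t =>
      h2 _ _ (n ha p) (n ha q) (hQ _ p.2 _ q.2 fun u => t (Subtype.ext u)) e)
  let R := ReflTransGen (fun s t => G.Adj s t ∧ s ∉ Q ∧ t ∉ Q) a
  have hR : ∀ x, R x → x ∉ Q := fun x hx => by
    induction hx with
    | refl => exact ha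
    | tail _ u => exact u.2.2
  have mix : ∀ x y, G.Adj x y → R x → ¬ R y → σ (c1 x) ≠ c2 y := fun x y xy hx hy => by
    have : y ∈ Q := by_contra fun t => hy (hx.tail ⟨xy, hR x hx, t⟩)
    rw [← hσ ⟨y, this⟩]
    exact σ.injective.ne (h1 _ _ (fun e => k (e ▸ hx)) (n hb ⟨y, this⟩) xy)
  refine h.nc ⟨fun x => if R x then σ (c1 x) else c2 x, fun x y xy => ?_⟩
  by_cases hx : R x <;> by_cases hy : R y <;> simp only [hx, hy, if_true, if_false]
  · exact σ.injective.ne (h1 _ _ (fun e => k (e ▸ hx)) (fun e => k (e ▸ hy)) xy)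
  · exact mix x y xy hx hy
  · exact (mix y x xy.symm hy hx).symm
  · exact h2 _ _ (fun e => hx (e ▸ .refl)) (fun e => hy (e ▸ .refl)) xy

theorem Cx.fourth (h : Cx G) (v a b c : V) : ∃ z, G.Adj v z ∧ z ≠ a ∧ z ≠ b ∧ z ≠ c := by
  by_contra! k
  obtain ⟨f, hf⟩ := h.del v
  obtain ⟨t, t1, t2, t3⟩ := (by decide : ∀ x y z : K, ∃ t, t ≠ x ∧ t ≠ y ∧ t ≠ z) (f a) (f b) (f c)
  have m : ∀ y, G.Adj v y → t ≠ f y := fun y hy => by
    by_cases e : y = a
    · exact e ▸ t1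
    by_cases e' : y = b
    · exact e' ▸ t2
    · exact k y hy e e' ▸ t3
  refine h.nc ⟨fun x => if x = v then t else f x, fun x y xy => ?_⟩
  by_cases hx : x = v <;> by_cases hy : y = v <;> simp only [hx, hy, if_true, if_false]
  · exact absurd (hx.trans hy.symm) xy.ne
  · exact m y (hx ▸ xy)
  · exact (m x (hy ▸ xy.symm)).symm
  · exact hf _ _ hx hy xy

theorem Cx.emb (h : Cx G) : ∃ (ι : Type) (_ : Fintype ι) (B : ι → Ch V), Low.Emb G B :=
  Low.ex_emb h.pl (fun v _ _ ha hb => h.nocut {v} (fun _ p _ q n => absurd (p.trans q.symm) n)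
    ha.ne' hb.ne') (fun u v w _ _ _ => (h.fourth v u w w).imp fun _ k => ⟨k.1, k.2.1, k.2.2.1⟩)
    fun u v _ => (h.fourth u v v v).imp fun _ k => ⟨k.1, k.2.1⟩

variable {ι : Type} [Fintype ι] {B : ι → Ch V}

omit [DecidableEq V] in
theorem pair (h : Low.Emb G B) {a b : V} (ab : G.Adj a b) : ∃ i j, i ≠ j ∧
    (∀ k, B k s(a, b) ≠ 0 ↔ k = i ∨ k = j) ∧
    ∀ r : ι → ZMod 2, (∑ k, r k • B k) s(a, b) = r i + r j := by
  classical
  obtain ⟨i, j, ij, e⟩ := card_eq_two.1 (h.two s(a, b) ab)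
  have m : ∀ k, B k s(a, b) ≠ 0 ↔ k = i ∨ k = j := fun k => by
    simpa using Finset.ext_iff.1 e k
  refine ⟨i, j, ij, m, fun r => ?_⟩
  rw [Finset.sum_apply, sum_eq_add i j ij (fun k _ t => ?_) (by simp) (by simp)]
  · simp only [Pi.smul_apply, ne_zero_iff.1 ((m i).2 (Or.inl rfl)),
      ne_zero_iff.1 ((m j).2 (Or.inr rfl)), smul_eq_mul, mul_one]
  · rw [Pi.smul_apply, by_contra fun u => ((m k).1 u).elim t.1 t.2, smul_zero]

theorem lc0 (h : Low.Emb G B) (v : V) (χ : V → ZMod 2)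
    (hχ : ∀ k p q, B k s(v, p) ≠ 0 → B k s(v, q) ≠ 0 → χ p = χ q) {a b : V} (ha : G.Adj v a)
    (hb : G.Adj v b) : χ a = χ b := by
  by_cases ab : a = b
  · rw [ab]
  obtain ⟨z, z1, z2, z3, z4⟩ := loc h.loc ha hb ab
  have L : ∀ c ∈ Submodule.span (ZMod 2) (Set.range B), ∑ u, c s(v, u) * χ u = 0 := by
    intro c hc
    induction hc using Submodule.span_induction with
    | mem _ k =>
      obtain ⟨k, rfl⟩ := k
      by_cases t : ∃ p, B k s(v, p) ≠ 0
      · obtain ⟨p, hp⟩ := t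
        rw [sum_congr rfl (g := fun u => B k s(v, u) * χ p) fun u _ => ?_, ← sum_mul,
          show ∑ u, B k s(v, u) = 0 from (h.mem k).2 v, zero_mul]
        by_cases w : B k s(v, u) = 0
        · rw [w, zero_mul, zero_mul]
        · rw [hχ k u p w hp]
      · exact sum_eq_zero fun u _ => by rw [by_contra fun w => t ⟨u, w⟩, zero_mul]
    | zero => simp
    | add _ _ _ _ p q => simp only [Pi.add_apply, add_mul, sum_add_distrib, p, q, add_zero]
    | smul r _ _ p => simp only [Pi.smul_apply, smul_eq_mul, mul_assoc, ← mul_sum, p, mul_zero]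
  have e := L z (h.gen z1)
  rw [sum_eq_add a b ab (fun u _ t => by rw [z4 u t.1 t.2, zero_mul]) (by simp) (by simp), z2, z3,
    one_mul, one_mul] at e
  exact CharTwo.add_eq_zero.1 e

/-- members through a vertex off a sum of members have the same coefficient -/
theorem side (h : Low.Emb G B) (r : ι → ZMod 2) {w : V} (hw : ∀ u, (∑ k, r k • B k) s(w, u) = 0)
    {i j : ι} {a b : V} (hi : B i s(w, a) ≠ 0) (hj : B j s(w, b) ≠ 0) : r i = r j := by
  classical
  have m : ∀ k u, B k s(w, u) ≠ 0 →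
      (if t : ∃ k, B k s(w, u) ≠ 0 then r t.choose else 0) = r k := fun k u t => by
    have ex : ∃ k, B k s(w, u) ≠ 0 := ⟨k, t⟩
    obtain ⟨p, q, -, e1, e2⟩ := pair h (Low.adj (h.mem k) t)
    have e3 := CharTwo.add_eq_zero.1 ((e2 r).symm.trans (hw u))
    rw [dif_pos ex]
    rcases (e1 _).1 ex.choose_spec with x | x <;> rcases (e1 _).1 t with y | y <;>
      simp only [x, y, e3]
  rw [← m i a hi, ← m j b hj]
  exact lc0 h w _ (fun k p q x y => (m k p x).trans (m k q y).symm) (Low.adj (h.mem i) hi)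
    (Low.adj (h.mem j) hj)

/-- the chain of a triangle -/
def tri (x y z : V) : Ch V := one x y + one y z + one z x

omit [Fintype V] in
theorem one_comm (a b : V) : one a b = one b a := by rw [one, one, Sym2.eq_swap]

omit [Fintype V] in
theorem tri12 (x y z : V) : tri y x z = tri x y z := by
  rw [tri, tri, one_comm y x, one_comm x z, one_comm z y, add_right_comm]

omit [Fintype V] in
theorem tri23 (x y z : V) : tri x z y = tri x y z := by
  rw [tri, tri, one_comm x z, one_comm z y, one_comm y x]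
  abel

omit [Fintype V] in
theorem tri_ne {x y z : V} {e : Sym2 V} (h : tri x y z e ≠ 0) :
    e = s(x, y) ∨ e = s(y, z) ∨ e = s(z, x) := by
  by_contra! k
  exact h (by rw [tri, Pi.add_apply, Pi.add_apply, by_contra fun t => k.1 (one_ne t),
    by_contra fun t => k.2.1 (one_ne t), by_contra fun t => k.2.2 (one_ne t)]; rfl)

omit [Fintype V] in
theorem tri_self {x y z : V} (xz : x ≠ z) (yz : y ≠ z) : tri x y z s(x, y) = 1 := by
  have h1 : one y z s(x, y) = 0 := by_contra fun t => by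
    rcases Sym2.eq_iff.1 (one_ne t) with u | u
    exacts [yz u.2, xz u.1]
  have h2 : one z x s(x, y) = 0 := by_contra fun t => by
    rcases Sym2.eq_iff.1 (one_ne t) with u | u
    exacts [xz u.1, yz u.2]
  rw [tri, Pi.add_apply, Pi.add_apply, one_self, h1, h2, add_zero, add_zero]

theorem tri_mem {x y z : V} (xy : G.Adj x y) (xz : G.Adj x z) (yz : G.Adj y z) :
    tri x y z ∈ Z G := by
  refine ⟨fun e he => ?_, fun v => ?_⟩
  · rcases tri_ne he with rfl | rfl | rfl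
    exacts [xy, yz, xz.symm]
  · rw [tri, bd_add, bd_add, bd_one xy.ne, bd_one yz.ne, bd_one xz.ne']
    exact (by decide : ∀ p q r : ZMod 2, p + q + (q + r) + (r + p) = 0) _ _ _

/-- every triangle is a member -/
theorem Cx.mem_tri (h : Cx G) (hE : Low.Emb G B) {v a b : V} (va : G.Adj v a) (vb : G.Adj v b)
    (ab : G.Adj a b) : ∃ g, B g = tri v a b := by
  obtain ⟨r, hr⟩ := (Submodule.mem_span_range_iff_exists_fun _).1 (hE.gen (tri_mem va vb ab))
  let Q : Set V := {v, a, b}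
  have off : ∀ w ∉ Q, ∀ u, tri v a b s(w, u) = 0 := fun w hw u => by_contra fun t => by
    rcases tri_ne t with e | e | e <;> rcases Sym2.eq_iff.1 e with e | e <;> simp [Q, e.1] at hw
  have cl : ∀ x ∈ Q, ∀ y ∈ Q, x ≠ y → G.Adj x y := by
    rintro x (rfl | rfl | rfl) y (rfl | rfl | rfl) n <;>
      first | exact absurd rfl n | assumption | (symm; assumption)
  have same : ∀ w ∉ Q, ∀ w' ∉ Q, ∀ i j u u', B i s(w, u) ≠ 0 → B j s(w', u') ≠ 0 → r i = r j := by
    intro w hw w' hw' i j u u' hi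
    have p := h.nocut Q cl hw hw'
    induction p generalizing j u' with
    | refl => exact side hE r (hr ▸ off w hw) hi
    | @tail s t _ st ih =>
      obtain ⟨k, _, -, e, -⟩ := pair hE st.1
      have e1 := (e k).2 (Or.inl rfl)
      exact fun hj => (ih st.2.1 k t e1).trans
        (side hE r (hr ▸ off t hw') (Sym2.eq_swap ▸ e1) hj)
  obtain ⟨g, g1, g2⟩ : ∃ g, B g s(v, a) ≠ 0 ∧ ∀ w ∉ Q, ∀ u, B g s(w, u) = 0 := by
    obtain ⟨i, j, -, e1, e2⟩ := pair hE va
    by_contra! t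
    obtain ⟨w, w1, u, w2⟩ := t i ((e1 i).2 (Or.inl rfl))
    obtain ⟨w', w3, u', w4⟩ := t j ((e1 j).2 (Or.inr rfl))
    have e3 := e2 r
    rw [hr, tri_self vb.ne ab.ne, same w w1 w' w3 i j u u' w2 w4, add_self] at e3
    exact one_ne_zero e3
  have cz : B g + tri v a b ∈ Z G := add_mem (hE.mem g) (tri_mem va vb ab)
  have c0 : ∀ w ∉ Q, ∀ u, (B g + tri v a b) s(w, u) = 0 := fun w hw u => by
    rw [Pi.add_apply, g2 w hw, off w hw, add_zero]
  have c1 : (B g + tri v a b) s(v, a) = 0 := by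
    rw [Pi.add_apply, ne_zero_iff.1 g1, tri_self vb.ne ab.ne, add_self]
  have c2 : ∀ x y, (B g + tri v a b) s(x, y) = 0 → (∀ u ∈ Q, u = x ∨ u = y ∨ u = b) →
      (B g + tri v a b) s(x, b) = 0 := fun x y k1 k2 => by_contra fun t => by
    obtain ⟨u, u1, u2, u3⟩ := second cz t
    rcases k2 u (by_contra fun n => u2 (Sym2.eq_swap ▸ c0 u n x)) with e | e | e
    exacts [u3.ne' e, u2 (e ▸ k1), u1 e]
  have c3 := c2 v a c1 fun u k => k
  have c4 := c2 a v (Sym2.eq_swap ▸ c1) fun u k => or_left_comm.1 k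
  refine ⟨g, funext fun e => CharTwo.add_eq_zero.1 (by_contra fun t => ?_)⟩
  induction e using Sym2.ind with
  | _ x y =>
    have xy : G.Adj x y := cz.1 _ t
    have hx : x ∈ Q := by_contra fun n => t (c0 x n y)
    have hy : y ∈ Q := by_contra fun n => t (Sym2.eq_swap ▸ c0 y n x)
    rcases hx with rfl | rfl | rfl <;> rcases hy with rfl | rfl | rfl <;>
      first
      | exact xy.ne rfl
      | exact t c1
      | exact t c3
      | exact t c4
      | exact t (Sym2.eq_swap ▸ c1)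
      | exact t (Sym2.eq_swap ▸ c3)
      | exact t (Sym2.eq_swap ▸ c4)

/-- every member is a triangle -/
theorem Cx.all_tri (h : Cx G) (hE : Low.Emb G B) {f : ι} {v a b : V} (fa : B f s(v, a) ≠ 0)
    (fb : B f s(v, b) ≠ 0) (n : a ≠ b) : G.Adj a b ∧ B f = tri v a b := by
  have va := Low.adj (hE.mem f) fa
  have vb := Low.adj (hE.mem f) fb
  have ab : G.Adj a b := h.mx a b n (Cofacial.chord hE.mem hE.le hE.gen f n (one a v + one v b)
    (Cofacial.add_one (fun e k => one_ne k ▸ Sym2.eq_swap ▸ fa) fb) fun s => by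
      rw [bd_add, bd_one va.ne', bd_one vb.ne]
      exact (by decide : ∀ p q r : ZMod 2, p + q + (q + r) = p + r) _ _ _)
  obtain ⟨g, hg⟩ := h.mem_tri hE va vb ab
  obtain ⟨z, z1, z2, z3, -⟩ := h.fourth v a b b
  refine ⟨ab, by_contra fun t => no_pair hE.loc hE.le hE.gen va z1 z2 z3 n
    (fun e : f = g => t (e ▸ hg)) fa fb ?_ ?_⟩
  · rw [hg, tri_self vb.ne ab.ne]
    exact one_ne_zero
  · rw [hg, ← tri23, tri_self va.ne ab.ne']
    exact one_ne_zero

/-- the two members at an edge and their apexes -/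
theorem Cx.two (h : Cx G) (hE : Low.Emb G B) {x y : V} (xy : G.Adj x y) : ∃ i j p q, p ≠ q ∧
    B i = tri x y p ∧ B j = tri x y q ∧ (∀ k, B k s(x, y) ≠ 0 ↔ k = i ∨ k = j) ∧
    (∀ r : ι → ZMod 2, (∑ k, r k • B k) s(x, y) = r i + r j) ∧
    ∀ z, G.Adj x z ∧ G.Adj y z ↔ z = p ∨ z = q := by
  obtain ⟨i, j, ij, e1, e2⟩ := pair hE xy
  have bi := (e1 i).2 (Or.inl rfl)
  have bj := (e1 j).2 (Or.inr rfl)
  obtain ⟨p, p1, p2, p3⟩ := second (hE.mem i) bi
  obtain ⟨q, q1, q2, q3⟩ := second (hE.mem j) bj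
  obtain ⟨p4, p5⟩ := h.all_tri hE bi p2 p1.symm
  obtain ⟨q4, q5⟩ := h.all_tri hE bj q2 q1.symm
  obtain ⟨z, z1, z2, z3, -⟩ := h.fourth x y p p
  refine ⟨i, j, p, q, fun e => no_pair hE.loc hE.le hE.gen xy z1 z2 z3 p1.symm ij bi p2 bj
    (e ▸ q2), p5, q5, e1, e2, fun w => ⟨fun k => ?_, ?_⟩⟩
  · obtain ⟨g, hg⟩ := h.mem_tri hE xy k.1 k.2
    have g1 : B g s(x, w) ≠ 0 := by
      rw [hg, ← tri23, tri_self xy.ne k.2.ne']
      exact one_ne_zero
    have key : ∀ t, G.Adj x t → tri x y t s(x, w) ≠ 0 → w = t := fun t xt u => by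
      rcases tri_ne u with e | e | e <;> rcases Sym2.eq_iff.1 e with e | e
      exacts [absurd e.2 k.2.ne', absurd e.1 xy.ne, absurd e.1 xy.ne, absurd e.1 xt.ne,
        absurd e.1 xt.ne, e.2]
    refine ((e1 g).1 ?_).imp (fun e : g = i => key p p3 (p5 ▸ e ▸ g1))
      fun e : g = j => key q q3 (q5 ▸ e ▸ g1)
    rw [hg, tri_self k.1.ne k.2.ne]
    exact one_ne_zero
  · rintro (rfl | rfl)
    exacts [⟨p3, p4⟩, ⟨q3, q4⟩]

end Mc

end Pool.Agent.FCT
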