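import Pool.Agent.Lib.MP_fe5cb4_co.FCT.Basic

/-!
The image of a configuration is a patch.
-/

set_option autoImplicit false

namespace Pool.Agent.FCT

open Relation

theorem pat_rg_mem {R : List ℕ} (h : 0 < R.length) (p : ℕ) : rg R p ∈ R :=
  getD_mem (Nat.mod_lt _ h)

theorem pat_rg_inj {R : List ℕ} (hn : R.Nodup) (h : 0 < R.length) {p q : ℕ}
    (e : rg R p = rg R q) : p % R.length = q % R.length := by
  unfold rg at e
  rw [List.getD_eq_getElem _ _ (Nat.mod_lt _ h), List.getD_eq_getElem _ _ (Nat.mod_lt _ h)] at e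
  exact hn.getElem_inj_iff.1 e

theorem pat_succ_mod {p r : ℕ} (h : p < r) :
    ((p + 1) % r = p + 1 ∧ p + 1 < r) ∨ ((p + 1) % r = 0 ∧ p + 1 = r) := by
  rcases Nat.lt_or_ge (p + 1) r with h1 | h1
  · exact Or.inl ⟨Nat.mod_eq_of_lt h1, h1⟩
  · have e : p + 1 = r := by omega
    exact Or.inr ⟨by rw [e, Nat.mod_self], e⟩

variable {V : Type} {T : Tri V} {J : V → V → Prop}

theorem pat_s12 (a b c : V) : ReflTransGen (Step T J) (a, b, c) (b, a, c) :=
  .single (Or.inl rfl)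

theorem pat_s23 (a b c : V) : ReflTransGen (Step T J) (a, b, c) (a, c, b) :=
  .single (Or.inr (Or.inl rfl))

theorem pat_rot {a : V} (hJ : ∀ b, J a b) (b c : V) (k : ℕ) :
    ReflTransGen (Step T J) (a, b, c) (a, T.rot a b c k, T.rot a b c (k + 1)) := by
  induction k with
  | zero => exact .refl
  | succ k ih => exact (ih.trans (pat_s23 _ _ _)).tail (Or.inr (Or.inr ⟨hJ _, rfl⟩))

/-- Every flag at `a` reaches every flag at `b`. -/
def PatG (T : Tri V) (J : V → V → Prop) (a b : V) : Prop :=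
  ∀ s t s' t', T.F a s t → T.F b s' t' → ReflTransGen (Step T J) (a, s, t) (b, s', t')

variable [Fintype V]

theorem pat_self (M : MC T) {a : V} (hJ : ∀ b, J a b) : PatG T J a a := by
  intro s t s' t' h h'
  obtain ⟨k, -, ⟨rfl, rfl⟩ | ⟨rfl, rfl⟩⟩ := M.face_rot h h'
  · exact pat_rot hJ s t k
  · exact (pat_rot hJ s t k).trans (pat_s23 _ _ _)

theorem pat_adj (M : MC T) {a b : V} (ha : ∀ x, J a x) (hb : ∀ x, J b x) (h : T.Adj a b) :
    PatG T J a b := by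
  intro s t s' t' h1 h2
  obtain ⟨c, hc⟩ := h
  exact ((pat_self M ha _ _ _ _ h1 hc).trans (pat_s12 _ _ _)).trans
    (pat_self M hb _ _ _ _ (T.s12 hc) h2)

theorem pat_trans (M : MC T) {a b c : V} (h : PatG T J a b) (h' : PatG T J b c) :
    PatG T J a c := by
  intro s t s' t' h1 h2
  obtain ⟨x, y, hb⟩ := M.flag b
  exact (h _ _ _ _ h1 hb).trans (h' _ _ _ _ hb h2)

theorem pat_thm : StPat := by
  intro V _ T M S φ hS L E
  have h3 := hS.three
  have hr : 0 < S.ring.length := by omega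
  choose! ap hap using hS.ring_face
  have hfc : ∀ p < S.ring.length, Fc S.whl (ap p) (rg S.ring p) (rg S.ring (p + 1)) ∨
      Fc S.whl (ap p) (rg S.ring (p + 1)) (rg S.ring p) := fun p hp => (hap p hp _).1 rfl
  have hnb : ∀ p < S.ring.length, Nb S.whl (ap p) (rg S.ring p) ∧
      Nb S.whl (ap p) (rg S.ring (p + 1)) := fun p hp =>
    (hfc p hp).elim Fc.nb fun k => k.nb.symm
  have hF : ∀ p < S.ring.length, T.F (φ (ap p)) (φ (rg S.ring p)) (φ (rg S.ring (p + 1))) :=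
    fun p hp => (hfc p hp).elim (L.fc M) fun k => T.s23 (L.fc M k)
  have hoff : ∀ p x, Inn S.whl x → φ (rg S.ring p) ≠ φ x := by
    intro p x hx e
    obtain ⟨h1, w, h2⟩ := (hS.ring_iff _).1 (pat_rg_mem hr p)
    exact h1 (E.2.2 w _ x h2 hx e ▸ hx)
  have hJ : ∀ x, Inn S.whl x → ∀ b, ∃ y, Inn S.whl y ∧ (φ x = φ y ∨ b = φ y) :=
    fun x hx _ => ⟨x, hx, Or.inl rfl⟩
  have hnG : ∀ x y, Inn S.whl y → Nb S.whl x y →
      PatG T (fun a b => ∃ x, Inn S.whl x ∧ (a = φ x ∨ b = φ x)) (φ x) (φ y) ∧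
      PatG T (fun a b => ∃ x, Inn S.whl x ∧ (a = φ x ∨ b = φ x)) (φ y) (φ x) := fun x y hy h =>
    ⟨pat_adj M (hJ x h.inn) (hJ y hy) (L.adj M h),
      pat_adj M (hJ y hy) (hJ x h.inn) (L.adj M h).symm⟩
  have hG : ∀ x, Inn S.whl x →
      PatG T (fun a b => ∃ x, Inn S.whl x ∧ (a = φ x ∨ b = φ x)) (φ 0) (φ x) ∧
      PatG T (fun a b => ∃ x, Inn S.whl x ∧ (a = φ x ∨ b = φ x)) (φ x) (φ 0) := by
    intro x hx
    rcases hS.radius x hx with rfl | h | ⟨p, h1, h2⟩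
    · exact ⟨pat_self M (hJ 0 hx), pat_self M (hJ 0 hx)⟩
    · exact hnG 0 x hx h
    · exact ⟨pat_trans M (hnG 0 p h2.inn h1).1 (hnG p x hx h2).1,
        pat_trans M (hnG p x hx h2).2 (hnG 0 p h2.inn h1).2⟩
  refine ⟨fun a b c => ∃ x, Inn S.whl x ∧ (a = φ x ∨ b = φ x ∨ c = φ x), fun p => φ (ap p),
    ?_, ?_, ?_, ?_, ?_, ?_, ?_, ?_, ?_⟩
  · rintro a b c - ⟨x, hx, h⟩
    exact ⟨x, hx, by tauto⟩
  · rintro a b c - ⟨x, hx, h⟩
    exact ⟨x, hx, by tauto⟩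
  · rintro a b ⟨x, hx, h⟩
    exact ⟨x, hx, h.symm⟩
  · rintro a b c ⟨x, hx, h⟩ -
    exact ⟨x, hx, by tauto⟩
  · show φ (rg S.ring S.ring.length) = φ (rg S.ring 0)
    unfold rg
    rw [Nat.mod_self, Nat.zero_mod]
  · intro p hp
    refine ⟨T.cyc (hF p hp), ⟨ap p, (hnb p hp).1.inn, Or.inr (Or.inr rfl)⟩, ?_⟩
    rintro ⟨x, hx, h | h⟩
    · exact hoff p x hx h
    · exact hoff (p + 1) x hx h
  · rintro a b c h ⟨x, hx, hc⟩ hn
    obtain rfl : c = φ x := by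
      rcases hc with hc | hc | hc
      · exact absurd ⟨x, hx, Or.inl hc⟩ hn
      · exact absurd ⟨x, hx, Or.inr hc⟩ hn
      · exact hc
    obtain ⟨u, v, f, rfl, rfl⟩ := L.face M hx (T.cyc (T.cyc h))
    have hu : ¬ Inn S.whl u := fun k => hn ⟨u, k, Or.inl rfl⟩
    have hv : ¬ Inn S.whl v := fun k => hn ⟨v, k, Or.inr rfl⟩
    obtain ⟨p, hp, e⟩ : ∃ p < S.ring.length, s(u, v) = s(rg S.ring p, rg S.ring (p + 1)) := by
      rcases f with f | f
      · exact hS.face_ring x u v f hu hv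
      · rw [Sym2.eq_swap]
        exact hS.face_ring x v u f hv hu
    refine ⟨p, hp, ?_⟩
    rcases Sym2.eq_iff.1 e with ⟨rfl, rfl⟩ | ⟨rfl, rfl⟩
    · exact ⟨congrArg φ ((hap p hp x).2 f), rfl⟩
    · exact ⟨congrArg φ ((hap p hp x).2 f.symm), Sym2.eq_swap⟩
  · intro p hp q hq e1 e2
    have e : ap p = ap q := E.1 _ _ (hnb p hp).1.inn (hnb q hq).1.inn e1
    have n1 := hnb p hp
    have n2 := hnb q hq
    rw [← e] at n2
    rcases Sym2.eq_iff.1 e2 with ⟨k1, -⟩ | ⟨k1, k2⟩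
    · have k := pat_rg_inj hS.ring_nodup hr (L.inj M hS.nodup n1.1 n2.1 k1)
      rwa [Nat.mod_eq_of_lt hp, Nat.mod_eq_of_lt hq] at k
    · have k3 := pat_rg_inj hS.ring_nodup hr (L.inj M hS.nodup n1.1 n2.2 k1)
      have k4 := pat_rg_inj hS.ring_nodup hr (L.inj M hS.nodup n1.2 n2.1 k2)
      rw [Nat.mod_eq_of_lt hp] at k3
      rw [Nat.mod_eq_of_lt hq] at k4
      have k5 := pat_succ_mod hp
      have k6 := pat_succ_mod hq
      omega
  · intro p hp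
    have g := pat_trans M (hG _ (hnb 0 hr).1.inn).2 (hG _ (hnb p hp).1.inn).1 _ _ _ _
      (hF 0 hr) (hF p hp)
    exact ((((pat_s23 _ _ _).trans (pat_s12 _ _ _)).trans g).trans (pat_s12 _ _ _)).trans
      (pat_s23 _ _ _)

end Pool.Agent.FCT
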