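import Pool.Agent.Lib.MP_fe5cb4_co.FCT.Basic

/-!
A Boolean test for the static conditions on a configuration.
-/

namespace Pool.Agent.FCT

/-- All entries pass the test. -/
def allL {α : Type} (l : List α) (f : α → Bool) : Bool :=
  List.rec true (fun x _ r => f x && r) l

/-- Some entry passes the test. -/
def anyL {α : Type} (l : List α) (f : α → Bool) : Bool :=
  List.rec false (fun x _ r => f x || r) l

/-- The number of entries that pass the test. -/
def cntL {α : Type} (l : List α) (f : α → Bool) : ℕ :=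
  List.rec 0 (fun x _ r => bif f x then Nat.succ r else r) l

/-- A bit of a number. -/
def tb (m a : ℕ) : Bool := Nat.beq (Nat.land 1 (Nat.shiftRight m a)) 1

/-- The set of values as a number. -/
def msk {α : Type} (f : α → ℕ) (l : List α) : ℕ :=
  List.rec 0 (fun x _ r => Nat.lor (Nat.shiftLeft 1 (f x)) r) l

/-- The union of sets. -/
def uni {α : Type} (f : α → ℕ) (l : List α) : ℕ := List.rec 0 (fun x _ r => Nat.lor (f x) r) l

/-- The number of a pair. -/
def pr (a b : ℕ) : ℕ := Nat.add (Nat.mul (Nat.add a b) (Nat.add a b)) a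

/-- Membership. -/
def memB (a : ℕ) (l : List ℕ) : Bool := tb (msk (fun x => x) l) a

/-- No duplicates. -/
def ndB (l : List ℕ) : Bool := List.rec true (fun x t r => !memB x t && r) l

/-- Consecutive pairs, the last entry is followed by `h`. -/
def cyA (h : ℕ) (l : List ℕ) : List (ℕ × ℕ) :=
  List.rec [] (fun x t r => (x, t.headD h) :: r) l

/-- Cyclically consecutive pairs. -/
def cy (l : List ℕ) : List (ℕ × ℕ) := cyA (l.headD 0) l

/-- Test for `Inn`. -/
def innB (W : List (ℕ × List ℕ)) (a : ℕ) : Bool := tb (msk Prod.fst W) a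

/-- Test for `Nb`. -/
def nbB (W : List (ℕ × List ℕ)) (a b : ℕ) : Bool :=
  tb (uni (fun q => msk (pr q.1) q.2) W) (pr a b)

/-- Test for `Con`. -/
def conB (X : List (ℕ × ℕ)) (a b : ℕ) : Bool :=
  tb (Nat.lor (msk (fun e => pr e.1 e.2) X) (msk (fun e => pr e.2 e.1) X)) (pr a b)

/-- Test for `End`. -/
def endB (X : List (ℕ × ℕ)) (a : ℕ) : Bool := tb (Nat.lor (msk Prod.fst X) (msk Prod.snd X)) a

/-- A test on all faces. -/
def allF (W : List (ℕ × List ℕ)) (f : ℕ → ℕ → ℕ → Bool) : Bool :=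
  allL W fun q => allL (cy q.2) fun e => f q.1 e.1 e.2

/-- The list starts with three different entries. -/
def thrB : List ℕ → Bool
  | x :: y :: z :: _ => ndB [x, y, z]
  | _ => false

/-- At most one of the three holds. -/
def amo (x y z : Bool) : Bool := bif x then !y && !z else !(y && z)

/-- The test for `Static`. -/
def staticB (S : Cfg) : Bool :=
  ndB (S.whl.map Prod.fst) && (allL S.whl fun q => ndB q.2) &&
  (allF S.whl fun a b c => (!innB S.whl b || nbB S.whl b a && nbB S.whl b c) &&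
    (!innB S.whl c || nbB S.whl c a && nbB S.whl c b)) &&
  innB S.whl 0 &&
  (allL S.whl fun q => q.1.beq 0 || nbB S.whl 0 q.1 ||
    anyL S.whl fun p => nbB S.whl 0 p.1 && memB q.1 p.2) &&
  (allL S.whl fun q => !q.1.beq 0 || allL q.2 fun a => innB S.whl a ||
    Nat.ble (cntL S.whl fun p => memB a p.2) 4) &&
  Nat.ble 3 S.ring.length && ndB S.ring &&
  (allL S.ring fun a => !innB S.whl a && anyL S.whl fun q => memB a q.2) &&
  (allL S.whl fun q => allL q.2 fun a => innB S.whl a || memB a S.ring) &&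
  (allL (cy S.ring) fun e => Nat.beq (cntL S.whl fun q => conB (cy q.2) e.1 e.2) 1) &&
  (allF S.whl fun _ b c => innB S.whl b || innB S.whl c || conB (cy S.ring) b c) &&
  Nat.ble 1 S.con.length && Nat.ble S.con.length 4 &&
  (allL S.con fun e => nbB S.whl e.1 e.2) &&
  (allF S.whl fun a b c => amo (conB S.con a b) (conB S.con a c) (conB S.con b c)) &&
  (Nat.ble S.con.length 3 || anyL S.whl fun q => thrB (q.2.filter (endB S.con)) &&
    (!q.2.length.beq 5 || anyL q.2 fun u => !endB S.con u))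

theorem allL_iff {α : Type} {l : List α} {f : α → Bool} :
    allL l f = true ↔ ∀ x ∈ l, f x = true := by
  induction l with
  | nil => simp [allL]
  | cons x t ih => rw [List.forall_mem_cons, ← ih, ← Bool.and_eq_true]; rfl

theorem anyL_iff {α : Type} {l : List α} {f : α → Bool} :
    anyL l f = true ↔ ∃ x ∈ l, f x = true := by
  induction l with
  | nil => simp [anyL]
  | cons x t ih => rw [List.exists_mem_cons_iff, ← ih, ← Bool.or_eq_true]; rfl

theorem cntL_eq {α : Type} (l : List α) (f : α → Bool) : cntL l f = (l.filter f).length := by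
  induction l with
  | nil => rfl
  | cons x t ih =>
    change (bif f x then Nat.succ (cntL t f) else cntL t f) = _
    rw [List.filter_cons, ih]
    cases f x <;> rfl

theorem tb_eq (m a : ℕ) : tb m a = m.testBit a := by
  change Nat.beq (1 &&& m >>> a) 1 = (1 &&& m >>> a != 0)
  rw [Nat.one_and_eq_mod_two]
  rcases Nat.mod_two_eq_zero_or_one (m >>> a) with h | h <;> rw [h] <;> rfl

theorem tb_lor {m n a : ℕ} : tb (Nat.lor m n) a = true ↔ tb m a = true ∨ tb n a = true := by
  rw [tb_eq, tb_eq, tb_eq, ← Bool.or_eq_true, ← Nat.testBit_or]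
  rfl

theorem tb_uni {α : Type} {f : α → ℕ} {l : List α} {a : ℕ} :
    tb (uni f l) a = true ↔ ∃ x ∈ l, tb (f x) a = true := by
  induction l with
  | nil => simp [uni, tb_eq]
  | cons x t ih => rw [List.exists_mem_cons_iff, ← ih, ← tb_lor]; rfl

theorem tb_msk {α : Type} {f : α → ℕ} {l : List α} {a : ℕ} :
    tb (msk f l) a = true ↔ ∃ x ∈ l, f x = a := by
  refine (tb_uni (f := fun x => Nat.shiftLeft 1 (f x))).trans (exists_congr fun x => ?_)
  rw [tb_eq, show Nat.shiftLeft 1 (f x) = 1 <<< f x from rfl, Nat.one_shiftLeft,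
    Nat.testBit_two_pow, decide_eq_true_iff]

theorem pr_inj {a b c d : ℕ} : pr a b = pr c d ↔ a = c ∧ b = d := by
  refine ⟨fun h => ?_, fun h => by rw [h.1, h.2]⟩
  change (a + b) * (a + b) + a = (c + d) * (c + d) + c at h
  have e : a + b = c + d := by
    rcases lt_trichotomy (a + b) (c + d) with k | k | k
    · nlinarith
    · exact k
    · nlinarith
  rw [e] at h
  omega

theorem memB_iff {a : ℕ} {l : List ℕ} : memB a l = true ↔ a ∈ l := by simp [memB, tb_msk]

theorem ndB_iff {l : List ℕ} : ndB l = true ↔ l.Nodup := by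
  induction l with
  | nil => simp [ndB]
  | cons x t ih =>
    rw [List.nodup_cons, ← ih, ← memB_iff, Bool.not_eq_true, ← Bool.not_eq_true', ← Bool.and_eq_true]
    rfl

theorem mem_cyA {h a b : ℕ} {l : List ℕ} :
    (a, b) ∈ cyA h l ↔ ∃ k < l.length, l.getD k 0 = a ∧ l.getD (k + 1) h = b := by
  induction l with
  | nil => simp [cyA]
  | cons x t ih =>
    change _ ∈ (x, t.headD h) :: cyA h t ↔ _
    rw [List.mem_cons, ih, List.length_cons, Nat.exists_lt_succ_left]
    refine or_congr ?_ Iff.rfl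
    cases t <;> simp [eq_comm]

theorem mem_cy {a b : ℕ} {l : List ℕ} :
    (a, b) ∈ cy l ↔ ∃ k < l.length, l.getD k 0 = a ∧ l.getD ((k + 1) % l.length) 0 = b := by
  rw [cy, mem_cyA]
  refine exists_congr fun k => and_congr_right fun hk => and_congr_right fun _ => ?_
  rcases Nat.lt_or_ge (k + 1) l.length with h | h
  · rw [Nat.mod_eq_of_lt h, List.getD_eq_getElem _ _ h, List.getD_eq_getElem _ _ h]
  · rw [List.getD_eq_default _ _ h, show k + 1 = l.length by omega, Nat.mod_self]
    cases l <;> rfl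

theorem mem_cy_rg {a b : ℕ} {l : List ℕ} :
    (a, b) ∈ cy l ↔ ∃ k < l.length, rg l k = a ∧ rg l (k + 1) = b := by
  rw [mem_cy]
  refine exists_congr fun k => and_congr_right fun hk => ?_
  rw [rg, rg, Nat.mod_eq_of_lt hk]

variable {W : List (ℕ × List ℕ)} {X : List (ℕ × ℕ)} {a b c : ℕ}

theorem innB_iff : innB W a = true ↔ Inn W a := by
  simp only [innB, Inn, tb_msk]

theorem nbB_iff : nbB W a b = true ↔ Nb W a b := by
  simp only [nbB, Nb, tb_uni, tb_msk, pr_inj, exists_and_left, and_left_comm, exists_eq_right]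

theorem conB_iff : conB X a b = true ↔ Con X a b := by
  simp only [conB, Con, tb_lor, tb_msk, pr_inj]
  refine or_congr ⟨?_, fun h => ⟨_, h, rfl, rfl⟩⟩ ⟨?_, fun h => ⟨_, h, rfl, rfl⟩⟩ <;>
    rintro ⟨e, he, rfl, rfl⟩ <;> exact he

theorem endB_iff : endB X a = true ↔ End X a := by
  simp only [endB, End, tb_lor, tb_msk, and_or_left, exists_or]

theorem fc_iff : Fc W a b c ↔ ∃ q ∈ W, q.1 = a ∧ (b, c) ∈ cy q.2 := by
  simp only [Fc, mem_cy]

theorem allF_sound {f : ℕ → ℕ → ℕ → Bool} (h : allF W f = true) (hF : Fc W a b c) :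
    f a b c = true := by
  obtain ⟨q, hq, rfl, he⟩ := fc_iff.1 hF
  exact allL_iff.1 (allL_iff.1 h q hq) _ he

theorem thrB_sound {l : List ℕ} (h : thrB l = true) :
    ∃ x y z, [x, y, z].Nodup ∧ ∀ u ∈ [x, y, z], u ∈ l := by
  match l, h with
  | x :: y :: z :: t, h => exact ⟨x, y, z, ndB_iff.1 h, fun u hu => List.mem_append_left t hu⟩

theorem amo_sound {x y z : Bool} (h : amo x y z = true) :
    ¬ (x = true ∧ y = true) ∧ ¬ (x = true ∧ z = true) ∧ ¬ (y = true ∧ z = true) := by
  revert x y z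
  decide

theorem staticB_sound (S : Cfg) (h : staticB S = true) : Static S := by
  simp only [staticB, Bool.and_eq_true, and_assoc] at h
  obtain ⟨h1, h2, h3, h4, h5, h6, h7, h8, h9, h10, h11, h12, h13, h14, h15, h16, h17⟩ := h
  simp only [allL_iff, anyL_iff, cntL_eq, Bool.and_eq_true, Bool.or_eq_true, Nat.beq_eq,
    Nat.ble_eq, ndB_iff, memB_iff, innB_iff, nbB_iff, Bool.not_eq_true', ← Bool.not_eq_true,
    endB_iff] at h1 h2 h4 h5 h6 h7 h8 h9 h10 h11 h13 h14 h15 h17
  refine ⟨h1, h2, fun a b c hF => ?_, h4, ?_, ?_, h7, h8, fun a => ⟨fun ha => ?_, ?_⟩,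
    fun p hp => ?_, fun w a b hF na nb => ?_, List.length_pos_iff.1 h13, h14, h15,
    fun a b c hF => ?_, fun e => ?_⟩
  · have := allF_sound h3 hF
    simp only [Bool.and_eq_true, Bool.or_eq_true, innB_iff, nbB_iff, Bool.not_eq_true',
      ← Bool.not_eq_true] at this
    exact ⟨this.1.resolve_left ∘ not_not.2, this.2.resolve_left ∘ not_not.2⟩
  · rintro w ⟨q, hq, rfl⟩
    rcases h5 q hq with (e | e) | ⟨p, hp, e', e⟩
    exacts [Or.inl e, Or.inr (Or.inl e), Or.inr (Or.inr ⟨_, e', p, hp, rfl, e⟩)]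
  · rintro a p q x y ⟨z, hz, e, ha⟩ na np nq nx ny nd
    have k := (((h6 z hz).resolve_left (not_not.2 e)) a ha).resolve_left na
    have m : ∀ u, Nb S.whl u a → u ∈ (S.whl.filter fun p => memB a p.2).map Prod.fst := by
      rintro u ⟨t, ht, rfl, hu⟩
      exact List.mem_map_of_mem (List.mem_filter.2 ⟨ht, memB_iff.2 hu⟩)
    have := (List.subperm_of_subset nd (l₂ := (S.whl.filter fun p => memB a p.2).map Prod.fst) (by
      simp only [List.cons_subset, List.nil_subset, and_true]
      exact ⟨m _ ⟨z, hz, e, ha⟩, m _ np, m _ nq, m _ nx, m _ ny⟩)).length_le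
    rw [List.length_map] at this
    exact absurd (this.trans k) (by simp)
  · obtain ⟨k, q, hq, e⟩ := h9 a ha
    exact ⟨k, _, q, hq, rfl, e⟩
  · rintro ⟨na, w, q, hq, -, e⟩
    exact (h10 q hq a e).resolve_left na
  · obtain ⟨q, e⟩ := List.length_eq_one_iff.1 (h11 _ (mem_cy_rg.2 ⟨p, hp, rfl, rfl⟩))
    have m : ∀ t, t = q ↔ t ∈ S.whl ∧ Con (cy t.2) (rg S.ring p) (rg S.ring (p + 1)) := fun t => by
      rw [← List.mem_singleton, ← e, List.mem_filter, conB_iff]
    refine ⟨q.1, fun w' => ⟨?_, ?_⟩⟩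
    · rintro rfl
      obtain ⟨hq, k⟩ := (m q).1 rfl
      exact k.imp (fun k => fc_iff.2 ⟨q, hq, rfl, k⟩) fun k => fc_iff.2 ⟨q, hq, rfl, k⟩
    · rintro (k | k) <;> obtain ⟨t, ht, rfl, k'⟩ := fc_iff.1 k
      exacts [congrArg _ ((m t).2 ⟨ht, Or.inl k'⟩), congrArg _ ((m t).2 ⟨ht, Or.inr k'⟩)]
  · have := allF_sound h12 hF
    simp only [Bool.or_eq_true, innB_iff, conB_iff, na, nb, false_or] at this
    rcases this with k | k <;> obtain ⟨p, hp, rfl, rfl⟩ := mem_cy_rg.1 k
    exacts [⟨p, hp, rfl⟩, ⟨p, hp, Sym2.eq_swap⟩]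
  · simpa only [conB_iff] using amo_sound (allF_sound h16 hF)
  · obtain ⟨q, hq, k, k'⟩ := h17.resolve_left (by omega)
    obtain ⟨x, y, z, nd, m⟩ := thrB_sound k
    exact ⟨q, hq, ⟨x, y, z, nd, fun u hu => (List.mem_filter.1 (m u hu)).imp_right endB_iff.1⟩,
      fun e5 => k'.resolve_left (not_not.2 e5)⟩

/-- The Birkhoff diamond. -/
def diamond : Cfg := ⟨[(0, 2, 1), (0, 1, 2), (0, 3, 2), (1, 2, 0), (1, 4, 0), (2, 3, 0), (3, 5, 0)],
  [(0, [4, 1, 2, 3, 5]), (1, [6, 2, 0, 4, 7]), (2, [8, 3, 0, 1, 6]), (3, [9, 5, 0, 2, 8])],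
  [0, 2, 4, 1, 6, 8, 3, 10, 5, 12, 7],
  [4, 7, 6, 8, 9, 5], [(0, 1)]⟩

example : staticB diamond = true := by decide +kernel

example : derive diamond diamond.ord [] [] = true := by decide +kernel

end Pool.Agent.FCT
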