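import Pool.Agent.Lib.MP_fe5cb4_co.FCT.Defs
import Pool.Agent.Lib.MP_fe5cb4_co.FCT.Dual
import Pool.Agent.Lib.MP_fe5cb4_co.Sey.Low
import Pool.Agent.Lib.MP_fe5cb4_co.Sey.CoreThm
import Pool.Agent.Lib.MP_fe5cb4_co.Sey.Small
import Pool.Agent.Lib.MP_fe5cb4_co.Sey.Bridge

/-!
The four colour theorem implies that every planar `r`-graph is class 1.
-/

set_option autoImplicit false

namespace Pool.Agent.FCT

open Pool.Agent.Lib.MP_fe5cb4_co.Sey

theorem dual_thm : StDual := fun h => sey3 fun V _ G hG => by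
  obtain ⟨c, hc⟩ := h V G hG
  exact (SimpleGraph.Coloring.mk c fun {a b} => hc a b).colorable

theorem seyM_of_three (h : SeyM 3) : ∀ r, SeyM r
  | 0 => small_thm.1
  | 1 => small_thm.2.1
  | 2 => small_thm.2.2
  | 3 => h
  | r + 4 => low_step core2_thm (r + 3) (by omega) (seyM_of_three h (r + 3))

theorem seymour_of_four (h : Four) (r : ℕ) : Seymour r :=
  (bridge_thm r).2 (seyM_of_three (dual_thm h) r)

/-- the frozen statement, from the four colour theorem and the drawing lemma -/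
theorem final (h : Four) (hD : ∀ (V E : Type) [Finite V] [Finite E] (s d : E → V),
    (∀ e, s e ≠ d e) → (∃ p : V → ℂ, Function.Injective p ∧ ∃ γ : E → unitInterval → ℂ,
      (∀ e, Continuous (γ e) ∧ Function.Injective (γ e) ∧ γ e 0 = p (s e) ∧ γ e 1 = p (d e)) ∧
      (∀ e x, γ e x ∈ Set.range p → x = 0 ∨ x = 1) ∧
      (∀ e e' x y, e ≠ e' → γ e x = γ e' y → γ e x ∈ Set.range p)) →
    Planar (SimpleGraph.fromRel fun a b => ∃ e, s e = a ∧ d e = b)) :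
  ∃ t : ℕ, 1 ≤ t ∧ ∀ r : ℕ, 1 ≤ r → ∀ (V E : Type) [Finite V] [Finite E] (s d : E → V),
    (∀ e, s e ≠ d e) →
    (∀ v, Nat.card {e : E // s e = v ∨ d e = v} = r) →
    (∀ U : Set V, Odd (Nat.card U) →
      r ≤ Nat.card {e : E // (s e ∈ U ∧ d e ∉ U) ∨ (s e ∉ U ∧ d e ∈ U)}) →
    (∃ p : V → ℂ, Function.Injective p ∧ ∃ γ : E → unitInterval → ℂ,
      (∀ e, Continuous (γ e) ∧ Function.Injective (γ e) ∧ γ e 0 = p (s e) ∧ γ e 1 = p (d e)) ∧
      (∀ e x, γ e x ∈ Set.range p → x = 0 ∨ x = 1) ∧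
      (∀ e e' x y, e ≠ e' → γ e x = γ e' y → γ e x ∈ Set.range p)) →
    ∃ M : Fin (t * r) → Set E,
      (∀ i v, Nat.card {e : E // e ∈ M i ∧ (s e = v ∨ d e = v)} = 1) ∧
      ∀ e, Nat.card {i : Fin (t * r) // e ∈ M i} = t := by
  refine ⟨1, le_rfl, fun r _ V E _ _ s d h1 h2 h3 h4 => ?_⟩
  rw [one_mul]
  exact seymour_of_four h r V E s d h1 h2 h3 (hD V E s d h1 h4)

end Pool.Agent.FCT
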