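import Pool.Agent.Lib.MP_fe5cb4_co.FCT.Exc
import Pool.Agent.Lib.MP_fe5cb4_co.FCT.Stat
import Pool.Agent.Lib.MP_fe5cb4_co.FCT.Dev
import Pool.Agent.Lib.MP_fe5cb4_co.FCT.Pat
import Pool.Agent.Lib.MP_fe5cb4_co.FCT.Kempe

/-!
Several developing programs for one reducible configuration.
-/

set_option autoImplicit false

namespace Pool.Agent.FCT

/-- Every wheel of `S`, renamed by the list `R`, is a wheel of `Q` up to rotation and reflection. -/
def varB (S Q : Cfg) (R : List ℕ) : Bool :=
  allL S.whl fun q => anyL Q.whl fun p => p.1.beq (R.getD q.1 0) && p.2.length.beq q.2.length &&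
    anyL (List.range p.2.length) fun s =>
      (allL (List.range p.2.length) fun k =>
        (R.getD (q.2.getD k 0) 0).beq (p.2.getD ((s + k) % p.2.length) 0)) ||
      allL (List.range p.2.length) fun k =>
        (R.getD (q.2.getD k 0) 0).beq (p.2.getD ((s + p.2.length - k) % p.2.length) 0)

theorem varB_sound {V : Type} [Fintype V] {T : Tri V} (M : MC T) (B : Birk T) {S Q : Cfg}
    {R : List ℕ} (h : varB S Q R = true) {φ : ℕ → V} (L : LocIso T Q.whl φ) :
    LocIso T S.whl fun n => φ (R.getD n 0) := by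
  intro q hq
  obtain ⟨p, hp, k⟩ := anyL_iff.1 (allL_iff.1 h q hq)
  simp only [Bool.and_eq_true, Bool.or_eq_true, Nat.beq_eq, anyL_iff, allL_iff,
    List.mem_range] at k
  obtain ⟨⟨e1, e2⟩, s, -, k⟩ := k
  obtain ⟨h1, h2, h3⟩ := L p hp
  have h5 := B.deg5 (φ p.1)
  have h4 : ∀ j, φ (p.2.getD (j % p.2.length) 0) =
      T.rot (φ p.1) (φ (p.2.getD 0 0)) (φ (p.2.getD 1 0)) j := fun j => by
    rw [h3 _ (Nat.mod_lt _ (by omega)), ← h1, M.rot_mod h2]
  simp only [← e1, ← e2]
  refine ⟨h1, ?_⟩
  rcases k with k | k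
  · have k' := fun j hj => (congrArg φ (k j hj)).trans (h4 _)
    rw [k' 0 (by omega), k' 1 (by omega)]
    exact ⟨T.rot_F h2 s, fun j hj => (k' j hj).trans (T.rot_shift _ _ _ s j).symm⟩
  · have k' := fun j hj => (congrArg φ (k j hj)).trans (h4 _)
    refine ⟨?_, fun j hj => T.eq_rot _ (fun j => φ (R.getD (q.2.getD j 0) 0)) _
      (fun j hj => ?_) j hj⟩
    · rw [k' 0 (by omega), k' 1 (by omega),
        show s + p.2.length - 0 = s + p.2.length - 1 + 1 by omega]
      exact T.s23 (T.rot_F h2 _)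
    · rw [k' j (by omega), k' (j + 1) (by omega), k' _ hj,
        show s + p.2.length - j = s + p.2.length - (j + 2) + 2 by omega,
        show s + p.2.length - (j + 1) = s + p.2.length - (j + 2) + 1 by omega]
      exact (T.rot_back h2 _).symm

theorem excl_var (hE : StEmb) (hL : StLoop) (S Q : Cfg) (R : List ℕ) (hS : staticB S = true)
    (hR : Red S) (h : (derive Q Q.ord [] [] && varB S Q R) = true) : Excl Q := by
  intro V _ T M B a b c hA
  rw [Bool.and_eq_true] at h
  exact no_iso kempe_thm hE hL pat_thm S (staticB_sound S hS) hR V T M B _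
    (varB_sound M B h.2 (dev_thm V T M Q a b c h.1 hA))

end Pool.Agent.FCT
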